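import Pool.Agent.Lib.MP_76b24b_lcL.Spec

/-!
# MP_76b24b_lc, package L: the active output blocks
-/

set_option autoImplicit false

namespace Pool.Agent.Lin

open Finset

private theorem dec_iff {p : Prop} (h : Decidable p) : @decide p h = true ↔ p :=
  @decide_eq_true_iff p h

private def pr {N : ℕ} (i : Fin N) : Fin N := ⟨(i : ℕ) - 1, by omega⟩

/-- The change of the block number. -/
private def dg {β η : ℕ} (x : (Fin (2 ^ η + 1) × Fin (η + β + 1)) ⊕ Fin (2 ^ η) → Bool)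
    (i : Fin (2 ^ η)) : Bool :=
  xor (x (Sum.inl (i.castSucc, ⟨β, by omega⟩))) (x (Sum.inl (i.succ, ⟨β, by omega⟩)))

/-- The segmented OR. -/
private def sg {N : ℕ} (x : Fin N ⊕ Fin N → Bool) (i : Fin N) : Bool :=
  decide (∃ i' : Fin N, i' ≤ i ∧ x (Sum.inr i') = true ∧
    ∀ l : Fin N, i' < l → l ≤ i → x (Sum.inl l) = false)

private def gg {β η : ℕ} (x : (Fin (2 ^ η + 1) × Fin (η + β + 1)) ⊕ Fin (2 ^ η) → Bool) :
    Fin (2 ^ η) → Bool :=
  sg (Sum.elim (fun l => dg x (pr l)) (fun i => x (Sum.inr i)))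

private def PP {β η : ℕ} (x : (Fin (2 ^ η + 1) × Fin (η + β + 1)) ⊕ Fin (2 ^ η) → Bool)
    (i : Fin (2 ^ η)) : Bool := dg x i || decide ((i : ℕ) + 1 = 2 ^ η)

private def FF {β η : ℕ} (x : (Fin (2 ^ η + 1) × Fin (η + β + 1)) ⊕ Fin (2 ^ η) → Bool)
    (a : Fin (2 ^ η)) : Bool :=
  cmp Fin.val (PP x) (gg x) a || (cmp Fin.val (PP x) (gg x) (pr a) && decide ((a : ℕ) ≠ 0))

private theorem cx_FF (hN : S_Naive) (hS : S_Seg) (β η : ℕ) :
    Cx (FF (β := β) (η := η)) (16 * ((η + 1) * 2 ^ η)) := by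
  have h1 : Cx (dg (β := β) (η := η)) (Fintype.card (Fin (2 ^ η))) :=
    Cx.layer (ι := (Fin (2 ^ η + 1) × Fin (η + β + 1)) ⊕ Fin (2 ^ η)) (κ := Fin (2 ^ η))
      (fun _ a b => xor a b) (fun i => Sum.inl (i.castSucc, ⟨β, by omega⟩))
      (fun i => Sum.inl (i.succ, ⟨β, by omega⟩))
  rw [Fintype.card_fin] at h1
  have h2 : Cx (sg (N := 2 ^ η)) (3 * 2 ^ η) := hS (2 ^ η)
  have h3 := h1.ext (h2.inp (ι' := ((Fin (2 ^ η + 1) × Fin (η + β + 1)) ⊕ Fin (2 ^ η)) ⊕ Fin (2 ^ η))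
    (Sum.elim (fun l => Sum.inr (pr l)) (fun i => Sum.inl (Sum.inr i))))
  have h4 : Cx (gg (β := β) (η := η)) (2 ^ η + 3 * 2 ^ η) := by
    refine h3.congr fun x j => ?_
    unfold gg
    congr 1
    funext l
    rcases l with l | l <;> rfl
  have h5 := (h1.pair h4).comp (Cx.layer (κ := Fin (2 ^ η) ⊕ Fin (2 ^ η))
    (fun j a _ => Sum.elim (fun i : Fin (2 ^ η) => a || decide ((i : ℕ) + 1 = 2 ^ η)) (fun _ => a) j)
    (fun j : Fin (2 ^ η) ⊕ Fin (2 ^ η) => (j : Fin (2 ^ η) ⊕ Fin (2 ^ η)))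
    (fun j : Fin (2 ^ η) ⊕ Fin (2 ^ η) => (j : Fin (2 ^ η) ⊕ Fin (2 ^ η))))
  rw [Fintype.card_sum, Fintype.card_fin] at h5
  have h6 := (h5.comp (hN η)).comp (Cx.layer (κ := Fin (2 ^ η))
    (fun a s t => s || (t && decide ((a : ℕ) ≠ 0))) (fun a : Fin (2 ^ η) => (a : Fin (2 ^ η)))
    (fun a : Fin (2 ^ η) => (pr a : Fin (2 ^ η))))
  rw [Fintype.card_fin] at h6
  refine (h6.mono ?_).congr fun x j => ?_
  · nlinarith [Nat.two_pow_pos η, Nat.zero_le (η * 2 ^ η)]
  · rfl

private theorem const_iff (a : ℕ → ℕ) (hm : Monotone a) (i' i : ℕ) (h : i' ≤ i) :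
    (∀ l, i' < l → l ≤ i → a (l - 1) = a l) ↔ a i' = a i := by
  constructor
  · intro hl
    induction i, h using Nat.le_induction with
    | base => rfl
    | succ i hi ih =>
      have h1 := ih fun l h1 h2 => hl l h1 (by omega)
      have h2 := hl (i + 1) (by omega) le_rfl
      rw [Nat.add_sub_cancel] at h2
      rw [h1, h2]
  · intro he l h1 h2
    have h3 : a i' ≤ a (l - 1) := hm (by omega)
    have h4 : a (l - 1) ≤ a l := hm (by omega)
    have h5 : a l ≤ a i := hm h2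
    omega

private theorem rk_eq (N : ℕ) (P : Fin N → Bool) (a : ℕ → ℕ) (h0 : a 0 = 0)
    (h1 : ∀ i, a i ≤ a (i + 1)) (h2 : ∀ i, a (i + 1) ≤ a i + 1)
    (hP : ∀ i : Fin N, (i : ℕ) + 1 < N → (P i = true ↔ a i ≠ a (i + 1))) (q : ℕ) (hq : q < N) :
    rk Fin.val P q = a q := by
  induction q with
  | zero =>
    unfold rk
    rw [h0, card_eq_zero, filter_eq_empty_iff]
    intro i _ h
    exact absurd h.1 (Nat.not_lt_zero _)
  | succ q ih =>
    have ih := ih (by omega)
    unfold rk at ih ⊢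
    by_cases hPq : P ⟨q, by omega⟩ = true
    · have h3 := (hP ⟨q, by omega⟩ hq).1 hPq
      have h4 : (univ.filter fun i : Fin N => i.val < q + 1 ∧ P i = true) =
          insert (⟨q, by omega⟩ : Fin N) (univ.filter fun i : Fin N => i.val < q ∧ P i = true) := by
        ext i
        simp only [mem_filter, mem_univ, true_and, mem_insert, Fin.ext_iff]
        constructor
        · rintro ⟨h5, h6⟩
          by_cases h7 : i.val = q
          · exact Or.inl h7
          · exact Or.inr ⟨by omega, h6⟩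
        · rintro (h5 | ⟨h5, h6⟩)
          · refine ⟨by omega, ?_⟩
            have h6 : i = ⟨q, by omega⟩ := Fin.ext h5
            rw [h6]
            exact hPq
          · exact ⟨by omega, h6⟩
      rw [h4, card_insert_of_notMem, ih]
      · have h5 := h1 q
        have h6 := h2 q
        change a q ≠ a (q + 1) at h3
        omega
      · rw [mem_filter]
        rintro ⟨-, h5, -⟩
        exact lt_irrefl _ h5
    · have h3 : ¬ a q ≠ a (q + 1) := fun h => hPq ((hP ⟨q, by omega⟩ hq).2 h)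
      have h4 : (univ.filter fun i : Fin N => i.val < q + 1 ∧ P i = true) =
          (univ.filter fun i : Fin N => i.val < q ∧ P i = true) := by
        ext i
        simp only [mem_filter, mem_univ, true_and]
        constructor
        · rintro ⟨h5, h6⟩
          refine ⟨?_, h6⟩
          by_contra h7
          have h8 : i = ⟨q, by omega⟩ := Fin.ext (by change i.val = q; omega)
          rw [h8] at h6
          exact hPq h6
        · rintro ⟨h5, h6⟩
          exact ⟨by omega, h6⟩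
      rw [h4, ih]
      exact not_not.1 h3

private theorem cmp_iff (N : ℕ) (P g v : Fin N → Bool) (a : ℕ → ℕ) (h0 : a 0 = 0)
    (h1 : ∀ i, a i ≤ a (i + 1)) (h2 : ∀ i, a (i + 1) ≤ a i + 1)
    (hP : ∀ i : Fin N, P i = true ↔ (a i ≠ a (i + 1) ∨ (i : ℕ) + 1 = N))
    (hg : ∀ i : Fin N, g i = true ↔ ∃ i' : Fin N, i' ≤ i ∧ v i' = true ∧ a i' = a i) (j : ℕ) :
    cmp Fin.val P g j = true ↔ ∃ i : Fin N, v i = true ∧ a i = j := by
  have hm : Monotone a := monotone_nat_of_le_succ h1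
  have hrk : ∀ i : Fin N, rk Fin.val P i.val = a i := fun i =>
    rk_eq N P a h0 h1 h2 (fun i hi => by
      rw [hP]
      exact ⟨fun h => h.resolve_right (by omega), Or.inl⟩) i i.isLt
  unfold cmp
  refine (dec_iff _).trans ?_
  constructor
  · rintro ⟨i, hPi, hgi, hri⟩
    obtain ⟨i', -, hv, ha⟩ := (hg i).1 hgi
    exact ⟨i', hv, by rw [ha, ← hrk i, hri]⟩
  · rintro ⟨i', hv, ha⟩
    obtain ⟨S, hS⟩ : ∃ S : Finset (Fin N), S = univ.filter (fun i : Fin N => a i = j) := ⟨_, rfl⟩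
    have hne : S.Nonempty := ⟨i', by rw [hS, mem_filter]; exact ⟨mem_univ _, ha⟩⟩
    obtain ⟨i, hi⟩ : ∃ i, i = S.max' hne := ⟨_, rfl⟩
    have hiS : i ∈ S := hi ▸ S.max'_mem hne
    rw [hS, mem_filter] at hiS
    have hle : i' ≤ i := by
      rw [hi]
      exact S.le_max' _ (by rw [hS, mem_filter]; exact ⟨mem_univ _, ha⟩)
    refine ⟨i, ?_, ?_, ?_⟩
    · rw [hP]
      by_contra hcon
      rw [not_or, not_not] at hcon
      obtain ⟨h3, h4⟩ := hcon
      have h5 : (i : ℕ) + 1 < N := by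
        have := i.isLt
        omega
      have h6 : (⟨(i : ℕ) + 1, h5⟩ : Fin N) ∈ S := by
        rw [hS, mem_filter]
        exact ⟨mem_univ _, by rw [← hiS.2]; exact h3.symm⟩
      have h7 := S.le_max' _ h6
      rw [← hi, Fin.le_def] at h7
      simp only at h7
      omega
    · rw [hg]
      exact ⟨i', hle, hv, by rw [ha, hiS.2]⟩
    · rw [hrk, hiS.2]

theorem tAct (hN : S_Naive) (hS : S_Seg) : S_Act := by
  refine ⟨16, fun β η => ⟨FF, cx_FF hN hS β η, ?_⟩⟩
  intro s x h0 h1 h2 hx a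
  obtain ⟨b, hb⟩ : ∃ b : ℕ → ℕ, b = fun i => s i / 2 ^ β := ⟨_, rfl⟩
  have hb' : ∀ i, b i = s i / 2 ^ β := fun i => by rw [hb]
  have hb0 : b 0 = 0 := by rw [hb', h0, Nat.zero_div]
  have hb1 : ∀ i, b i ≤ b (i + 1) := fun i => by
    rw [hb', hb']
    exact Nat.div_le_div_right (h1 i)
  have hb2 : ∀ i, b (i + 1) ≤ b i + 1 := fun i => by
    rw [hb', hb', ← Nat.add_div_right _ (Nat.two_pow_pos β)]
    exact Nat.div_le_div_right (h2 i)
  have hdg : ∀ i : Fin (2 ^ η), dg x i = true ↔ b i ≠ b (i + 1) := by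
    intro i
    unfold dg
    rw [hx, hx, Nat.testBit_eq_decide_div_mod_eq, Nat.testBit_eq_decide_div_mod_eq]
    change (decide (s (i : ℕ) / 2 ^ β % 2 = 1) ^^ decide (s ((i : ℕ) + 1) / 2 ^ β % 2 = 1)) = true ↔ _
    rw [← hb', ← hb']
    have h3 := hb1 i
    have h4 := hb2 i
    by_cases h5 : b i % 2 = 1
    · by_cases h6 : b (i + 1) % 2 = 1
      · simp only [h5, h6, decide_true, Bool.xor_self, Bool.false_eq_true, false_iff, not_not]
        omega
      · simp only [h5, h6, decide_true, decide_false, Bool.xor_false, true_iff]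
        omega
    · by_cases h6 : b (i + 1) % 2 = 1
      · simp only [h5, h6, decide_true, decide_false, Bool.xor_true, Bool.not_false, true_iff]
        omega
      · simp only [h5, h6, decide_false, Bool.xor_self, Bool.false_eq_true, false_iff, not_not]
        omega
  have hm : Monotone b := monotone_nat_of_le_succ hb1
  have hP : ∀ i : Fin (2 ^ η), PP x i = true ↔ (b i ≠ b (i + 1) ∨ (i : ℕ) + 1 = 2 ^ η) := by
    intro i
    unfold PP
    rw [Bool.or_eq_true, hdg, decide_eq_true_iff]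
  have hg : ∀ i : Fin (2 ^ η), gg x i = true ↔
      ∃ i' : Fin (2 ^ η), i' ≤ i ∧ x (Sum.inr i') = true ∧ b i' = b i := by
    intro i
    unfold gg sg
    rw [decide_eq_true_iff]
    refine exists_congr fun i' => and_congr_right fun hle => and_congr_right fun _ => ?_
    rw [← const_iff b hm i' i hle]
    constructor
    · intro h l hl1 hl2
      have hlN : l < 2 ^ η := lt_of_le_of_lt hl2 i.isLt
      have h3 := h ⟨l, hlN⟩ (Fin.lt_def.2 hl1) (Fin.le_def.2 hl2)
      have h4 : ¬ dg x (pr ⟨l, hlN⟩) = true := by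
        rw [Bool.not_eq_true]
        exact h3
      rw [hdg, not_not] at h4
      have h5 : ((pr ⟨l, hlN⟩ : Fin (2 ^ η)) : ℕ) = l - 1 := rfl
      rw [h5] at h4
      have h6 : l - 1 + 1 = l := by omega
      rw [h6] at h4
      exact h4
    · intro h l hl1 hl2
      have h3 := h l (Fin.lt_def.1 hl1) (Fin.le_def.1 hl2)
      have h4 : ¬ dg x (pr l) = true := by
        rw [hdg, not_not]
        have h5 : ((pr l : Fin (2 ^ η)) : ℕ) = (l : ℕ) - 1 := rfl
        have h7 := Fin.lt_def.1 hl1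
        have h6 : (l : ℕ) - 1 + 1 = l := by omega
        rw [h5, h6]
        exact h3
      exact Bool.not_eq_true _ ▸ h4
  have key := cmp_iff (2 ^ η) (PP x) (gg x) (fun i => x (Sum.inr i)) b hb0 hb1 hb2 hP hg
  have hF : FF x a = true ↔ ∃ i : Fin (2 ^ η), x (Sum.inr i) = true ∧
      (s i / 2 ^ β = a ∨ s i / 2 ^ β + 1 = a) := by
    unfold FF
    rw [Bool.or_eq_true, Bool.and_eq_true, key, key, decide_eq_true_iff]
    have h5 : ((pr a : Fin (2 ^ η)) : ℕ) = (a : ℕ) - 1 := rfl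
    rw [h5]
    constructor
    · rintro (⟨i, hv, ha⟩ | ⟨⟨i, hv, ha⟩, h6⟩)
      · exact ⟨i, hv, Or.inl (by rw [← hb', ha])⟩
      · exact ⟨i, hv, Or.inr (by rw [← hb', ha]; omega)⟩
    · rintro ⟨i, hv, ha | ha⟩
      · exact Or.inl ⟨i, hv, by rw [hb', ha]⟩
      · rw [← hb'] at ha
        exact Or.inr ⟨⟨i, hv, by omega⟩, by omega⟩
  rw [Bool.eq_iff_iff, hF, decide_eq_true_iff]

end Pool.Agent.Lin
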