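import Pool.Agent.Lib.MP_76b24b_lcL.Spec

/-!
# MP_76b24b_lc, package L: the adder
-/

set_option autoImplicit false

namespace Pool.Agent.Lin

private theorem num_succ {k : ℕ} (u : Fin (k + 1) → Bool) :
    num u = num (fun i => u i.castSucc) + 2 ^ k * (u (Fin.last k)).toNat := by
  unfold num
  rw [Fin.sum_univ_castSucc]
  congr 1
  cases u (Fin.last k) <;> simp

private theorem num_lt : ∀ {k : ℕ} (u : Fin k → Bool), num u < 2 ^ k
  | 0, u => by simp [num]
  | k + 1, u => by
    rw [num_succ]
    have h := num_lt (fun i : Fin k => u i.castSucc)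
    have h2 : (u (Fin.last k)).toNat ≤ 1 := Bool.toNat_le _
    have h3 : 2 ^ k * (u (Fin.last k)).toNat ≤ 2 ^ k * 1 := Nat.mul_le_mul_left _ h2
    rw [pow_succ]
    omega

/-- The full adder: sum (`false`) and carry (`true`). -/
private def fa (a b c : Bool) (i : Bool) : Bool :=
  if i = true then (((a ^^ b) && c) || (!(a ^^ b) && a)) else ((a ^^ b) ^^ c)

private theorem cx_fa : Cx (fun (y : Fin 3 → Bool) (i : Bool) => fa (y 0) (y 1) (y 2) i) 5 := by
  have h1 : Cx (fun (y : Fin 3 → Bool) (_ : Unit) => (y 0 ^^ y 1)) 1 := Cx.gate (fun p q => p ^^ q) 0 1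
  have h2 : Cx (fun (y : Fin 3 ⊕ Unit → Bool) (_ : Unit) => (y (Sum.inr ()) ^^ y (Sum.inl 2))) 1 :=
    Cx.gate (fun p q => p ^^ q) _ _
  have h3 : Cx (fun (y : Fin 3 ⊕ Unit → Bool) (i : Bool) =>
      (fun (j p q : Bool) => if j = true then (p && q) else (!p && q)) i (y (Sum.inr ()))
        (y ((fun j : Bool => if j = true then (Sum.inl 2 : Fin 3 ⊕ Unit) else Sum.inl 0) i)))
      (Fintype.card Bool) :=
    Cx.layer (fun (j p q : Bool) => if j = true then (p && q) else (!p && q))
      (fun _ => Sum.inr ()) (fun j : Bool => if j = true then (Sum.inl 2 : Fin 3 ⊕ Unit) else Sum.inl 0)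
  have h4 : Cx (fun (y : Bool → Bool) (_ : Unit) => (y true || y false)) 1 :=
    Cx.gate (fun p q => p || q) _ _
  have h5 := h1.ext (h2.pair (h3.comp h4))
  have h6 := h5.out (fun i : Bool => if i = true then (Sum.inr () : Unit ⊕ Unit) else Sum.inl ())
  refine (h6.congr fun y i => ?_).mono (by simp)
  cases i
  · simp [fa]
  · simp [fa]

private theorem step_bits (k s : ℕ) (hs : s < 2 ^ (k + 2)) (a b : Bool) (i : ℕ) :
    (s + 2 ^ (k + 1) * a.toNat + 2 ^ (k + 1) * b.toNat).testBit i =
      if i < k + 1 then s.testBit i else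
      if i = k + 1 then fa a b (s.testBit (k + 1)) false else
      if i = k + 2 then fa a b (s.testBit (k + 1)) true else false := by
  have hr : s % 2 ^ (k + 1) < 2 ^ (k + 1) := Nat.mod_lt _ (by positivity)
  have hq : s / 2 ^ (k + 1) < 2 := by
    rw [Nat.div_lt_iff_lt_mul (by positivity)]
    calc s < 2 ^ (k + 2) := hs
      _ = 2 * 2 ^ (k + 1) := by rw [pow_succ' 2 (k + 1)]
  have hdm : s = 2 ^ (k + 1) * (s / 2 ^ (k + 1)) + s % 2 ^ (k + 1) := (Nat.div_add_mod _ _).symm
  have hS : s + 2 ^ (k + 1) * a.toNat + 2 ^ (k + 1) * b.toNat =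
      2 ^ (k + 1) * (s / 2 ^ (k + 1) + a.toNat + b.toNat) + s % 2 ^ (k + 1) := by
    conv_lhs => rw [hdm]
    ring
  have hsb : ∀ j, s.testBit j = if j < k + 1 then (s % 2 ^ (k + 1)).testBit j else
      (s / 2 ^ (k + 1)).testBit (j - (k + 1)) := by
    intro j
    conv_lhs => rw [hdm]
    exact Nat.testBit_two_pow_mul_add _ hr j
  rw [hS, Nat.testBit_two_pow_mul_add _ hr i, hsb i, hsb (k + 1)]
  by_cases h1 : i < k + 1
  · simp only [h1, if_true]
  · simp only [h1, if_false]
    have hk : ¬ (k + 1 < k + 1) := lt_irrefl _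
    simp only [hk, if_false, Nat.sub_self]
    generalize s / 2 ^ (k + 1) = q at hq
    by_cases h2 : i = k + 1
    · subst h2
      simp only [if_true, Nat.sub_self]
      interval_cases q <;> cases a <;> cases b <;> decide
    · simp only [h2, if_false]
      by_cases h3 : i = k + 2
      · subst h3
        simp only [if_true]
        have : k + 2 - (k + 1) = 1 := by omega
        rw [this]
        interval_cases q <;> cases a <;> cases b <;> decide
      · simp only [h3, if_false]
        obtain ⟨d, hd⟩ : ∃ d, i - (k + 1) = d + 2 := ⟨i - (k + 1) - 2, by omega⟩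
        rw [hd]
        apply Nat.testBit_lt_two_pow
        have : q + a.toNat + b.toNat < 4 := by
          have := Bool.toNat_le a
          have := Bool.toNat_le b
          omega
        calc q + a.toNat + b.toNat < 4 := this
          _ = 2 ^ 2 := by norm_num
          _ ≤ 2 ^ (d + 2) := Nat.pow_le_pow_right (by norm_num) (by omega)

private theorem add_aux : ∀ k : ℕ, Cx (fun (x : Fin (k + 1) ⊕ Fin (k + 1) → Bool) (i : Fin (k + 2)) =>
    (num (fun t => x (Sum.inl t)) + num (fun t => x (Sum.inr t))).testBit i) (5 * (k + 1))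
  | 0 => by
    have h1 : Cx (fun (x : Fin 1 ⊕ Fin 1 → Bool) (j : Bool) =>
        (fun (j p q : Bool) => if j = true then (p && q) else (p ^^ q)) j
          (x (Sum.inl 0)) (x (Sum.inr 0))) (Fintype.card Bool) :=
      Cx.layer (fun (j p q : Bool) => if j = true then (p && q) else (p ^^ q))
        (fun _ => Sum.inl 0) (fun _ => Sum.inr 0)
    have h2 := h1.out (fun i : Fin 2 => decide (i = 1))
    refine (h2.congr fun x i => ?_).mono (by simp)
    have e1 : num (fun t : Fin 1 => x (Sum.inl t)) = (x (Sum.inl 0)).toNat := by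
      unfold num
      rw [Fin.sum_univ_one]
      cases h : x (Sum.inl 0) <;> simp [h]
    have e2 : num (fun t : Fin 1 => x (Sum.inr t)) = (x (Sum.inr 0)).toNat := by
      unfold num
      rw [Fin.sum_univ_one]
      cases h : x (Sum.inr 0) <;> simp [h]
    rw [e1, e2]
    generalize x (Sum.inl 0) = a
    generalize x (Sum.inr 0) = b
    fin_cases i <;> cases a <;> cases b <;> decide
  | k + 1 => by
    have ih := (add_aux k).inp (Sum.map Fin.castSucc Fin.castSucc :
      Fin (k + 1) ⊕ Fin (k + 1) → Fin (k + 2) ⊕ Fin (k + 2))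
    have h1 := cx_fa.inp (![Sum.inl (Sum.inl (Fin.last (k + 1))), Sum.inl (Sum.inr (Fin.last (k + 1))),
      Sum.inr (Fin.last (k + 1))] : Fin 3 → (Fin (k + 2) ⊕ Fin (k + 2)) ⊕ Fin (k + 2))
    have h2 := h1.keep.out (fun i : Fin (k + 3) =>
      if hi : (i : ℕ) < k + 2 then
        (if (i : ℕ) = k + 1 then (Sum.inr false : ((Fin (k + 2) ⊕ Fin (k + 2)) ⊕ Fin (k + 2)) ⊕ Bool)
          else Sum.inl (Sum.inr ⟨i, hi⟩))
      else Sum.inr true)
    refine ((ih.ext h2).congr fun x i => ?_).mono (by ring_nf; omega)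
    have hs : num (fun t => x (Sum.inl (Fin.castSucc t))) + num (fun t => x (Sum.inr (Fin.castSucc t)))
        < 2 ^ (k + 2) := by
      have e1 := num_lt (fun t : Fin (k + 1) => x (Sum.inl (Fin.castSucc t)))
      have e2 := num_lt (fun t : Fin (k + 1) => x (Sum.inr (Fin.castSucc t)))
      rw [pow_succ]
      omega
    have hb := step_bits k _ hs (x (Sum.inl (Fin.last (k + 1)))) (x (Sum.inr (Fin.last (k + 1)))) i
    rw [num_succ (fun t => x (Sum.inl t)), num_succ (fun t => x (Sum.inr t))]
    have hre : num (fun t => x (Sum.inl (Fin.castSucc t))) + 2 ^ (k + 1) * (x (Sum.inl (Fin.last (k + 1)))).toNat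
        + (num (fun t => x (Sum.inr (Fin.castSucc t))) + 2 ^ (k + 1) * (x (Sum.inr (Fin.last (k + 1)))).toNat)
        = num (fun t => x (Sum.inl (Fin.castSucc t))) + num (fun t => x (Sum.inr (Fin.castSucc t)))
          + 2 ^ (k + 1) * (x (Sum.inl (Fin.last (k + 1)))).toNat
          + 2 ^ (k + 1) * (x (Sum.inr (Fin.last (k + 1)))).toNat := by ring
    rw [hre, hb]
    by_cases hi : (i : ℕ) < k + 2
    · by_cases hi' : (i : ℕ) = k + 1
      · have hlt : ¬ ((i : ℕ) < k + 1) := by omega
        simp [hi', Fin.last]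
      · have hlt : (i : ℕ) < k + 1 := by omega
        simp [hi, hi', hlt]
    · have hi2 : (i : ℕ) = k + 2 := by have := i.isLt; omega
      simp [hi2, Fin.last]

theorem tAdd : S_Add := by
  intro k
  rcases k with _ | k
  · have h : Cx (fun (x : Fin 0 ⊕ Fin 0 → Bool) (j : Fin 0) => x ((fun j => j.elim0 : Fin 0 → Fin 0 ⊕ Fin 0) j)) 0 :=
      Cx.proj _
    exact (h.congr fun x j => j.elim0).mono (Nat.zero_le _)
  · exact ((add_aux k).out Fin.castSucc).congr fun x j => by simp

end Pool.Agent.Lin
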