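import Pool.Agent.Lib.MP_76b24b_lcL.Spec

/-!
# MP_76b24b_lc, package L, module BA: the output blocks matched with bins
-/

set_option autoImplicit false

namespace Pool.Agent.Lin

open Finset

theorem tBA (h1 : S_Mat) (h2 : S_Gat) : S_BA := by
  obtain ⟨c, hc⟩ := h1
  refine ⟨16 * c + 34, fun η M K h hM hg => ?_⟩
  have hN : 0 < 2 ^ η := Nat.two_pow_pos η
  obtain ⟨F, hF, hFu⟩ := hc (2 ^ η) 16 M K h hN (by norm_num) hM hg
  have : Nonempty (Fin (2 ^ η)) := ⟨⟨0, hN⟩⟩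
  have hG := h2 (2 ^ η) 16 M (η + 1) h hN (by norm_num) (Nat.succ_pos η)
  have hC := Cx.consts (ι := Fin (2 ^ η)) (κ := Fin (2 ^ η) × Fin (η + 1))
    (fun p => (p.1 : ℕ).testBit p.2)
  have hP := (hF.pair hC).comp hG.keep
  have hO := hP.out (Sum.elim (fun p => Sum.inl (Sum.inl p)) (fun q => Sum.inr q) :
    (Fin (2 ^ η) × Fin 16) ⊕ (Fin M × Fin (η + 1)) →
      ((Fin (2 ^ η) × Fin 16) ⊕ (Fin (2 ^ η) × Fin (η + 1))) ⊕ (Fin M × Fin (η + 1)))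
  refine ⟨_, hO.mono ?_, fun u hu => ?_⟩
  · rw [Fintype.card_prod, Fintype.card_fin, Fintype.card_fin]
    have e1 : (2 * 16 * 2 ^ η + M) * (η + 1) ≤ (33 * 2 ^ η) * (η + 1) :=
      Nat.mul_le_mul_right _ (by omega)
    have e2 : 2 ^ η * (η + 1) ≤ 2 ^ η * (η + Nat.log 2 K + 1) :=
      Nat.mul_le_mul_left _ (by omega)
    have e3 : c * (16 * 2 ^ η * (Nat.log 2 K + 1)) ≤ 16 * c * (2 ^ η * (η + Nat.log 2 K + 1)) := by
      calc c * (16 * 2 ^ η * (Nat.log 2 K + 1)) = 16 * c * (2 ^ η * (Nat.log 2 K + 1)) := by ring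
        _ ≤ 16 * c * (2 ^ η * (η + Nat.log 2 K + 1)) :=
          Nat.mul_le_mul_left _ (Nat.mul_le_mul_left _ (by omega))
    calc c * (16 * 2 ^ η * (Nat.log 2 K + 1)) + 2 ^ η * (η + 1) + (2 * 16 * 2 ^ η + M) * (η + 1)
        ≤ 16 * c * (2 ^ η * (η + Nat.log 2 K + 1)) + 2 ^ η * (η + 1) +
          (33 * 2 ^ η) * (η + 1) := by omega
      _ = 16 * c * (2 ^ η * (η + Nat.log 2 K + 1)) + 34 * (2 ^ η * (η + 1)) := by ring
      _ ≤ 16 * c * (2 ^ η * (η + Nat.log 2 K + 1)) + 34 * (2 ^ η * (η + Nat.log 2 K + 1)) := by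
          omega
      _ = (16 * c + 34) * (2 ^ η * (η + Nat.log 2 K + 1)) := by ring
  · obtain ⟨g1, g2, g3⟩ := hFu u hu
    refine ⟨fun a t hat => ⟨g1 a t hat, fun τ => ?_⟩, g2⟩
    refine Bool.eq_iff_iff.2 ⟨fun hh => ?_, fun hh => ?_⟩
    · obtain ⟨i, t', e1, e2, e3⟩ := of_decide_eq_true hh
      have e3' : (i : ℕ).testBit τ = true := e3
      have : i = a := g3 i a t' t e2 hat e1
      rwa [this] at e3'
    · exact decide_eq_true ⟨a, t, rfl, hat, hh⟩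

end Pool.Agent.Lin
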