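import Pool.Agent.Lib.MP_76b24b_lcL.Spec

/-!
# MP_76b24b_lc, package L: the join
-/

set_option autoImplicit false

namespace Pool.Agent.Lin

open Finset

private theorem four_mul (μ : ℕ) : 2 ^ (μ + 2) = 4 * 2 ^ μ := by
  rw [pow_add]
  ring

/-- The records at the places `c * 2 ^ μ + q`, the bins at the places `2 * 2 ^ μ + q`. -/
private def src (β L μ : ℕ) (p : Fin (2 ^ (μ + 2)) × (Fin L ⊕ Fin (2 ^ β))) :
    (((Fin 2 × Fin (2 ^ μ)) × (Fin L ⊕ Fin (2 ^ β))) ⊕ (Fin (2 ^ μ) × Fin L)) ⊕ Unit :=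
  if h : (p.1 : ℕ) / 2 ^ μ < 2 then
    Sum.inl (Sum.inl ((⟨(p.1 : ℕ) / 2 ^ μ, h⟩,
      ⟨(p.1 : ℕ) % 2 ^ μ, Nat.mod_lt _ (Nat.two_pow_pos μ)⟩), p.2))
  else if (p.1 : ℕ) / 2 ^ μ = 2 then
    match p.2 with
    | Sum.inl t => Sum.inl (Sum.inr (⟨(p.1 : ℕ) % 2 ^ μ, Nat.mod_lt _ (Nat.two_pow_pos μ)⟩, t))
    | Sum.inr _ => Sum.inr ()
  else Sum.inr ()

/-- The place of the record `r`. -/
private def plc (μ : ℕ) (r : Fin 2 × Fin (2 ^ μ)) : Fin (2 ^ (μ + 2)) :=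
  ⟨(r.1 : ℕ) * 2 ^ μ + r.2, by
    have h1 := r.1.isLt
    have h2 := r.2.isLt
    rw [four_mul]
    nlinarith⟩

/-- The place of the bin `q`. -/
private def bin (μ : ℕ) (q : Fin (2 ^ μ)) : Fin (2 ^ (μ + 2)) :=
  ⟨2 * 2 ^ μ + q, by
    have h2 := q.isLt
    rw [four_mul]
    omega⟩

private theorem div_bin (μ q : ℕ) (c : ℕ) (h : q < 2 ^ μ) : (c * 2 ^ μ + q) / 2 ^ μ = c := by
  rw [mul_comm, Nat.mul_add_div (Nat.two_pow_pos μ), Nat.div_eq_of_lt h, add_zero]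

private theorem mod_bin (μ q : ℕ) (c : ℕ) (h : q < 2 ^ μ) : (c * 2 ^ μ + q) % 2 ^ μ = q := by
  rw [mul_comm, Nat.mul_add_mod, Nat.mod_eq_of_lt h]

private theorem src_plc (β L μ : ℕ) (r : Fin 2 × Fin (2 ^ μ)) (e : Fin L ⊕ Fin (2 ^ β)) :
    src β L μ (plc μ r, e) = Sum.inl (Sum.inl (r, e)) := by
  have h1 : ((plc μ r : Fin (2 ^ (μ + 2))) : ℕ) / 2 ^ μ = r.1 := div_bin μ r.2 r.1 r.2.isLt
  have h2 : ((plc μ r : Fin (2 ^ (μ + 2))) : ℕ) % 2 ^ μ = r.2 := mod_bin μ r.2 r.1 r.2.isLt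
  unfold src
  rw [dif_pos (by rw [h1]; exact r.1.isLt)]
  simp only [h1, h2]

private theorem src_bin_inl (β L μ : ℕ) (q : Fin (2 ^ μ)) (t : Fin L) :
    src β L μ (bin μ q, Sum.inl t) = Sum.inl (Sum.inr (q, t)) := by
  have h1 : ((bin μ q : Fin (2 ^ (μ + 2))) : ℕ) / 2 ^ μ = 2 := div_bin μ q 2 q.isLt
  have h2 : ((bin μ q : Fin (2 ^ (μ + 2))) : ℕ) % 2 ^ μ = q := mod_bin μ q 2 q.isLt
  unfold src
  rw [dif_neg (by rw [h1]; exact lt_irrefl 2), if_pos h1]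
  simp only [h2]

private theorem src_inr (β L μ : ℕ) (i : Fin (2 ^ (μ + 2))) (e : Fin (2 ^ β))
    (h : ¬ (i : ℕ) / 2 ^ μ < 2) : src β L μ (i, Sum.inr e) = Sum.inr () := by
  unfold src
  rw [dif_neg h]
  split_ifs <;> rfl

private theorem plc_of (μ : ℕ) (i : Fin (2 ^ (μ + 2))) (h : (i : ℕ) / 2 ^ μ < 2) :
    ∃ r, i = plc μ r := by
  refine ⟨(⟨(i : ℕ) / 2 ^ μ, h⟩, ⟨(i : ℕ) % 2 ^ μ, Nat.mod_lt _ (Nat.two_pow_pos μ)⟩), ?_⟩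
  apply Fin.ext
  change (i : ℕ) = (i : ℕ) / 2 ^ μ * 2 ^ μ + (i : ℕ) % 2 ^ μ
  rw [mul_comm, Nat.div_add_mod]

theorem tBB (h : S_KeyOr) : S_BB := by
  obtain ⟨c, hc⟩ := h
  refine ⟨108 * c + 1, fun β L μ => ?_⟩
  have h1 := hc (μ + 2) L (2 ^ β) (Nat.two_pow_pos β)
  have hne : Nonempty ((((Fin 2 × Fin (2 ^ μ)) × (Fin L ⊕ Fin (2 ^ β))) ⊕
      (Fin (2 ^ μ) × Fin L))) :=
    ⟨Sum.inl ((0, ⟨0, Nat.two_pow_pos μ⟩), Sum.inr ⟨0, Nat.two_pow_pos β⟩)⟩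
  have h2 := ((Cx.const (ι := ((((Fin 2 × Fin (2 ^ μ)) × (Fin L ⊕ Fin (2 ^ β))) ⊕
      (Fin (2 ^ μ) × Fin L)))) false).keep.out (src β L μ)).comp h1
  have h3 := h2.out (fun p : Fin (2 ^ μ) × Fin (2 ^ β) => (bin μ p.1, p.2))
  refine (h3.mono ?_).congr fun x p => ?_
  · obtain ⟨X, hX⟩ : ∃ X, X = (μ + L + 1) * (μ + L + 2 ^ β) * (μ + 1) * 2 ^ μ := ⟨_, rfl⟩
    have hb : 1 ≤ 2 ^ β := Nat.one_le_two_pow
    have hm : 1 ≤ 2 ^ μ := Nat.one_le_two_pow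
    have hX1 : 1 ≤ X := by
      rw [hX]
      have h4 : 1 * 1 * 1 * 1 ≤ (μ + L + 1) * (μ + L + 2 ^ β) * (μ + 1) * 2 ^ μ :=
        Nat.mul_le_mul (Nat.mul_le_mul (Nat.mul_le_mul (by omega) (by omega)) (by omega)) hm
      simpa using h4
    have hle : (μ + 2 + L + 1) * (μ + 2 + L + 2 ^ β) * (μ + 2 + 1) * 2 ^ (μ + 2) ≤ 108 * X := by
      rw [hX, four_mul]
      calc (μ + 2 + L + 1) * (μ + 2 + L + 2 ^ β) * (μ + 2 + 1) * (4 * 2 ^ μ)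
          ≤ (3 * (μ + L + 1)) * (3 * (μ + L + 2 ^ β)) * (3 * (μ + 1)) * (4 * 2 ^ μ) :=
            Nat.mul_le_mul_right _ (Nat.mul_le_mul (Nat.mul_le_mul (by omega) (by omega)) (by omega))
        _ = 108 * ((μ + L + 1) * (μ + L + 2 ^ β) * (μ + 1) * 2 ^ μ) := by ring
    rw [← hX]
    calc 1 + c * ((μ + 2 + L + 1) * (μ + 2 + L + 2 ^ β) * (μ + 2 + 1) * 2 ^ (μ + 2))
        ≤ X + c * (108 * X) := Nat.add_le_add hX1 (Nat.mul_le_mul_left c hle)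
      _ = (108 * c + 1) * X := by ring
  · rw [decide_eq_decide]
    dsimp only
    constructor
    · rintro ⟨i', -, hk, hv⟩
      by_cases hi : (i' : ℕ) / 2 ^ μ < 2
      · obtain ⟨r, rfl⟩ := plc_of μ i' hi
        refine ⟨r, fun t => ?_, ?_⟩
        · have h4 := hk t
          rw [src_plc, src_bin_inl] at h4
          exact h4
        · rw [src_plc] at hv
          exact hv
      · rw [src_inr β L μ i' p.2 hi] at hv
        exact absurd hv (by simp)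
    · rintro ⟨r, hk, hv⟩
      refine ⟨plc μ r, ?_, fun t => ?_, ?_⟩
      · rw [Fin.le_def]
        change (r.1 : ℕ) * 2 ^ μ + r.2 ≤ 2 * 2 ^ μ + p.1
        have h4 := r.1.isLt
        have h5 := r.2.isLt
        nlinarith [Nat.two_pow_pos μ]
      · rw [src_plc, src_bin_inl]
        exact hk t
      · rw [src_plc]
        exact hv

end Pool.Agent.Lin
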