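import Pool.Agent.Lib.MP_76b24b_lcL.Spec

/-!
# MP_76b24b_lc, package L: module Back
-/

set_option autoImplicit false

namespace Pool.Agent.Lin

open Finset

private theorem back_size (cA cB β η μ l : ℕ) (hμ : μ ≤ η) :
    cA * (2 ^ η * (η + l + 1)) + (cA * (2 ^ η * (η + l + 1)) +
      cB * ((μ + (η + 1) + 1) * (μ + (η + 1) + 2 ^ β) * (μ + 1) * 2 ^ μ)) +
      (2 * 16 + 1) * 2 ^ η * 2 ^ β ≤
    (2 * cA + 4 * cB + 33) * (2 ^ η * (2 ^ β + η + l + 1) + 2 ^ μ * (η + 2 ^ β + 1) ^ 3) := by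
  have hb0 : 0 < 2 ^ β := by positivity
  have h1 : 2 ^ η * (η + l + 1) ≤ 2 ^ η * (2 ^ β + η + l + 1) :=
    Nat.mul_le_mul_left _ (by omega)
  have h2 : 2 ^ η * 2 ^ β ≤ 2 ^ η * (2 ^ β + η + l + 1) := Nat.mul_le_mul_left _ (by omega)
  have h3 : (μ + (η + 1) + 1) * (μ + (η + 1) + 2 ^ β) * (μ + 1) * 2 ^ μ ≤
      4 * (2 ^ μ * (η + 2 ^ β + 1) ^ 3) := by
    have hb : 0 < 2 ^ β := by positivity
    calc (μ + (η + 1) + 1) * (μ + (η + 1) + 2 ^ β) * (μ + 1) * 2 ^ μ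
        ≤ (2 * (η + 2 ^ β + 1)) * (2 * (η + 2 ^ β + 1)) * (η + 2 ^ β + 1) * 2 ^ μ := by
          refine Nat.mul_le_mul_right _ (Nat.mul_le_mul (Nat.mul_le_mul ?_ ?_) ?_) <;> omega
      _ = 4 * (2 ^ μ * (η + 2 ^ β + 1) ^ 3) := by ring
  have h4 := Nat.mul_le_mul_left cA h1
  have h5 := Nat.mul_le_mul_left cB h3
  obtain ⟨A, hA⟩ : ∃ A, A = 2 ^ η * (2 ^ β + η + l + 1) := ⟨_, rfl⟩
  obtain ⟨B, hB⟩ : ∃ B, B = 2 ^ μ * (η + 2 ^ β + 1) ^ 3 := ⟨_, rfl⟩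
  rw [← hA] at h2 h4 ⊢
  rw [← hB] at h5 ⊢
  have h6 : (2 * cA + 4 * cB + 33) * (A + B) =
      2 * (cA * A) + cB * (4 * B) + 33 * A + (2 * (cA * B) + 4 * (cB * A) + 33 * B) := by ring
  rw [h6]
  have h7 : (2 * 16 + 1) * 2 ^ η * 2 ^ β = 33 * (2 ^ η * 2 ^ β) := by ring
  rw [h7]
  omega

theorem tBack (h1 : S_BA) (h2 : S_BB) (h3 : S_Sca) : S_Back := by
  obtain ⟨cA, hA⟩ := h1
  obtain ⟨cB, hB⟩ := h2
  refine ⟨2 * cA + 4 * cB + 33, ?_⟩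
  intro β η μ K h hμ hG
  obtain ⟨FA, hFA, hFA'⟩ := hA η (2 ^ μ) K h (Nat.pow_le_pow_right (by norm_num) hμ) hG
  have hS1 := hFA.inp (Sum.inr : Fin (2 ^ η) →
    ((Fin 2 × Fin (2 ^ μ)) × (Fin (η + 1) ⊕ Fin (2 ^ β))) ⊕ Fin (2 ^ η))
  have hG2 := (hB β (η + 1) μ).inp
    (Sum.elim (fun z => Sum.inl (Sum.inl z)) (fun w => Sum.inr (Sum.inr w)) :
      ((Fin 2 × Fin (2 ^ μ)) × (Fin (η + 1) ⊕ Fin (2 ^ β))) ⊕ (Fin (2 ^ μ) × Fin (η + 1)) →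
      (((Fin 2 × Fin (2 ^ μ)) × (Fin (η + 1) ⊕ Fin (2 ^ β))) ⊕ Fin (2 ^ η)) ⊕
      ((Fin (2 ^ η) × Fin 16) ⊕ (Fin (2 ^ μ) × Fin (η + 1))))
  have hS2 := hS1.ext hG2
  have hS12 := hS1.pair hS2
  have hG3 := (h3 (2 ^ η) 16 (2 ^ μ) (2 ^ β) h (by positivity) (by norm_num)).inp
    (Sum.elim (fun p => Sum.inl (Sum.inl p)) (fun p => Sum.inr p) :
      (Fin (2 ^ η) × Fin 16) ⊕ (Fin (2 ^ μ) × Fin (2 ^ β)) →
      ((Fin (2 ^ η) × Fin 16) ⊕ (Fin (2 ^ μ) × Fin (η + 1))) ⊕ (Fin (2 ^ μ) × Fin (2 ^ β)))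
  have hF := hS12.comp hG3
  refine ⟨_, hF.mono (back_size cA cB β η μ (Nat.log 2 K) hμ), ?_⟩
  intro x hx a e
  obtain ⟨hp1, hp2⟩ := hFA' (fun a => x (Sum.inr a)) hx
  rw [Bool.eq_iff_iff]
  constructor
  · intro hh
    obtain ⟨t, ht, hh2⟩ := of_decide_eq_true hh
    obtain ⟨r, hr, he⟩ := of_decide_eq_true hh2
    obtain ⟨hu, hτ⟩ := hp1 a t ht
    exact decide_eq_true ⟨hu, r, fun t' => (hr t').trans (hτ t'), he⟩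
  · intro hh
    obtain ⟨hu, r, hr, he⟩ := of_decide_eq_true hh
    obtain ⟨t, ht⟩ := hp2 a hu
    obtain ⟨-, hτ⟩ := hp1 a t ht
    exact decide_eq_true ⟨t, ht, decide_eq_true ⟨r, fun t' => (hr t').trans (hτ t').symm, he⟩⟩

end Pool.Agent.Lin
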