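import Mathlib

/-!
# MP_76b24b_lc, package L (linear circuits): circuits and their closure properties

`Circ F s`: the function `F : (ι → Bool) → κ → Bool` is computed by a circuit with `s` binary gates (the
format of the frozen statement). `Cx F s`: at most `s` gates.
-/

set_option autoImplicit false

namespace Pool.Agent.Lin

/-- `F` is computed by a circuit with exactly `s` binary gates (format of the frozen statement). -/
def Circ {ι κ : Type} (F : (ι → Bool) → κ → Bool) (s : ℕ) : Prop :=
  ∃ (op : Fin s → Bool → Bool → Bool) (l r : Fin s → ι ⊕ Fin s) (out : κ → ι ⊕ Fin s),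
    (∀ g h : Fin s, l g = Sum.inr h → h < g) ∧ (∀ g h : Fin s, r g = Sum.inr h → h < g) ∧
    ∀ (x : ι → Bool) (v : ι ⊕ Fin s → Bool), (∀ i, v (Sum.inl i) = x i) →
      (∀ g : Fin s, v (Sum.inr g) = op g (v (l g)) (v (r g))) → ∀ j, v (out j) = F x j

/-- `F` is computed by a circuit with at most `s` gates. -/
def Cx {ι κ : Type} (F : (ι → Bool) → κ → Bool) (s : ℕ) : Prop := ∃ t ≤ s, Circ F t

section Base

variable {ι κ ι' κ' τ : Type}

theorem Cx.mono {F : (ι → Bool) → κ → Bool} {s t : ℕ} (h : Cx F s) (hst : s ≤ t) : Cx F t := by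
  obtain ⟨u, hu, hc⟩ := h
  exact ⟨u, hu.trans hst, hc⟩

theorem Cx.congr {F G : (ι → Bool) → κ → Bool} {s : ℕ} (h : Cx F s) (he : ∀ x j, F x j = G x j) :
    Cx G s := by
  have : F = G := funext fun x => funext fun j => he x j
  rwa [← this]

/-- Projections are free. -/
theorem Cx.proj (ρ : κ → ι) : Cx (fun (x : ι → Bool) j => x (ρ j)) 0 :=
  ⟨0, le_rfl, fun g => g.elim0, fun g => g.elim0, fun g => g.elim0, fun j => Sum.inl (ρ j),
    fun g => g.elim0, fun g => g.elim0, fun _ _ hx _ j => hx (ρ j)⟩

/-- Renaming of the outputs. -/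
theorem Cx.out {F : (ι → Bool) → κ → Bool} {s : ℕ} (h : Cx F s) (ρ : κ' → κ) :
    Cx (fun x j => F x (ρ j)) s := by
  obtain ⟨u, hu, op, l, r, out, h1, h2, h3⟩ := h
  exact ⟨u, hu, op, l, r, fun j => out (ρ j), h1, h2, fun x v hx hv j => h3 x v hx hv (ρ j)⟩

private theorem circ_comp {F : (ι → Bool) → κ → Bool} {G : (κ → Bool) → τ → Bool} {s t : ℕ}
    (hF : Circ F s) (hG : Circ G t) : Circ (fun x => G (F x)) (s + t) := by
  obtain ⟨op, l, r, out, h1, h2, h3⟩ := hF
  obtain ⟨op', l', r', out', h1', h2', h3'⟩ := hG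
  let e : ι ⊕ Fin s → ι ⊕ Fin (s + t) := Sum.map id (Fin.castAdd t)
  let e' : κ ⊕ Fin t → ι ⊕ Fin (s + t) := Sum.elim (fun j => e (out j)) (fun g => Sum.inr (Fin.natAdd s g))
  refine ⟨Fin.addCases op op', Fin.addCases (fun g => e (l g)) (fun g => e' (l' g)),
    Fin.addCases (fun g => e (r g)) (fun g => e' (r' g)), fun j => e' (out' j), ?_, ?_, ?_⟩
  · have key : ∀ (l : Fin s → ι ⊕ Fin s) (l' : Fin t → κ ⊕ Fin t),
        (∀ g h : Fin s, l g = Sum.inr h → h < g) → (∀ g h : Fin t, l' g = Sum.inr h → h < g) →
        ∀ g h : Fin (s + t), Fin.addCases (motive := fun _ => ι ⊕ Fin (s + t))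
          (fun g => e (l g)) (fun g => e' (l' g)) g = Sum.inr h → h < g := by
      intro l l' h1 h1' g
      refine Fin.addCases (fun g h => ?_) (fun g h => ?_) g
      · rw [Fin.addCases_left]
        intro hh
        rcases hl : l g with i | g'
        · rw [hl] at hh
          simp [e] at hh
        · rw [hl] at hh
          simp only [e, Sum.map_inr, Sum.inr.injEq] at hh
          rw [← hh]
          have := h1 g g' hl
          rw [Fin.lt_def] at this ⊢
          simpa using this
      · rw [Fin.addCases_right]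
        intro hh
        rcases hl : l' g with j | g'
        · rw [hl] at hh
          simp only [e', Sum.elim_inl] at hh
          rcases ho : out j with i | g''
          · rw [ho] at hh
            simp [e] at hh
          · rw [ho] at hh
            simp only [e, Sum.map_inr, Sum.inr.injEq] at hh
            rw [← hh, Fin.lt_def]
            simp only [Fin.val_castAdd, Fin.val_natAdd]
            have := g''.isLt
            omega
        · rw [hl] at hh
          simp only [e', Sum.elim_inr, Sum.inr.injEq] at hh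
          rw [← hh]
          have := h1' g g' hl
          rw [Fin.lt_def] at this ⊢
          simpa using this
    exact key l l' h1 h1'
  · have key : ∀ (l : Fin s → ι ⊕ Fin s) (l' : Fin t → κ ⊕ Fin t),
        (∀ g h : Fin s, l g = Sum.inr h → h < g) → (∀ g h : Fin t, l' g = Sum.inr h → h < g) →
        ∀ g h : Fin (s + t), Fin.addCases (motive := fun _ => ι ⊕ Fin (s + t))
          (fun g => e (l g)) (fun g => e' (l' g)) g = Sum.inr h → h < g := by
      intro l l' h1 h1' g
      refine Fin.addCases (fun g h => ?_) (fun g h => ?_) g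
      · rw [Fin.addCases_left]
        intro hh
        rcases hl : l g with i | g'
        · rw [hl] at hh
          simp [e] at hh
        · rw [hl] at hh
          simp only [e, Sum.map_inr, Sum.inr.injEq] at hh
          rw [← hh]
          have := h1 g g' hl
          rw [Fin.lt_def] at this ⊢
          simpa using this
      · rw [Fin.addCases_right]
        intro hh
        rcases hl : l' g with j | g'
        · rw [hl] at hh
          simp only [e', Sum.elim_inl] at hh
          rcases ho : out j with i | g''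
          · rw [ho] at hh
            simp [e] at hh
          · rw [ho] at hh
            simp only [e, Sum.map_inr, Sum.inr.injEq] at hh
            rw [← hh, Fin.lt_def]
            simp only [Fin.val_castAdd, Fin.val_natAdd]
            have := g''.isLt
            omega
        · rw [hl] at hh
          simp only [e', Sum.elim_inr, Sum.inr.injEq] at hh
          rw [← hh]
          have := h1' g g' hl
          rw [Fin.lt_def] at this ⊢
          simpa using this
    exact key r r' h2 h2'
  · intro x v hx hv j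
    have hvF : ∀ j, v (e (out j)) = F x j := by
      refine h3 x (fun p => v (e p)) (fun i => hx i) (fun g => ?_)
      have := hv (Fin.castAdd t g)
      simp only [Fin.addCases_left] at this
      exact this
    refine h3' (F x) (fun p => v (e' p)) (fun j => hvF j) (fun g => ?_) j
    have := hv (Fin.natAdd s g)
    simp only [Fin.addCases_right] at this
    exact this

/-- Composition. -/
theorem Cx.comp {F : (ι → Bool) → κ → Bool} {G : (κ → Bool) → τ → Bool} {s t : ℕ}
    (hF : Cx F s) (hG : Cx G t) : Cx (fun x => G (F x)) (s + t) := by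
  obtain ⟨u, hu, hF⟩ := hF
  obtain ⟨w, hw, hG⟩ := hG
  exact ⟨u + w, Nat.add_le_add hu hw, circ_comp hF hG⟩

/-- Renaming of the inputs. -/
theorem Cx.inp {F : (ι → Bool) → κ → Bool} {s : ℕ} (h : Cx F s) (ρ : ι → ι') :
    Cx (fun (x : ι' → Bool) => F (fun i => x (ρ i))) s := by
  have := (Cx.proj ρ).comp h
  rwa [Nat.zero_add] at this

/-- The inputs can be kept. -/
theorem Cx.keep {F : (ι → Bool) → κ → Bool} {s : ℕ} (h : Cx F s) :
    Cx (fun x => Sum.elim x (F x)) s := by
  obtain ⟨u, hu, op, l, r, out, h1, h2, h3⟩ := h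
  refine ⟨u, hu, op, l, r, Sum.elim Sum.inl out, h1, h2, fun x v hx hv j => ?_⟩
  rcases j with j | j
  · exact hx j
  · exact h3 x v hx hv j

/-- Two circuits with the same inputs. -/
theorem Cx.pair {F : (ι → Bool) → κ → Bool} {G : (ι → Bool) → κ' → Bool} {s t : ℕ}
    (hF : Cx F s) (hG : Cx G t) : Cx (fun x => Sum.elim (F x) (G x)) (s + t) := by
  have h1 : Cx (fun (y : ι ⊕ κ → Bool) => Sum.elim y (G fun i => y (Sum.inl i))) t :=
    (hG.inp (Sum.inl : ι → ι ⊕ κ)).keep
  have h2 := hF.keep.comp h1
  have h3 := h2.out (Sum.elim (fun j => Sum.inl (Sum.inr j)) (fun j => Sum.inr j) :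
    κ ⊕ κ' → (ι ⊕ κ) ⊕ κ')
  refine h3.congr fun x j => ?_
  rcases j with j | j <;> rfl

/-- One gate. -/
theorem Cx.gate (op : Bool → Bool → Bool) (a b : ι) :
    Cx (fun (x : ι → Bool) (_ : Unit) => op (x a) (x b)) 1 := by
  refine ⟨1, le_rfl, fun _ => op, fun _ => Sum.inl a, fun _ => Sum.inl b, fun _ => Sum.inr 0,
    fun g h hh => by simp at hh, fun g h hh => by simp at hh, fun x v hx hv j => ?_⟩
  rw [hv 0, hx, hx]

/-- A finite family of circuits with the same inputs. -/
theorem Cx.fam {α : Type} [Fintype α] (F : α → (ι → Bool) → κ → Bool) (s : α → ℕ)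
    (h : ∀ a, Cx (F a) (s a)) : Cx (fun x (p : α × κ) => F p.1 x p.2) (∑ a, s a) := by
  classical
  have key : ∀ A : Finset α, Cx (fun x (p : {a // a ∈ A} × κ) => F p.1 x p.2) (∑ a ∈ A, s a) := by
    intro A
    induction A using Finset.induction_on with
    | empty =>
      refine ⟨0, by simp, fun g => g.elim0, fun g => g.elim0, fun g => g.elim0,
        fun p => absurd p.1.2 (Finset.notMem_empty _), fun g => g.elim0, fun g => g.elim0,
        fun _ _ _ _ p => absurd p.1.2 (Finset.notMem_empty _)⟩
    | insert a A ha ih =>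
      rw [Finset.sum_insert ha]
      have h1 := (h a).pair ih
      have h2 := h1.out (fun p : {a' // a' ∈ insert a A} × κ =>
        if hp : p.1.1 = a then (Sum.inl p.2 : κ ⊕ ({a // a ∈ A} × κ))
        else Sum.inr (⟨p.1.1, (Finset.mem_insert.1 p.1.2).resolve_left hp⟩, p.2))
      refine h2.congr fun x p => ?_
      by_cases hp : p.1.1 = a
      · simp only [hp, dif_pos, Sum.elim_inl]
      · simp only [hp, dif_neg, not_false_eq_true, Sum.elim_inr]
  have h1 := (key Finset.univ).out (fun p : α × κ => ((⟨p.1, Finset.mem_univ _⟩, p.2) :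
    {a // a ∈ (Finset.univ : Finset α)} × κ))
  exact h1

/-- A finite family of circuits, each with its own block of inputs. -/
theorem Cx.blocks {α : Type} [Fintype α] {F : (ι → Bool) → κ → Bool} {s : ℕ} (h : Cx F s) :
    Cx (fun (x : α × ι → Bool) (p : α × κ) => F (fun i => x (p.1, i)) p.2)
      (Fintype.card α * s) := by
  have h1 := Cx.fam (fun (a : α) (x : α × ι → Bool) => F (fun i => x (a, i))) (fun _ => s)
    (fun a => h.inp (fun i => (a, i)))
  rwa [Finset.sum_const, smul_eq_mul, Finset.card_univ] at h1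

/-- One gate for each output. -/
theorem Cx.layer [Fintype κ] (op : κ → Bool → Bool → Bool) (a b : κ → ι) :
    Cx (fun (x : ι → Bool) j => op j (x (a j)) (x (b j))) (Fintype.card κ) := by
  have h1 := Cx.fam (fun (j : κ) (x : ι → Bool) (_ : Unit) => op j (x (a j)) (x (b j)))
    (fun _ => 1) (fun j => Cx.gate (op j) (a j) (b j))
  rw [Finset.sum_const, smul_eq_mul, Finset.card_univ, mul_one] at h1
  exact h1.out (fun j => (j, ()))

/-- A constant. -/
theorem Cx.const [Nonempty ι] (c : Bool) : Cx (fun (_ : ι → Bool) (_ : Unit) => c) 1 := by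
  obtain ⟨a⟩ := ‹Nonempty ι›
  exact Cx.gate (fun _ _ => c) a a

/-- Constants. -/
theorem Cx.consts [Nonempty ι] [Fintype κ] (c : κ → Bool) :
    Cx (fun (_ : ι → Bool) (j : κ) => c j) (Fintype.card κ) := by
  obtain ⟨a⟩ := ‹Nonempty ι›
  exact Cx.layer (fun j _ _ => c j) (fun _ => a) (fun _ => a)

/-- If `S` has been computed, `G` can be applied to the inputs and to `S`. -/
theorem Cx.ext {S : (ι → Bool) → κ → Bool} {G : (ι ⊕ κ → Bool) → τ → Bool} {s t : ℕ}
    (hS : Cx S s) (hG : Cx G t) : Cx (fun x => G (Sum.elim x (S x))) (s + t) :=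
  hS.keep.comp hG

end Base

end Pool.Agent.Lin
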