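import Pool.Agent.Lib.MP_76b24b_lcL.Spec

/-!
# MP_76b24b_lc, package L: the changes determine the payload
-/

set_option autoImplicit false

namespace Pool.Agent.Lin

open Finset

private theorem cmp_iff {α : Type} [Fintype α] (pos : α → ℕ) (P Q : α → Bool) (j : ℕ) :
    cmp pos P Q j = true ↔ ∃ a, P a = true ∧ Q a = true ∧ rk pos P (pos a) = j := by
  unfold cmp
  exact decide_eq_true_iff

private theorem rk_lt' {n : ℕ} (P : Fin n → Bool) {a b : Fin n} (h : a < b) (hP : P a = true) :
    rk Fin.val P (a : ℕ) < rk Fin.val P (b : ℕ) := by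
  unfold rk
  refine Finset.card_lt_card ((Finset.ssubset_iff_of_subset fun c hc => ?_).2 ⟨a, ?_, ?_⟩)
  · rw [Finset.mem_filter] at hc ⊢
    exact ⟨hc.1, lt_trans hc.2.1 h, hc.2.2⟩
  · rw [Finset.mem_filter]
    exact ⟨Finset.mem_univ _, h, hP⟩
  · rw [Finset.mem_filter]
    exact fun hc => lt_irrefl _ hc.2.1

private theorem rk_ltn {n : ℕ} (P : Fin n → Bool) (a : Fin n) : rk Fin.val P (a : ℕ) < n := by
  unfold rk
  have h1 : a ∉ univ.filter fun b : Fin n => (b : ℕ) < a ∧ P b = true := by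
    rw [Finset.mem_filter]
    exact fun hc => lt_irrefl _ hc.2.1
  have h2 := Finset.card_lt_univ_of_notMem h1
  rwa [Fintype.card_fin] at h2

/-- The last letter before `q` which is not `2` is `1`. -/
private def Lq {n : ℕ} (x : Fin n → Fin 3) (q : ℕ) : Prop :=
  ∃ i' : Fin n, (i' : ℕ) < q ∧ x i' = 1 ∧ ∀ l : Fin n, i' < l → (l : ℕ) < q → x l = 2

/-- The number of the changes before `q`. -/
private def Cq {n : ℕ} (x : Fin n → Fin 3) (q : ℕ) : ℕ :=
  (univ.filter fun a : Fin n => (a : ℕ) < q ∧ chg x a = true).card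

private theorem chg_iff {n : ℕ} (x : Fin n → Fin 3) (i : Fin n) :
    chg x i = true ↔ x i ≠ 2 ∧ (x i = 1 ↔ ¬ Lq x i) := by
  unfold chg
  rw [Bool.and_eq_true, decide_eq_true_iff]
  refine and_congr_right fun _ => ?_
  have h1 : ∀ p q : Prop, ∀ [Decidable p] [Decidable q],
      ((decide p ^^ decide q) = true ↔ (p ↔ ¬ q)) := by
    intro p q _ _
    by_cases hp : p <;> by_cases hq : q <;> simp [hp, hq]
  exact h1 _ _

private theorem Lq_two {n : ℕ} (x : Fin n → Fin 3) {q : ℕ} (hq : q < n) (h : x ⟨q, hq⟩ = 2) :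
    Lq x (q + 1) ↔ Lq x q := by
  constructor
  · rintro ⟨i', h1, h2, h3⟩
    have h4 : (i' : ℕ) ≠ q := by
      intro h4
      have h5 : i' = ⟨q, hq⟩ := Fin.ext h4
      rw [h5, h] at h2
      exact absurd h2 (by decide)
    exact ⟨i', by omega, h2, fun l hl hlq => h3 l hl (by omega)⟩
  · rintro ⟨i', h1, h2, h3⟩
    refine ⟨i', by omega, h2, fun l hl hlq => ?_⟩
    by_cases h4 : (l : ℕ) = q
    · have h5 : l = ⟨q, hq⟩ := Fin.ext h4
      rw [h5, h]
    · exact h3 l hl (by omega)

private theorem Lq_ne {n : ℕ} (x : Fin n → Fin 3) {q : ℕ} (hq : q < n) (h : x ⟨q, hq⟩ ≠ 2) :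
    Lq x (q + 1) ↔ x ⟨q, hq⟩ = 1 := by
  constructor
  · rintro ⟨i', h1, h2, h3⟩
    by_cases h4 : (i' : ℕ) = q
    · have h5 : i' = ⟨q, hq⟩ := Fin.ext h4
      rwa [h5] at h2
    · exfalso
      refine h (h3 ⟨q, hq⟩ ?_ (Nat.lt_succ_self q))
      rw [Fin.lt_def]
      change (i' : ℕ) < q
      omega
  · intro h1
    refine ⟨⟨q, hq⟩, Nat.lt_succ_self q, h1, fun l hl hlq => ?_⟩
    rw [Fin.lt_def] at hl
    change q < (l : ℕ) at hl
    omega

private theorem Cq_succ {n : ℕ} (x : Fin n → Fin 3) {q : ℕ} (hq : q < n) :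
    Cq x (q + 1) = Cq x q + if chg x ⟨q, hq⟩ = true then 1 else 0 := by
  unfold Cq
  split_ifs with hc
  · have h1 : (univ.filter fun a : Fin n => (a : ℕ) < q + 1 ∧ chg x a = true) =
        insert (⟨q, hq⟩ : Fin n) (univ.filter fun a : Fin n => (a : ℕ) < q ∧ chg x a = true) := by
      ext a
      rw [Finset.mem_insert, Finset.mem_filter, Finset.mem_filter]
      constructor
      · rintro ⟨_, h2, h3⟩
        by_cases h4 : (a : ℕ) = q
        · exact Or.inl (Fin.ext h4)
        · exact Or.inr ⟨Finset.mem_univ _, by omega, h3⟩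
      · rintro (rfl | ⟨_, h2, h3⟩)
        · exact ⟨Finset.mem_univ _, Nat.lt_succ_self q, hc⟩
        · exact ⟨Finset.mem_univ _, by omega, h3⟩
    rw [h1, Finset.card_insert_of_notMem]
    rw [Finset.mem_filter]
    exact fun h => lt_irrefl _ h.2.1
  · rw [add_zero]
    congr 1
    ext a
    rw [Finset.mem_filter, Finset.mem_filter]
    constructor
    · rintro ⟨_, h2, h3⟩
      refine ⟨Finset.mem_univ _, ?_, h3⟩
      by_contra h4
      have h5 : a = ⟨q, hq⟩ := Fin.ext (show (a : ℕ) = q by omega)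
      rw [h5] at h3
      exact hc h3
    · rintro ⟨_, h2, h3⟩
      exact ⟨Finset.mem_univ _, by omega, h3⟩

private theorem parity {n : ℕ} (x : Fin n → Fin 3) : ∀ q ≤ n, (Cq x q % 2 = 1 ↔ Lq x q) := by
  intro q
  induction q with
  | zero =>
    intro _
    constructor
    · intro h
      have h1 : Cq x 0 = 0 := by
        unfold Cq
        rw [Finset.card_eq_zero, Finset.filter_eq_empty_iff]
        exact fun a _ h => Nat.not_lt_zero _ h.1
      rw [h1] at h
      exact absurd h (by decide)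
    · rintro ⟨i', h, _⟩
      exact absurd h (Nat.not_lt_zero _)
  | succ q ih =>
    intro hq
    have hq' : q < n := hq
    have ih' := ih hq'.le
    rw [Cq_succ x hq']
    by_cases h : x ⟨q, hq'⟩ = 2
    · have h1 : ¬ chg x ⟨q, hq'⟩ = true := fun h1 => ((chg_iff x _).1 h1).1 h
      rw [if_neg h1, add_zero, Lq_two x hq' h]
      exact ih'
    · rw [Lq_ne x hq' h]
      have h2 : chg x ⟨q, hq'⟩ = true ↔ (x ⟨q, hq'⟩ = 1 ↔ ¬ Lq x q) :=
        (chg_iff x _).trans (and_iff_right h)
      by_cases h3 : x ⟨q, hq'⟩ = 1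
      · by_cases h4 : Lq x q
        · have h5 : ¬ chg x ⟨q, hq'⟩ = true := fun h5 => ((h2.1 h5).1 h3) h4
          rw [if_neg h5, add_zero]
          exact ⟨fun _ => h3, fun _ => ih'.2 h4⟩
        · have h5 : chg x ⟨q, hq'⟩ = true := h2.2 ⟨fun _ => h4, fun _ => h3⟩
          have h6 : ¬ Cq x q % 2 = 1 := fun h6 => h4 (ih'.1 h6)
          rw [if_pos h5]
          exact ⟨fun _ => h3, fun _ => by omega⟩
      · by_cases h4 : Lq x q
        · have h5 : chg x ⟨q, hq'⟩ = true := h2.2 ⟨fun h => absurd h h3, fun h => absurd h4 h⟩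
          have h6 : Cq x q % 2 = 1 := ih'.2 h4
          rw [if_pos h5]
          exact ⟨fun h => by omega, fun h => absurd h h3⟩
        · have h5 : ¬ chg x ⟨q, hq'⟩ = true := fun h5 => h3 ((h2.1 h5).2 h4)
          have h6 : ¬ Cq x q % 2 = 1 := fun h6 => h4 (ih'.1 h6)
          rw [if_neg h5, add_zero]
          exact ⟨fun h => absurd h h6, fun h => absurd h h3⟩

private theorem card_eq {n : ℕ} (x : Fin n → Fin 3) (i : Fin n) (hi : x i ≠ 2) :
    (univ.filter fun j : Fin n => (j : ℕ) ≤ rk Fin.val (fun i => decide (x i ≠ 2)) i ∧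
      cmp Fin.val (fun i => decide (x i ≠ 2)) (chg x) j = true).card = Cq x (i + 1) := by
  unfold Cq
  symm
  have hP : ∀ a : Fin n, chg x a = true → (fun i => decide (x i ≠ 2)) a = true := by
    intro a ha
    exact decide_eq_true ((chg_iff x a).1 ha).1
  refine Finset.card_bij (fun a _ => ⟨rk Fin.val (fun i => decide (x i ≠ 2)) a, rk_ltn _ a⟩)
    ?_ ?_ ?_
  · intro a ha
    rw [Finset.mem_filter] at ha ⊢
    refine ⟨Finset.mem_univ _, ?_, ?_⟩
    · change rk Fin.val (fun i => decide (x i ≠ 2)) a ≤ rk Fin.val (fun i => decide (x i ≠ 2)) i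
      rcases Nat.lt_or_ge a i with h | h
      · exact (rk_lt' _ h (hP a ha.2.2)).le
      · have h1 : a = i := Fin.ext (by omega)
        rw [h1]
    · exact (cmp_iff _ _ _ _).2 ⟨a, hP a ha.2.2, ha.2.2, rfl⟩
  · intro a ha b hb hab
    rw [Finset.mem_filter] at ha hb
    have hab' : rk Fin.val (fun i => decide (x i ≠ 2)) a =
        rk Fin.val (fun i => decide (x i ≠ 2)) b := congrArg Fin.val hab
    rcases lt_trichotomy a b with h | h | h
    · exact absurd hab' (rk_lt' _ h (hP a ha.2.2)).ne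
    · exact h
    · exact absurd hab' (rk_lt' _ h (hP b hb.2.2)).ne'
  · intro j hj
    rw [Finset.mem_filter] at hj
    obtain ⟨_, h1, h2⟩ := hj
    obtain ⟨a, ha1, ha2, ha3⟩ := (cmp_iff _ _ _ _).1 h2
    refine ⟨a, ?_, Fin.ext ha3⟩
    rw [Finset.mem_filter]
    refine ⟨Finset.mem_univ _, ?_, ha2⟩
    by_contra h3
    have h4 : i < a := by
      rw [Fin.lt_def]
      omega
    have h5 := rk_lt' (fun i => decide (x i ≠ 2)) h4 (decide_eq_true hi)
    rw [ha3] at h5
    exact absurd h1 (not_le.2 h5)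

theorem tChg : S_Chg := by
  intro n x
  constructor
  · classical
    let A : Finset (Fin n) := univ.filter fun i => x i ≠ 2 ∧ chg x i = true
    let R : Finset (Fin n × Fin n) := univ.filter fun p : Fin n × Fin n => p.1 < p.2 ∧ x p.1 ≠ 2 ∧
      x p.2 ≠ 2 ∧ x p.1 ≠ x p.2 ∧ ∀ l : Fin n, p.1 < l → l < p.2 → x l = 2
    have key : ∀ i j : Fin n, j < i → x j ≠ 2 → x i ≠ 2 → chg x i = true →
        i ∈ R.image Prod.snd := by
      intro i j hji hj hi hc
      let B : Finset (Fin n) := univ.filter fun l => l < i ∧ x l ≠ 2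
      have hB : B.Nonempty := ⟨j, Finset.mem_filter.2 ⟨Finset.mem_univ _, hji, hj⟩⟩
      have h1 := Finset.mem_filter.1 (B.max'_mem hB)
      have h2 : ∀ l : Fin n, B.max' hB < l → l < i → x l = 2 := by
        intro l hl hli
        by_contra h3
        exact absurd (B.le_max' l (Finset.mem_filter.2 ⟨Finset.mem_univ _, hli, h3⟩)) (not_le.2 hl)
      refine Finset.mem_image.2 ⟨(B.max' hB, i), Finset.mem_filter.2 ⟨Finset.mem_univ _, h1.2.1,
        h1.2.2, hi, ?_, h2⟩, rfl⟩
      have h3 := ((chg_iff x i).1 hc).2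
      change x (B.max' hB) ≠ x i
      intro h4
      by_cases h5 : x i = 1
      · exact h3.1 h5 ⟨B.max' hB, h1.2.1, h4.trans h5, fun l hl hli => h2 l hl hli⟩
      · have h6 : Lq x i := by
          by_contra h6
          exact h5 (h3.2 h6)
        obtain ⟨i', h7, h8, h9⟩ := h6
        have h10 : i' = B.max' hB := by
          rcases lt_trichotomy i' (B.max' hB) with h | h | h
          · exact absurd (h9 _ h h1.2.1) h1.2.2
          · exact h
          · have h11 := h2 i' h h7
            rw [h8] at h11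
            exact absurd h11 (by decide)
        rw [h10, h4] at h8
        exact h5 h8
    have hone : (A \ R.image Prod.snd).card ≤ 1 := by
      rw [Finset.card_le_one]
      intro a ha b hb
      rw [Finset.mem_sdiff] at ha hb
      have ha1 := (Finset.mem_filter.1 ha.1).2
      have hb1 := (Finset.mem_filter.1 hb.1).2
      rcases lt_trichotomy a b with h | h | h
      · exact absurd (key b a h ha1.1 hb1.1 hb1.2) hb.2
      · exact h
      · exact absurd (key a b h hb1.1 ha1.1 ha1.2) ha.2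
    have h1 : A.card ≤ (A \ R.image Prod.snd).card + (R.image Prod.snd).card := by
      have h2 : A ⊆ (A \ R.image Prod.snd) ∪ R.image Prod.snd := by
        intro a ha
        by_cases h : a ∈ R.image Prod.snd
        · exact Finset.mem_union_right _ h
        · exact Finset.mem_union_left _ (Finset.mem_sdiff.2 ⟨ha, h⟩)
      exact (Finset.card_le_card h2).trans (Finset.card_union_le _ _)
    have h3 : (R.image Prod.snd).card ≤ R.card := Finset.card_image_le
    have h4 : A.card ≤ R.card + 1 := by omega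
    refine le_trans (le_of_eq ?_) (h4.trans (le_of_eq ?_))
    · congr 1
    · unfold alt
      congr 2
  · intro i hi
    rw [card_eq x i hi]
    have h1 := parity x (i + 1) i.2
    have h2 : Lq x (i + 1) ↔ x i = 1 := Lq_ne x i.2 hi
    rw [decide_eq_decide]
    exact (h1.trans h2).symm

end Pool.Agent.Lin
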