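import Pool.Agent.Lib.MP_76b24b_lcL.Spec

/-!
# MP_76b24b_lc, package L: the valid output cells
-/

set_option autoImplicit false

namespace Pool.Agent.Lin

open Finset

private theorem num_testBit_cnt (k : ℕ) :
    ∀ m : ℕ, m < 2 ^ k → num (fun t : Fin k => m.testBit t) = m := by
  induction k with
  | zero =>
    intro m hm
    have : m = 0 := by simpa using hm
    subst this
    simp [num]
  | succ k ih =>
    intro m hm
    have h1 : m / 2 < 2 ^ k := by
      rw [pow_succ] at hm
      omega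
    have h2 := ih (m / 2) h1
    unfold num at h2 ⊢
    rw [Fin.sum_univ_succ]
    have h3 : ∀ i : Fin k, (if m.testBit ((i.succ : Fin (k + 1)) : ℕ) = true then
        2 ^ ((i.succ : Fin (k + 1)) : ℕ) else 0) =
        2 * (if (m / 2).testBit i = true then 2 ^ (i : ℕ) else 0) := by
      intro i
      rw [Fin.val_succ, Nat.testBit_succ, pow_succ]
      split_ifs <;> ring
    rw [Finset.sum_congr rfl (fun i _ => h3 i), ← Finset.mul_sum, h2]
    simp only [Fin.val_zero, Nat.testBit_zero, pow_zero, decide_eq_true_eq]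
    split_ifs <;> omega

private theorem card_pad_cnt {n N : ℕ} (hn : n ≤ N) (P : Fin n → Bool) :
    (univ.filter fun i : Fin N => (if h : (i : ℕ) < n then P ⟨i, h⟩ else false) = true).card =
      (univ.filter fun i : Fin n => P i = true).card := by
  symm
  refine Finset.card_bij (fun i _ => Fin.castLE hn i) ?_ ?_ ?_
  · intro i hi
    have hi := (Finset.mem_filter.1 hi).2
    refine Finset.mem_filter.2 ⟨Finset.mem_univ _, ?_⟩
    have h : ((Fin.castLE hn i : Fin N) : ℕ) < n := i.isLt
    rw [dif_pos h]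
    exact hi
  · intro i _ j _ h
    exact Fin.castLE_injective hn h
  · intro i hi
    have hi := (Finset.mem_filter.1 hi).2
    by_cases h : (i : ℕ) < n
    · rw [dif_pos h] at hi
      exact ⟨⟨i, h⟩, Finset.mem_filter.2 ⟨Finset.mem_univ _, hi⟩, rfl⟩
    · rw [dif_neg h] at hi
      exact absurd hi (by decide)

/-- The valid output cells. -/
theorem tCnt (h1 : S_Pop) (h2 : S_Thr) : S_Cnt := by
  refine ⟨52, fun n => ?_⟩
  rcases Nat.eq_zero_or_pos n with rfl | hn
  · exact ((Cx.proj (fun j : Fin 0 => j)).mono (Nat.zero_le _)).congr fun _ j => j.elim0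
  obtain ⟨ν, hν, hν2⟩ : ∃ ν : ℕ, n ≤ 2 ^ ν ∧ 2 ^ ν ≤ 2 * n := by
    refine ⟨Nat.clog 2 n, Nat.le_pow_clog (by norm_num) n, ?_⟩
    rcases Nat.lt_or_ge 1 n with h | h
    · have h3 := Nat.pow_pred_clog_lt_self (b := 2) (by norm_num) h
      have h4 : 0 < Nat.clog 2 n := Nat.clog_pos (by norm_num) h
      obtain ⟨c, hc⟩ : ∃ c, Nat.clog 2 n = c + 1 := ⟨Nat.clog 2 n - 1, by omega⟩
      rw [hc] at h3 ⊢
      rw [Nat.pred_succ] at h3
      rw [pow_succ]
      omega
    · have : n = 1 := by omega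
      subst this
      simp
  have c1 : Cx (fun (P : Fin n → Bool) (i : Fin (2 ^ ν)) =>
      if h : (i : ℕ) < n then P ⟨i, h⟩ else false) (2 ^ ν) := by
    have := Cx.layer (fun (i : Fin (2 ^ ν)) (a _ : Bool) => if (i : ℕ) < n then a else false)
      (fun i => if h : (i : ℕ) < n then (⟨i, h⟩ : Fin n) else ⟨0, hn⟩)
      (fun _ => (⟨0, hn⟩ : Fin n))
    rw [Fintype.card_fin] at this
    refine this.congr fun x i => ?_
    by_cases h : (i : ℕ) < n
    · simp only [h, if_true, dif_pos]
    · simp only [h, if_false, dif_neg, not_false_eq_true]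
  have c2 := (c1.comp (h1 ν)).comp (h2 (ν + 1) (Nat.succ_pos ν))
  have hlt : ∀ j : Fin n, (j : ℕ) < 2 ^ (ν + 1) := fun j => by
    have := j.isLt
    rw [pow_succ]
    omega
  have c3 := c2.out (fun j : Fin n => (⟨j, hlt j⟩ : Fin (2 ^ (ν + 1))))
  refine (c3.mono ?_).congr fun P j => ?_
  · rw [pow_succ]
    omega
  · have h3 : (univ.filter fun i : Fin (2 ^ ν) =>
        (if h : (i : ℕ) < n then P ⟨i, h⟩ else false) = true).card < 2 ^ (ν + 1) := by
      refine lt_of_le_of_lt (Finset.card_le_univ _) ?_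
      rw [Fintype.card_fin, pow_succ]
      have : 0 < 2 ^ ν := Nat.two_pow_pos ν
      omega
    have h4 := num_testBit_cnt (ν + 1) _ h3
    simp only [] at h4 ⊢
    rw [h4, card_pad_cnt hν P]

end Pool.Agent.Lin
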