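import Pool.Agent.Lib.MP_76b24b_lcL.Spec

/-!
# MP_76b24b_lc, package L, module Core: compaction of sparse marks, blocks of size `2 ^ β`
-/

set_option autoImplicit false

namespace Pool.Agent.Lin

open Finset

/-- one block is active -/
private theorem actCxC (h1 : S_Or) (b : ℕ) (hb : 0 < b) :
    Cx (fun (x : Fin b ⊕ Fin b → Bool) (_ : Unit) =>
      decide (∃ ρ, x (Sum.inl ρ) = true ∧ x (Sum.inr ρ) = true)) (2 * b + 1) := by
  have : Nonempty (Fin b) := ⟨⟨0, hb⟩⟩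
  have hA := Cx.layer (ι := Fin b ⊕ Fin b) (κ := Fin b) (fun _ p q => p && q)
    (fun ρ => Sum.inl ρ) (fun ρ => Sum.inr ρ)
  have hO := h1 (Fin b) Finset.univ
  have hC := hA.comp hO
  refine (hC.mono ?_).congr fun x j => ?_
  · rw [Finset.card_univ, Fintype.card_fin]
    omega
  · refine decide_eq_decide.2 ?_
    simp

private theorem rk_mono {α : Type} [Fintype α] (pos : α → ℕ) (P : α → Bool) {q q' : ℕ}
    (h : q ≤ q') : rk pos P q ≤ rk pos P q' := by
  unfold rk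
  refine Finset.card_le_card fun a ha => ?_
  rw [Finset.mem_filter] at ha ⊢
  exact ⟨ha.1, ha.2.1.trans_le h, ha.2.2⟩

private theorem rk_val_le {b : ℕ} (P : Fin b → Bool) (q : ℕ) : rk Fin.val P q ≤ min b q := by
  unfold rk
  rw [← Fin.card_filter_val_lt]
  refine Finset.card_le_card fun a ha => ?_
  rw [Finset.mem_filter] at ha ⊢
  exact ⟨ha.1, ha.2.1⟩

/-- The rank inside of a block. -/
private theorem rk_block {b N : ℕ} (P : Fin N × Fin b → Bool) (i : Fin N) (ρ : ℕ) (hρ : ρ ≤ b) :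
    rk (bpos b) P (i * b + ρ) = rk (bpos b) P (i * b) + rk Fin.val (fun ρ => P (i, ρ)) ρ := by
  classical
  unfold rk
  have e1 : (univ.filter fun ρ' : Fin b => (ρ' : ℕ) < ρ ∧ P (i, ρ') = true).card =
      ((univ.filter fun ρ' : Fin b => (ρ' : ℕ) < ρ ∧ P (i, ρ') = true).image
        fun ρ' => (i, ρ')).card := by
    rw [Finset.card_image_of_injective]
    intro r r' h
    exact (Prod.mk.injEq _ _ _ _ ▸ h).2
  rw [e1, ← Finset.card_union_of_disjoint]
  · congr 1
    ext ⟨i', ρ'⟩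
    have hρ' := ρ'.isLt
    simp only [Finset.mem_union, Finset.mem_filter, Finset.mem_univ, true_and, Finset.mem_image,
      Prod.mk.injEq]
    simp only [bpos]
    constructor
    · rintro ⟨h1, h2⟩
      by_cases h3 : (i' : ℕ) * b + ρ' < i * b
      · exact Or.inl ⟨h3, h2⟩
      · right
        have h4 : (i' : ℕ) = i := by
          have h5 : (i' : ℕ) * b < (i + 1) * b := by nlinarith
          have h6 : (i' : ℕ) < i + 1 := lt_of_mul_lt_mul_right h5 (Nat.zero_le b)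
          have h7 : (i : ℕ) * b < (i' + 1) * b := by nlinarith
          have h8 : (i : ℕ) < i' + 1 := lt_of_mul_lt_mul_right h7 (Nat.zero_le b)
          omega
        have h5 : i' = i := Fin.ext h4
        subst h5
        exact ⟨ρ', ⟨by omega, h2⟩, rfl, rfl⟩
    · rintro (⟨h1, h2⟩ | ⟨r, ⟨h1, h2⟩, rfl, rfl⟩)
      · exact ⟨by omega, h2⟩
      · exact ⟨by omega, h2⟩
  · rw [Finset.disjoint_left]
    rintro ⟨i', ρ'⟩ h1 h2
    simp only [Finset.mem_filter, Finset.mem_univ, true_and, Finset.mem_image,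
      Prod.mk.injEq] at h1 h2
    simp only [bpos] at h1
    obtain ⟨r, -, rfl, rfl⟩ := h2
    omega

private theorem rk_end {b N : ℕ} (P : Fin N × Fin b → Bool) (q : ℕ) (hq : N * b ≤ q) :
    rk (bpos b) P q = rk (bpos b) P (N * b) := by
  refine le_antisymm ?_ (rk_mono _ _ hq)
  unfold rk
  refine Finset.card_le_card fun a ha => ?_
  rw [Finset.mem_filter] at ha ⊢
  refine ⟨ha.1, ?_, ha.2.2⟩
  obtain ⟨i, r⟩ := a
  have h1 := i.isLt
  have h2 := r.isLt
  show (i : ℕ) * b + r < N * b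
  have : ((i : ℕ) + 1) * b ≤ N * b := Nat.mul_le_mul_right _ h1
  nlinarith

private theorem rk_zero {b N : ℕ} (P : Fin N × Fin b → Bool) : rk (bpos b) P 0 = 0 := by
  unfold rk
  rw [Finset.card_eq_zero, Finset.filter_eq_empty_iff]
  intro a _ h
  exact absurd h.1 (Nat.not_lt_zero _)

private theorem rk_step {b N : ℕ} (P : Fin N × Fin b → Bool) (i : ℕ) :
    rk (bpos b) P ((i + 1) * b) ≤ rk (bpos b) P (i * b) + b := by
  by_cases h : i < N
  · have h1 := rk_block P ⟨i, h⟩ b le_rfl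
    have h2 := rk_val_le (fun ρ => P (⟨i, h⟩, ρ)) b
    have h3 : (i + 1) * b = i * b + b := by ring
    rw [h3]
    simp only at h1
    rw [h1]
    exact Nat.add_le_add_left (h2.trans (min_le_left _ _)) _
  · have h1 : N * b ≤ i * b := Nat.mul_le_mul_right _ (not_lt.1 h)
    have h2 : N * b ≤ (i + 1) * b := Nat.mul_le_mul_right _ (by omega)
    rw [rk_end P _ h1, rk_end P _ h2]
    omega

private theorem card_two (n v : ℕ) :
    (univ.filter fun a : Fin n => v = (a : ℕ) ∨ v + 1 = (a : ℕ)).card ≤ 2 := by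
  rw [Finset.filter_or]
  refine (Finset.card_union_le _ _).trans ?_
  have h : ∀ w : ℕ, (univ.filter fun a : Fin n => w = (a : ℕ)).card ≤ 1 := by
    intro w
    rw [Finset.card_le_one]
    intro a ha a' ha'
    rw [Finset.mem_filter] at ha ha'
    exact Fin.ext (ha.2.symm.trans ha'.2)
  have := h v
  have := h (v + 1)
  omega

private theorem div_aux (B s r a e q m : ℕ) (h7 : s + r = a * B + e) (h8 : r < B) (h9 : e < B)
    (h10 : B * q + m = s) (h11 : m < B) : q = a ∨ q + 1 = a := by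
  have h12 : q < a + 1 := by
    have : q * B < (a + 1) * B := by
      have e1 : (a + 1) * B = a * B + B := by ring
      have e2 : B * q = q * B := mul_comm _ _
      omega
    exact lt_of_mul_lt_mul_right this (Nat.zero_le _)
  have h13 : a < q + 2 := by
    have : a * B < (q + 2) * B := by
      have e1 : (q + 2) * B = q * B + B + B := by ring
      have e2 : B * q = q * B := mul_comm _ _
      omega
    exact lt_of_mul_lt_mul_right this (Nat.zero_le _)
  omega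

theorem tCore (h1 : S_Or) (h2 : S_Pre) (h3 : S_Act) (h4 : S_Front) (h5 : S_Back) : S_Core := by
  obtain ⟨c2, hc2⟩ := h2
  obtain ⟨c3, hc3⟩ := h3
  obtain ⟨c4, hc4⟩ := h4
  obtain ⟨c5, hc5⟩ := h5
  refine ⟨c2 + c3 + c4 + c5 + 2, fun β η μ K h hβ hμ hg => ?_⟩
  have hN : 0 < 2 ^ η := Nat.two_pow_pos η
  have hb : 0 < 2 ^ β := Nat.two_pow_pos β
  obtain ⟨FA, hFA, sA⟩ := hc3 β η
  obtain ⟨FF, hFF, sF⟩ := hc4 β η μ K h hβ hμ hg
  obtain ⟨FB, hFB, sB⟩ := hc5 β η μ K h hμ hg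
  let ι := (Fin (2 ^ η) × Fin (2 ^ β)) ⊕ (Fin (2 ^ η) × Fin (2 ^ β))
  have hR := (hc2 β η).inp (Sum.inl : Fin (2 ^ η) × Fin (2 ^ β) → ι)
  have hV := ((Cx.blocks (α := Fin (2 ^ η)) (actCxC h1 (2 ^ β) hb)).inp
    (fun p => Sum.elim (fun ρ => Sum.inl (p.1, ρ)) (fun ρ => Sum.inr (p.1, ρ)) p.2 :
      Fin (2 ^ η) × (Fin (2 ^ β) ⊕ Fin (2 ^ β)) → ι)).out (fun i : Fin (2 ^ η) => (i, ()))
  let R : (ι → Bool) → Fin (2 ^ η + 1) × Fin (η + β + 1) → Bool := fun x p =>
    (rk (bpos (2 ^ β)) (fun p => x (Sum.inl p)) (p.1 * 2 ^ β)).testBit p.2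
  let V : (ι → Bool) → Fin (2 ^ η) → Bool := fun x i =>
    decide (∃ ρ, x (Sum.inl (i, ρ)) = true ∧ x (Sum.inr (i, ρ)) = true)
  have hT := (hFF.pair ((hR.pair hV).comp hFA)).comp hFB
  refine ⟨fun x => FB (Sum.elim (FF x) (FA (Sum.elim (R x) (V x)))), (hT.mono ?_).congr
    fun x p => rfl, fun x hx a e => ?_⟩
  · have e2 : c2 * (2 ^ η * (2 ^ β + η + 1)) ≤ c2 * (2 ^ η * (2 ^ β + η + Nat.log 2 K + 1) +
        2 ^ μ * (η + 2 ^ β + 1) ^ 3) :=
      Nat.mul_le_mul_left _ ((Nat.mul_le_mul_left _ (by omega)).trans (Nat.le_add_right _ _))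
    have e3 : c3 * ((η + 1) * 2 ^ η) ≤ c3 * (2 ^ η * (2 ^ β + η + Nat.log 2 K + 1) +
        2 ^ μ * (η + 2 ^ β + 1) ^ 3) := by
      refine Nat.mul_le_mul_left _ (le_trans ?_ (Nat.le_add_right _ _))
      rw [mul_comm]
      exact Nat.mul_le_mul_left _ (by omega)
    have e4 : Fintype.card (Fin (2 ^ η)) * (2 * 2 ^ β + 1) ≤
        2 * (2 ^ η * (2 ^ β + η + Nat.log 2 K + 1) + 2 ^ μ * (η + 2 ^ β + 1) ^ 3) := by
      rw [Fintype.card_fin]
      calc 2 ^ η * (2 * 2 ^ β + 1) ≤ 2 ^ η * (2 * (2 ^ β + η + Nat.log 2 K + 1)) :=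
            Nat.mul_le_mul_left _ (by omega)
        _ = 2 * (2 ^ η * (2 ^ β + η + Nat.log 2 K + 1)) := by ring
        _ ≤ _ := Nat.mul_le_mul_left _ (Nat.le_add_right _ _)
    set T := 2 ^ η * (2 ^ β + η + Nat.log 2 K + 1) + 2 ^ μ * (η + 2 ^ β + 1) ^ 3 with hTdef
    calc c4 * T + (c2 * (2 ^ η * (2 ^ β + η + 1)) + Fintype.card (Fin (2 ^ η)) * (2 * 2 ^ β + 1) +
          c3 * ((η + 1) * 2 ^ η)) + c5 * T ≤ c4 * T + (c2 * T + 2 * T + c3 * T) + c5 * T := by
          omega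
      _ = (c2 + c3 + c4 + c5 + 2) * T := by ring
  · set P : Fin (2 ^ η) × Fin (2 ^ β) → Bool := fun p => x (Sum.inl p) with hP
    set Q : Fin (2 ^ η) × Fin (2 ^ β) → Bool := fun p => x (Sum.inr p) with hQ
    have hact : ∀ i, i ∈ act x ↔ V x i = true := by
      intro i
      unfold act
      rw [Finset.mem_filter]
      exact ⟨fun h => decide_eq_true h.2, fun h => ⟨Finset.mem_univ _, of_decide_eq_true h⟩⟩
    have hu := sA (fun i => rk (bpos (2 ^ β)) P (i * 2 ^ β)) (Sum.elim (R x) (V x))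
      (by simp only [Nat.zero_mul]; exact rk_zero P)
      (fun i => rk_mono _ _ (Nat.mul_le_mul_right _ (Nat.le_succ i)))
      (fun i => rk_step P i) (fun i t => rfl)
    have hucard : (univ.filter fun a => FA (Sum.elim (R x) (V x)) a = true).card ≤ K := by
      have h6 : (univ.filter fun a => FA (Sum.elim (R x) (V x)) a = true) ⊆
          (act x).biUnion fun i => univ.filter fun a : Fin (2 ^ η) =>
            rk (bpos (2 ^ β)) P (i * 2 ^ β) / 2 ^ β = (a : ℕ) ∨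
              rk (bpos (2 ^ β)) P (i * 2 ^ β) / 2 ^ β + 1 = (a : ℕ) := by
        intro a' ha'
        rw [Finset.mem_filter, hu a'] at ha'
        obtain ⟨i, hi, hi'⟩ := of_decide_eq_true ha'.2
        rw [Finset.mem_biUnion]
        exact ⟨i, (hact i).2 hi, Finset.mem_filter.2 ⟨Finset.mem_univ _, hi'⟩⟩
      refine (Finset.card_le_card h6).trans ?_
      refine (Finset.card_biUnion_le_card_mul _ _ 2 fun i _ => card_two _ _).trans ?_
      rw [mul_comm]
      exact hx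
    have hb1 := sB (Sum.elim (FF x) (FA (Sum.elim (R x) (V x)))) hucard a e
    show FB (Sum.elim (FF x) (FA (Sum.elim (R x) (V x)))) (a, e) = _
    rw [hb1]
    have hf1 := sF x (by omega) a e
    refine Bool.eq_iff_iff.2 ⟨fun hh => hf1.1 (of_decide_eq_true hh).2, fun hh =>
      decide_eq_true ⟨?_, hf1.2 hh⟩⟩
    show FA (Sum.elim (R x) (V x)) a = true
    rw [hu a]
    obtain ⟨⟨i, ρ⟩, hp, hq, hr⟩ := of_decide_eq_true hh
    refine decide_eq_true ⟨i, decide_eq_true ⟨ρ, hp, hq⟩, ?_⟩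
    have h7 : rk (bpos (2 ^ β)) P (i * 2 ^ β + ρ) = a * 2 ^ β + e := hr
    rw [rk_block P i ρ ρ.isLt.le] at h7
    have h8 : rk Fin.val (fun ρ => P (i, ρ)) (ρ : ℕ) < 2 ^ β :=
      ((rk_val_le _ _).trans (min_le_right _ _)).trans_lt ρ.isLt
    have h9 := e.isLt
    set s := rk (bpos (2 ^ β)) P (i * 2 ^ β) with hs
    have h10 := Nat.div_add_mod s (2 ^ β)
    have h11 := Nat.mod_lt s hb
    set q := s / 2 ^ β with hq'
    exact div_aux _ _ _ _ _ _ _ h7 h8 h9 h10 h11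

end Pool.Agent.Lin
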