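import Pool.Agent.Lib.MP_76b24b_lcL.Spec

/-! For one set there are few bad functions. -/

set_option autoImplicit false

namespace Pool.Agent.Lin

open Finset

section Rep

variable {E : Type} [Fintype E] [DecidableEq E] {M : ℕ}

/-- The repeats: the value was taken by an earlier element of `A`. -/
private def rep (ord : E → ℕ) (A : Finset E) (f : E → Fin M) : Finset E :=
  A.filter fun e => ∃ e' ∈ A, ord e' < ord e ∧ f e' = f e

/-- The elements of `A` whose value is taken at least twice. -/
private def nun (A : Finset E) (f : E → Fin M) : Finset E :=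
  A.filter fun e => ∃ e' ∈ A, e' ≠ e ∧ f e' = f e

omit [Fintype E] in
private theorem nun_le (ord : E → ℕ) (hord : Function.Injective ord) (A : Finset E)
    (f : E → Fin M) : (nun A f).card ≤ 2 * (rep ord A f).card := by
  classical
  have h1 : (nun A f \ rep ord A f).card ≤ (rep ord A f).card := by
    have h2 : ∀ e ∈ nun A f \ rep ord A f, ∃ e' ∈ rep ord A f, f e' = f e := by
      intro e he
      rw [Finset.mem_sdiff] at he
      obtain ⟨he1, he2⟩ := he
      obtain ⟨heA, e', he', hne, hf⟩ := Finset.mem_filter.1 he1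
      refine ⟨e', Finset.mem_filter.2 ⟨he', e, heA, ?_, hf.symm⟩, hf⟩
      rcases lt_trichotomy (ord e) (ord e') with h | h | h
      · exact h
      · exact absurd (hord h).symm hne
      · exact absurd (Finset.mem_filter.2 ⟨heA, e', he', h, hf⟩) he2
    choose! g hg1 hg2 using h2
    refine Finset.card_le_card_of_injOn g (fun e he => hg1 e he) ?_
    intro a ha b hb hab
    have hfab : f a = f b := by rw [← hg2 a ha, ← hg2 b hb, hab]
    rw [Finset.coe_sdiff] at ha hb
    have ha1 := (Finset.mem_filter.1 ha.1).1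
    have hb1 := (Finset.mem_filter.1 hb.1).1
    by_contra hne
    rcases lt_trichotomy (ord a) (ord b) with h | h | h
    · exact hb.2 (Finset.mem_filter.2 ⟨hb1, a, ha1, h, hfab⟩)
    · exact hne (hord h)
    · exact ha.2 (Finset.mem_filter.2 ⟨ha1, b, hb1, h, hfab.symm⟩)
  have h3 : (nun A f).card ≤ (nun A f \ rep ord A f).card + (rep ord A f).card := by
    have := Finset.card_le_card (Finset.subset_union_left (s₁ := nun A f) (s₂ := rep ord A f))
    rw [← Finset.sdiff_union_self_eq_union] at this
    exact this.trans (Finset.card_union_le _ _)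
  omega

/-- For a fixed set `Q` of repeats. -/
private theorem rep_fix (ord : E → ℕ) (A Q : Finset E) :
    (univ.filter fun f : E → Fin M => Q ⊆ rep ord A f).card * M ^ Q.card ≤
      A.card ^ Q.card * M ^ Fintype.card E := by
  classical
  have h1 : ∀ f : E → Fin M, Q ⊆ rep ord A f → ∀ e : {e // e ∈ Q}, ∃ e' : {e // e ∈ A},
      ord e'.1 < ord e.1 ∧ f e'.1 = f e.1 := by
    intro f hf e
    obtain ⟨_, e', he', h2, h3⟩ := Finset.mem_filter.1 (hf e.2)
    exact ⟨⟨e', he'⟩, h2, h3⟩
  choose p hp1 hp2 using h1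
  let Φ : {f : E → Fin M // Q ⊆ rep ord A f} → ({e // e ∈ Q} → {e // e ∈ A}) ×
      ({e // e ∈ Qᶜ} → Fin M) := fun f => (fun e => p f.1 f.2 e, fun e => f.1 e.1)
  have hinj : Function.Injective Φ := by
    intro f g hfg
    have ha : ∀ e : {e // e ∈ Q}, p f.1 f.2 e = p g.1 g.2 e := fun e => congrFun (congrArg Prod.fst hfg) e
    have hb : ∀ e : {e // e ∈ Qᶜ}, f.1 e.1 = g.1 e.1 := fun e => congrFun (congrArg Prod.snd hfg) e
    apply Subtype.ext
    have key : ∀ n : ℕ, ∀ e : E, ord e = n → f.1 e = g.1 e := by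
      intro n
      induction n using Nat.strong_induction_on with
      | _ n ih =>
        intro e he
        by_cases heQ : e ∈ Q
        · have h2 := hp1 f.1 f.2 ⟨e, heQ⟩
          have h3 := hp2 f.1 f.2 ⟨e, heQ⟩
          have h4 := hp2 g.1 g.2 ⟨e, heQ⟩
          rw [← ha ⟨e, heQ⟩] at h4
          change f.1 (p f.1 f.2 ⟨e, heQ⟩).1 = f.1 e at h3
          change g.1 (p f.1 f.2 ⟨e, heQ⟩).1 = g.1 e at h4
          rw [← h3, ← h4]
          exact ih _ (by rw [← he]; exact h2) _ rfl
        · exact hb ⟨e, Finset.mem_compl.2 heQ⟩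
    exact funext fun e => key _ e rfl
  have h2 := Fintype.card_le_of_injective Φ hinj
  rw [Fintype.card_prod, Fintype.card_fun, Fintype.card_fun, Fintype.card_coe, Fintype.card_coe,
    Fintype.card_coe, Fintype.card_fin, Finset.card_compl, Fintype.card_subtype] at h2
  have h3 : Q.card ≤ Fintype.card E := Finset.card_le_univ Q
  calc (univ.filter fun f : E → Fin M => Q ⊆ rep ord A f).card * M ^ Q.card
      ≤ A.card ^ Q.card * M ^ (Fintype.card E - Q.card) * M ^ Q.card :=
        Nat.mul_le_mul_right _ h2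
    _ = A.card ^ Q.card * M ^ Fintype.card E := by
        rw [mul_assoc, ← pow_add, Nat.sub_add_cancel h3]

private theorem rep_all (ord : E → ℕ) (A : Finset E) (q : ℕ) :
    (univ.filter fun f : E → Fin M => q ≤ (rep ord A f).card).card * M ^ q ≤
      2 ^ A.card * (A.card ^ q * M ^ Fintype.card E) := by
  classical
  have h1 : (univ.filter fun f : E → Fin M => q ≤ (rep ord A f).card) ⊆
      (A.powersetCard q).biUnion fun Q => univ.filter fun f : E → Fin M => Q ⊆ rep ord A f := by
    intro f hf
    obtain ⟨Q, hQ1, hQ2⟩ := Finset.exists_subset_card_eq (Finset.mem_filter.1 hf).2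
    refine Finset.mem_biUnion.2 ⟨Q, Finset.mem_powersetCard.2 ⟨hQ1.trans (Finset.filter_subset _ _),
      hQ2⟩, Finset.mem_filter.2 ⟨Finset.mem_univ _, hQ1⟩⟩
  have h2 := (Finset.card_le_card h1).trans Finset.card_biUnion_le
  calc (univ.filter fun f : E → Fin M => q ≤ (rep ord A f).card).card * M ^ q
      ≤ (∑ Q ∈ A.powersetCard q, (univ.filter fun f : E → Fin M => Q ⊆ rep ord A f).card) *
          M ^ q := Nat.mul_le_mul_right _ h2
    _ = ∑ Q ∈ A.powersetCard q, (univ.filter fun f : E → Fin M => Q ⊆ rep ord A f).card *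
          M ^ q := Finset.sum_mul _ _ _
    _ ≤ ∑ Q ∈ A.powersetCard q, A.card ^ q * M ^ Fintype.card E := by
        refine Finset.sum_le_sum fun Q hQ => ?_
        have h3 := (Finset.mem_powersetCard.1 hQ).2
        have h4 := rep_fix (M := M) ord A Q
        rw [h3] at h4
        exact h4
    _ = (A.card.choose q) * (A.card ^ q * M ^ Fintype.card E) := by
        rw [Finset.sum_const, smul_eq_mul, Finset.card_powersetCard]
    _ ≤ 2 ^ A.card * (A.card ^ q * M ^ Fintype.card E) :=
        Nat.mul_le_mul_right _ (Nat.choose_le_two_pow _ _)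

end Rep

theorem tExp1 : S_Exp1 := by
  classical
  intro N M S hS
  set s := S.card with hs
  let ord : Fin N × Fin 16 → ℕ := fun e => e.1 * 16 + e.2
  have hord : Function.Injective ord := by
    intro a b hab
    change (a.1 : ℕ) * 16 + a.2 = b.1 * 16 + b.2 at hab
    have h1 := a.2.isLt
    have h2 := b.2.isLt
    refine Prod.ext (Fin.ext ?_) (Fin.ext ?_) <;> omega
  let A : Finset (Fin N × Fin 16) := S ×ˢ univ
  have hA : A.card = 16 * s := by
    rw [Finset.card_product, Finset.card_univ, Fintype.card_fin, mul_comm]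
  have hbad : ∀ h : Fin N → Fin 16 → Fin M, ¬ S.card ≤ 2 * (S.filter fun i =>
      ∃ t, ∀ i' ∈ S, ∀ t', h i' t' = h i t → i' = i ∧ t' = t).card →
      4 * s ≤ (rep ord A (fun e => h e.1 e.2)).card := by
    intro h hh
    set U := S.filter fun i => ∃ t, ∀ i' ∈ S, ∀ t', h i' t' = h i t → i' = i ∧ t' = t with hU
    have h1 : (S \ U) ×ˢ (univ : Finset (Fin 16)) ⊆ nun A (fun e => h e.1 e.2) := by
      intro e he
      obtain ⟨he1, -⟩ := Finset.mem_product.1 he
      obtain ⟨he2, he3⟩ := Finset.mem_sdiff.1 he1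
      refine Finset.mem_filter.2 ⟨Finset.mem_product.2 ⟨he2, Finset.mem_univ _⟩, ?_⟩
      have h2 : ¬ ∃ t, ∀ i' ∈ S, ∀ t', h i' t' = h e.1 t → i' = e.1 ∧ t' = t := fun h3 =>
        he3 (Finset.mem_filter.2 ⟨he2, h3⟩)
      push Not at h2
      obtain ⟨i', hi', t', h4, h5⟩ := h2 e.2
      refine ⟨(i', t'), Finset.mem_product.2 ⟨hi', Finset.mem_univ _⟩, ?_, h4⟩
      intro h6
      have h7 : i' = e.1 := congrArg Prod.fst h6
      have h8 : t' = e.2 := congrArg Prod.snd h6
      exact h5 h7 h8
    have h2 := Finset.card_le_card h1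
    have hUS : U ⊆ S := Finset.filter_subset _ _
    rw [Finset.card_product, Finset.card_univ, Fintype.card_fin,
      Finset.card_sdiff_of_subset hUS] at h2
    have hUc := Finset.card_le_card hUS
    have h3 := nun_le ord hord A (fun e => h e.1 e.2)
    omega
  have hcard : (univ.filter fun h : Fin N → Fin 16 → Fin M => ¬ S.card ≤ 2 * (S.filter fun i =>
      ∃ t, ∀ i' ∈ S, ∀ t', h i' t' = h i t → i' = i ∧ t' = t).card).card ≤
      (univ.filter fun f : Fin N × Fin 16 → Fin M => 4 * s ≤ (rep ord A f).card).card := by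
    refine Finset.card_le_card_of_injOn (fun h e => h e.1 e.2) (fun h hh => ?_) ?_
    · exact Finset.mem_coe.2 (Finset.mem_filter.2 ⟨Finset.mem_univ _,
        hbad h (Finset.mem_filter.1 hh).2⟩)
    · intro h _ h' _ hhh
      funext i t
      exact congrFun hhh (i, t)
  have h1 := rep_all (M := M) ord A (4 * s)
  rw [hA, Fintype.card_prod, Fintype.card_fin, Fintype.card_fin] at h1
  refine (Nat.mul_le_mul_right _ hcard).trans (h1.trans (le_of_eq ?_))
  have h2 : (2 : ℕ) ^ (16 * s) = 16 ^ (4 * s) := by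
    rw [show (16 : ℕ) * s = 4 * (4 * s) by ring, pow_mul]
    norm_num
  rw [h2, ← mul_assoc, ← mul_pow, mul_comm N 16]
  congr 2
  ring

end Pool.Agent.Lin
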