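import Pool.Agent.Lib.MP_76b24b_lcL.Spec

/-! The union bound. -/

set_option autoImplicit false

namespace Pool.Agent.Lin

open Finset

private theorem pow_self_le (s : ℕ) : (s : ℝ) ^ s ≤ 3 ^ s * s.factorial := by
  have h1 := Real.pow_div_factorial_le_exp (s : ℝ) (Nat.cast_nonneg s) s
  have h2 : Real.exp (s : ℝ) ≤ 3 ^ s := by
    have h3 : Real.exp (s : ℝ) = Real.exp 1 ^ s := by
      rw [← Real.exp_nat_mul, mul_one]
    rw [h3]
    exact pow_le_pow_left₀ (Real.exp_pos 1).le (by have := Real.exp_one_lt_d9; linarith) s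
  have h4 : (0 : ℝ) < s.factorial := by exact_mod_cast s.factorial_pos
  rw [div_le_iff₀ h4] at h1
  exact h1.trans (mul_le_mul_of_nonneg_right h2 h4.le)

private theorem choose_term {N M K s : ℕ} (hM : 0 < M) (h : 6 * 256 ^ 4 * N * K ^ 3 ≤ M ^ 4)
    (hs : 0 < s) (hsK : s ≤ K) :
    (N.choose s : ℝ) * ((256 * s : ℝ) ^ (4 * s) / (M : ℝ) ^ (4 * s)) ≤ (1 / 2) ^ s := by
  have hM' : (0 : ℝ) < M := by exact_mod_cast hM
  have hs' : (0 : ℝ) < s := by exact_mod_cast hs
  have h4 : (0 : ℝ) < s.factorial := by exact_mod_cast s.factorial_pos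
  have h1 : (N.choose s : ℝ) ≤ (N : ℝ) ^ s / s.factorial := Nat.choose_le_pow_div s N
  have h2 : (N : ℝ) ^ s / s.factorial ≤ (3 * N / s) ^ s := by
    rw [div_pow, mul_pow, div_le_div_iff₀ h4 (pow_pos hs' s)]
    have h5 := pow_self_le s
    have h6 : (0 : ℝ) ≤ (N : ℝ) ^ s := by positivity
    nlinarith [mul_le_mul_of_nonneg_left h5 h6]
  have h3 : (6 * 256 ^ 4 * N * s ^ 3 : ℝ) ≤ M ^ 4 := by
    have h5 : (6 * 256 ^ 4 * N * s ^ 3 : ℕ) ≤ M ^ 4 :=
      (Nat.mul_le_mul_left _ (Nat.pow_le_pow_left hsK 3)).trans h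
    exact_mod_cast h5
  have h5 : (0 : ℝ) ≤ (256 * s : ℝ) ^ (4 * s) / (M : ℝ) ^ (4 * s) := by positivity
  calc (N.choose s : ℝ) * ((256 * s : ℝ) ^ (4 * s) / (M : ℝ) ^ (4 * s))
      ≤ (3 * N / s) ^ s * ((256 * s : ℝ) ^ (4 * s) / (M : ℝ) ^ (4 * s)) :=
        mul_le_mul_of_nonneg_right (h1.trans h2) h5
    _ = (3 * N / s * ((256 * s : ℝ) ^ 4 / (M : ℝ) ^ 4)) ^ s := by
        rw [mul_pow (3 * N / s : ℝ) _ s, pow_mul (256 * s : ℝ) 4 s, pow_mul (M : ℝ) 4 s,
          ← div_pow]
    _ ≤ (1 / 2) ^ s := by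
        refine pow_le_pow_left₀ (by positivity) ?_ s
        have h6 : (3 * N / s * ((256 * s : ℝ) ^ 4 / (M : ℝ) ^ 4) : ℝ) =
            (3 * 256 ^ 4 * N * s ^ 3) / M ^ 4 := by
          field_simp
        rw [h6, div_le_div_iff₀ (by positivity) (by norm_num)]
        linarith

theorem tExp (h1 : S_Exp1) : S_Exp := by
  classical
  intro N M K hM hMK
  by_contra hcon
  push Not at hcon
  have hM' : (0 : ℝ) < M := by exact_mod_cast hM
  let bad : Finset (Fin N) → Finset (Fin N → Fin 16 → Fin M) := fun S =>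
    univ.filter fun h : Fin N → Fin 16 → Fin M => ¬ S.card ≤ 2 * (S.filter fun i =>
      ∃ t, ∀ i' ∈ S, ∀ t', h i' t' = h i t → i' = i ∧ t' = t).card
  let g : ℕ → ℝ := fun s => if s = 0 ∨ K < s then 0 else (256 * s : ℝ) ^ (4 * s) / (M : ℝ) ^ (4 * s)
  have hbad : ∀ S : Finset (Fin N), S.Nonempty → S.card ≤ K →
      ((bad S).card : ℝ) ≤ g S.card * (M : ℝ) ^ (16 * N) := by
    intro S hS hSK
    have h2 := h1 N M S hS
    have h3 : ((bad S).card : ℝ) * (M : ℝ) ^ (4 * S.card) ≤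
        (256 * S.card : ℝ) ^ (4 * S.card) * (M : ℝ) ^ (16 * N) := by exact_mod_cast h2
    have h4 : g S.card = (256 * S.card : ℝ) ^ (4 * S.card) / (M : ℝ) ^ (4 * S.card) := by
      simp only [g]
      rw [if_neg]
      have := hS.card_pos
      omega
    rw [h4, div_mul_eq_mul_div, le_div_iff₀ (by positivity)]
    exact h3
  have hcov : (univ : Finset (Fin N → Fin 16 → Fin M)) ⊆
      ((univ : Finset (Finset (Fin N))).filter fun S => S.Nonempty ∧ S.card ≤ K).biUnion bad := by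
    intro h _
    have h2 := hcon h
    unfold Good at h2
    push Not at h2
    obtain ⟨S, hS1, hS2⟩ := h2
    refine Finset.mem_biUnion.2 ⟨S, Finset.mem_filter.2 ⟨Finset.mem_univ _, ?_, hS1⟩,
      Finset.mem_filter.2 ⟨Finset.mem_univ _, not_le.2 hS2⟩⟩
    rw [← Finset.card_pos]
    omega
  have h2 := (Finset.card_le_card hcov).trans Finset.card_biUnion_le
  rw [Finset.card_univ, Fintype.card_fun, Fintype.card_fun, Fintype.card_fin, Fintype.card_fin,
    Fintype.card_fin, ← pow_mul] at h2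
  have h3 : ((M : ℝ) ^ (16 * N)) ≤ ∑ S ∈ (univ : Finset (Finset (Fin N))),
      g S.card * (M : ℝ) ^ (16 * N) := by
    have h4 : ((M ^ (16 * N) : ℕ) : ℝ) ≤ ((∑ S ∈ (univ : Finset (Finset (Fin N))).filter
        (fun S => S.Nonempty ∧ S.card ≤ K), (bad S).card : ℕ) : ℝ) := by exact_mod_cast h2
    push_cast at h4
    refine h4.trans ?_
    refine (Finset.sum_le_sum fun S hS => ?_).trans
      (Finset.sum_le_sum_of_subset_of_nonneg (Finset.filter_subset _ _) fun S _ _ => ?_)
    · obtain ⟨-, h5, h6⟩ := Finset.mem_filter.1 hS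
      exact hbad S h5 h6
    · refine mul_nonneg ?_ (by positivity)
      simp only [g]
      split_ifs
      · exact le_rfl
      · positivity
  rw [← Finset.sum_mul] at h3
  have h4 : (1 : ℝ) ≤ ∑ S ∈ (univ : Finset (Finset (Fin N))), g S.card := by
    have h5 : (0 : ℝ) < (M : ℝ) ^ (16 * N) := by positivity
    by_contra h6
    push Not at h6
    nlinarith [mul_lt_mul_of_pos_right h6 h5]
  have h5 : ∑ S ∈ (univ : Finset (Finset (Fin N))), g S.card =
      ∑ m ∈ Finset.range (N + 1), (N.choose m) • g m := by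
    have h6 := Finset.sum_powerset_apply_card g (x := (univ : Finset (Fin N)))
    rw [Finset.card_univ, Fintype.card_fin, Finset.powerset_univ] at h6
    exact h6
  have h6 : ∑ m ∈ Finset.range (N + 1), (N.choose m) • g m ≤
      ∑ m ∈ Finset.range (N + 1), (if m = 0 then (0 : ℝ) else (1 / 2) ^ m) := by
    refine Finset.sum_le_sum fun m _ => ?_
    by_cases hm : m = 0
    · subst hm
      simp [g]
    · rw [if_neg hm, nsmul_eq_mul]
      by_cases hmK : K < m
      · have h7 : g m = 0 := by simp only [g]; rw [if_pos (Or.inr hmK)]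
        rw [h7, mul_zero]
        positivity
      · have h7 : g m = (256 * m : ℝ) ^ (4 * m) / (M : ℝ) ^ (4 * m) := by
          simp only [g]
          rw [if_neg]
          omega
        rw [h7]
        exact choose_term hM hMK (Nat.pos_of_ne_zero hm) (by omega)
  have h7 : ∀ n : ℕ, ∑ m ∈ Finset.range (n + 1), (if m = 0 then (0 : ℝ) else (1 / 2) ^ m) =
      1 - (1 / 2) ^ n := by
    intro n
    induction n with
    | zero => simp
    | succ n ih =>
      rw [Finset.sum_range_succ, ih, if_neg (Nat.succ_ne_zero n), pow_succ]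
      ring
  rw [h7] at h6
  have h8 : (0 : ℝ) < (1 / 2) ^ N := by positivity
  linarith

end Pool.Agent.Lin
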