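import Pool.Agent.Lib.MP_76b24b_lcL.Spec

/-!
# MP_76b24b_lc, package L, module FA: the data of the active blocks in the bins
-/

set_option autoImplicit false

namespace Pool.Agent.Lin

open Finset

private theorem le_two_pow (β : ℕ) : β ≤ 2 ^ β := (Nat.lt_two_pow_self).le

/-- one block is active -/
private theorem actCx (h1 : S_Or) (b : ℕ) (hb : 0 < b) :
    Cx (fun (x : Fin b ⊕ Fin b → Bool) (_ : Unit) =>
      decide (∃ ρ, x (Sum.inl ρ) = true ∧ x (Sum.inr ρ) = true)) (2 * b + 1) := by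
  have : Nonempty (Fin b) := ⟨⟨0, hb⟩⟩
  have hA := Cx.layer (ι := Fin b ⊕ Fin b) (κ := Fin b) (fun _ p q => p && q)
    (fun ρ => Sum.inl ρ) (fun ρ => Sum.inr ρ)
  have hO := h1 (Fin b) Finset.univ
  have hC := hA.comp hO
  refine (hC.mono ?_).congr fun x j => ?_
  · rw [Finset.card_univ, Fintype.card_fin]
    omega
  · refine decide_eq_decide.2 ?_
    simp

theorem tFA (h1 : S_Or) (h2 : S_Pre) (h3 : S_Mat) (h4 : S_Gat) : S_FA := by
  obtain ⟨c2, hc2⟩ := h2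
  obtain ⟨c3, hc3⟩ := h3
  refine ⟨c2 + 16 * c3 + 200, fun β η M K h hM hg => ?_⟩
  have hN : 0 < 2 ^ η := Nat.two_pow_pos η
  have hb : 0 < 2 ^ β := Nat.two_pow_pos β
  obtain ⟨F, hF, hFu⟩ := hc3 (2 ^ η) 16 M K h hN (by norm_num) hM hg
  -- the inputs
  let ι := (Fin (2 ^ η) × Fin (2 ^ β)) ⊕ (Fin (2 ^ η) × Fin (2 ^ β))
  -- the ranks
  have hR := (hc2 β η).inp (Sum.inl : Fin (2 ^ η) × Fin (2 ^ β) → ι)
  -- the active blocks
  have hV := (Cx.blocks (α := Fin (2 ^ η)) (actCx h1 (2 ^ β) hb)).inp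
    (fun p => Sum.elim (fun ρ => Sum.inl (p.1, ρ)) (fun ρ => Sum.inr (p.1, ρ)) p.2 :
      Fin (2 ^ η) × (Fin (2 ^ β) ⊕ Fin (2 ^ β)) → ι)
  have hV' := hV.out (fun i : Fin (2 ^ η) => (i, ()))
  have hM' := hV'.comp hF
  -- gather
  let w := (η + β + 1) + (2 ^ β + 2 ^ β)
  have hG := h4 (2 ^ η) 16 M w h hN (by norm_num) (by omega)
  let E : Fin w ≃ Fin (η + β + 1) ⊕ (Fin (2 ^ β) ⊕ Fin (2 ^ β)) :=
    finSumFinEquiv.symm.trans (Equiv.sumCongr (Equiv.refl _) finSumFinEquiv.symm)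
  let ρ : (Fin (2 ^ η) × Fin 16) ⊕ (Fin (2 ^ η) × Fin w) →
      ι ⊕ ((Fin (2 ^ η + 1) × Fin (η + β + 1)) ⊕ (Fin (2 ^ η) × Fin 16)) :=
    Sum.elim (fun p => Sum.inr (Sum.inr p)) (fun p => Sum.elim
      (fun t => Sum.inr (Sum.inl (p.1.castSucc, t)))
      (Sum.elim (fun ρ => Sum.inl (Sum.inl (p.1, ρ))) (fun ρ => Sum.inl (Sum.inr (p.1, ρ))))
      (E p.2))
  have hT := ((hR.pair hM').keep.comp (hG.inp ρ)).out
    (fun p : Fin M × (Fin (η + β + 1) ⊕ (Fin (2 ^ β) ⊕ Fin (2 ^ β))) => (p.1, E.symm p.2))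
  let v : (ι → Bool) → Fin (2 ^ η) → Bool := fun x i =>
    decide (∃ ρ, x (Sum.inl (i, ρ)) = true ∧ x (Sum.inr (i, ρ)) = true)
  refine ⟨fun x p => decide (∃ i t, h i t = p.1 ∧ F (v x) (i, t) = true ∧ dat x i p.2 = true),
    (hT.mono ?_).congr fun x p => ?_, fun x hx => ?_⟩
  · have e1 : (2 * 16 * 2 ^ η + M) * w ≤ 99 * (2 ^ η * (2 ^ β + η + Nat.log 2 K + 1)) := by
      have hw : w ≤ 3 * (2 ^ β + η + Nat.log 2 K + 1) := by
        have := le_two_pow β
        show (η + β + 1) + (2 ^ β + 2 ^ β) ≤ _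
        omega
      calc (2 * 16 * 2 ^ η + M) * w ≤ (33 * 2 ^ η) * (3 * (2 ^ β + η + Nat.log 2 K + 1)) :=
            Nat.mul_le_mul (by omega) hw
        _ = 99 * (2 ^ η * (2 ^ β + η + Nat.log 2 K + 1)) := by ring
    have e2 : c2 * (2 ^ η * (2 ^ β + η + 1)) ≤ c2 * (2 ^ η * (2 ^ β + η + Nat.log 2 K + 1)) :=
      Nat.mul_le_mul_left _ (Nat.mul_le_mul_left _ (by omega))
    have e3 : c3 * (16 * 2 ^ η * (Nat.log 2 K + 1)) ≤
        16 * c3 * (2 ^ η * (2 ^ β + η + Nat.log 2 K + 1)) := by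
      calc c3 * (16 * 2 ^ η * (Nat.log 2 K + 1)) = 16 * c3 * (2 ^ η * (Nat.log 2 K + 1)) := by ring
        _ ≤ 16 * c3 * (2 ^ η * (2 ^ β + η + Nat.log 2 K + 1)) :=
          Nat.mul_le_mul_left _ (Nat.mul_le_mul_left _ (by omega))
    have e4 : Fintype.card (Fin (2 ^ η)) * (2 * 2 ^ β + 1) ≤
        2 * (2 ^ η * (2 ^ β + η + Nat.log 2 K + 1)) := by
      rw [Fintype.card_fin]
      calc 2 ^ η * (2 * 2 ^ β + 1) ≤ 2 ^ η * (2 * (2 ^ β + η + Nat.log 2 K + 1)) :=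
            Nat.mul_le_mul_left _ (by omega)
        _ = 2 * (2 ^ η * (2 ^ β + η + Nat.log 2 K + 1)) := by ring
    calc c2 * (2 ^ η * (2 ^ β + η + 1)) + (Fintype.card (Fin (2 ^ η)) * (2 * 2 ^ β + 1) +
          c3 * (16 * 2 ^ η * (Nat.log 2 K + 1))) + (2 * 16 * 2 ^ η + M) * w
        ≤ c2 * (2 ^ η * (2 ^ β + η + Nat.log 2 K + 1)) +
          (2 * (2 ^ η * (2 ^ β + η + Nat.log 2 K + 1)) +
          16 * c3 * (2 ^ η * (2 ^ β + η + Nat.log 2 K + 1))) +
          99 * (2 ^ η * (2 ^ β + η + Nat.log 2 K + 1)) := by omega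
      _ = (c2 + 16 * c3 + 101) * (2 ^ η * (2 ^ β + η + Nat.log 2 K + 1)) := by ring
      _ ≤ (c2 + 16 * c3 + 200) * (2 ^ η * (2 ^ β + η + Nat.log 2 K + 1)) :=
        Nat.mul_le_mul_right _ (by omega)
  · refine decide_eq_decide.2 ?_
    obtain ⟨q, e⟩ := p
    refine exists_congr fun i => exists_congr fun t => and_congr Iff.rfl (and_congr Iff.rfl ?_)
    have hE : E (E.symm e) = e := Equiv.apply_symm_apply _ _
    show (Sum.elim x _ (Sum.elim (fun t => Sum.inr (Sum.inl (i.castSucc, t)))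
      (Sum.elim (fun ρ => Sum.inl (Sum.inl (i, ρ))) (fun ρ => Sum.inl (Sum.inr (i, ρ))))
      (E (E.symm e)))) = true ↔ _
    rw [hE]
    rcases e with t | ρ | ρ <;> exact Iff.rfl
  · have hcard : (univ.filter fun i => v x i = true).card ≤ K := by
      have : (univ.filter fun i => v x i = true) = act x := by
        unfold act
        refine Finset.filter_congr fun i _ => ?_
        exact decide_eq_true_iff
      rw [this]
      exact hx
    obtain ⟨g1, g2, g3⟩ := hFu (v x) hcard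
    have key : ∀ q i t, h i t = q → F (v x) (i, t) = true → ∀ e,
        decide (∃ i' t', h i' t' = q ∧ F (v x) (i', t') = true ∧ dat x i' e = true) =
          dat x i e := by
      intro q i t hq ht e
      refine Bool.eq_iff_iff.2 ⟨fun hh => ?_, fun hh => decide_eq_true ⟨i, t, hq, ht, hh⟩⟩
      obtain ⟨i', t', e1, e2, e3⟩ := of_decide_eq_true hh
      have : i' = i := g3 i' i t' t e2 ht (e1.trans hq.symm)
      rwa [this] at e3
    refine ⟨fun q => ?_, fun i hi => ?_⟩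
    · by_cases hq : ∃ i t, h i t = q ∧ F (v x) (i, t) = true
      · obtain ⟨i, t, hq, ht⟩ := hq
        exact Or.inr ⟨i, key q i t hq ht⟩
      · left
        intro e
        refine decide_eq_false ?_
        rintro ⟨i, t, e1, e2, -⟩
        exact hq ⟨i, t, e1, e2⟩
    · have hv : v x i = true := decide_eq_true (by
        unfold act at hi
        exact (Finset.mem_filter.1 hi).2)
      obtain ⟨t, ht⟩ := g2 i hv
      exact ⟨h i t, key _ i t rfl ht⟩

end Pool.Agent.Lin
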