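import Pool.Agent.Lib.MP_76b24b_lcL.Spec

/-!
# MP_76b24b_lc, package L: the records of one bin
-/

set_option autoImplicit false

namespace Pool.Agent.Lin

open Finset

private theorem num_succ {k : ℕ} (u : Fin (k + 1) → Bool) :
    num u = num (fun t : Fin k => u t.castSucc) + 2 ^ k * (if u (Fin.last k) = true then 1 else 0) := by
  unfold num
  rw [Fin.sum_univ_castSucc]
  congr 1
  rw [Fin.val_last]
  split_ifs <;> simp

private theorem num_lt {k : ℕ} (u : Fin k → Bool) : num u < 2 ^ k := by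
  induction k with
  | zero => simp [num]
  | succ k ih =>
    rw [num_succ, pow_succ]
    have h1 := ih (fun t : Fin k => u t.castSucc)
    split_ifs <;> omega

private theorem num_bit {k : ℕ} (u : Fin k → Bool) (t : ℕ) :
    (num u).testBit t = if h : t < k then u ⟨t, h⟩ else false := by
  induction k generalizing t with
  | zero => simp [num]
  | succ k ih =>
    rw [num_succ, add_comm, Nat.testBit_two_pow_mul_add _ (num_lt _)]
    rcases lt_trichotomy t k with h | h | h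
    · rw [if_pos h, ih, dif_pos h, dif_pos (by omega)]
      rfl
    · subst h
      rw [if_neg (lt_irrefl _), Nat.sub_self, dif_pos (Nat.lt_succ_self _)]
      change _ = u (Fin.last t)
      cases u (Fin.last t) <;> simp
    · rw [if_neg (by omega), dif_neg (by omega)]
      have h1 : t - k ≠ 0 := by omega
      split_ifs
      · exact Nat.testBit_lt_two_pow (Nat.one_lt_two_pow h1)
      · exact Nat.zero_testBit _

private theorem num_div {β η : ℕ} (u : Fin (η + β + 1) → Bool) :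
    num u / 2 ^ β = num (fun t : Fin (η + 1) => u ⟨β + t, by omega⟩) := by
  refine Nat.eq_of_testBit_eq fun t => ?_
  rw [Nat.testBit_div_two_pow, num_bit, num_bit]
  by_cases h : t < η + 1
  · rw [dif_pos h, dif_pos (by omega)]
    exact congrArg u (Fin.ext (Nat.add_comm _ _))
  · rw [dif_neg h, dif_neg (by omega)]

private theorem num_mod {β η : ℕ} (u : Fin (η + β + 1) → Bool) :
    num u % 2 ^ β = num (fun t : Fin β => u ⟨t, by omega⟩) := by
  refine Nat.eq_of_testBit_eq fun t => ?_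
  rw [Nat.testBit_mod_two_pow, num_bit, num_bit]
  by_cases h : t < β
  · rw [dif_pos h, dif_pos (by omega), decide_eq_true h, Bool.true_and]
  · rw [dif_neg h, decide_eq_false h, Bool.false_and]

theorem tFB (h1 : S_Add) (h2 : S_Loc) : S_FB := by
  obtain ⟨c1, hc1⟩ := h2
  refine ⟨c1 + 12, fun β η hβ => ?_⟩
  have hpos : 0 < 2 ^ β := Nat.two_pow_pos β
  have hs : Cx (fun (y : Fin (η + β + 1) ⊕ (Fin (2 ^ β) ⊕ Fin (2 ^ β)) → Bool)
      (p : Fin 2 × Fin (2 ^ β)) => decide (∃ ρ : Fin (2 ^ β), y (Sum.inr (Sum.inl ρ)) = true ∧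
        y (Sum.inr (Sum.inr ρ)) = true ∧ num (fun t => y (Sum.inl t)) % 2 ^ β +
          rk Fin.val (fun ρ => y (Sum.inr (Sum.inl ρ))) ρ = p.1 * 2 ^ β + p.2))
      (c1 * ((β + 1) * 2 ^ β)) := by
    have h := ((hc1 β hβ).inp (Sum.map (fun t : Fin β => (⟨t, by omega⟩ : Fin (η + β + 1)))
      (id : Fin (2 ^ β) ⊕ Fin (2 ^ β) → Fin (2 ^ β) ⊕ Fin (2 ^ β)))).out
      (fun p : Fin 2 × Fin (2 ^ β) => (⟨p.1 * 2 ^ β + p.2, by
        have h3 := p.1.2
        have h4 := p.2.2
        have h5 : (p.1 : ℕ) * 2 ^ β ≤ 1 * 2 ^ β := Nat.mul_le_mul_right _ (by omega)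
        rw [pow_succ]
        omega⟩ : Fin (2 ^ (β + 1))))
    refine h.congr fun y p => ?_
    rw [decide_eq_decide, num_mod]
    rfl
  have hk : Cx (fun (y : Fin (η + β + 1) ⊕ (Fin (2 ^ β) ⊕ Fin (2 ^ β)) → Bool) (t : Fin (η + 1)) =>
      (num (fun t => y (Sum.inl t)) / 2 ^ β + 1).testBit t) (0 + (η + 1) + 5 * (η + 1)) := by
    have : Nonempty (Fin (η + β + 1) ⊕ (Fin (2 ^ β) ⊕ Fin (2 ^ β))) := ⟨Sum.inl 0⟩
    have h3 := (Cx.proj (fun t : Fin (η + 1) =>
      (Sum.inl ⟨β + t, by omega⟩ : Fin (η + β + 1) ⊕ (Fin (2 ^ β) ⊕ Fin (2 ^ β))))).pair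
      (Cx.consts (fun t : Fin (η + 1) => (1 : ℕ).testBit t))
    rw [Fintype.card_fin] at h3
    refine (h3.comp (h1 (η + 1))).congr fun y t => ?_
    have h4 : num (fun t : Fin (η + 1) => (1 : ℕ).testBit t) = 1 := by
      refine Nat.eq_of_testBit_eq fun t => ?_
      rw [num_bit]
      by_cases h : t < η + 1
      · rw [dif_pos h]
      · rw [dif_neg h]
        exact (Nat.testBit_lt_two_pow (Nat.one_lt_two_pow (by omega))).symm
    rw [num_div]
    change (num (fun t : Fin (η + 1) => y (Sum.inl ⟨β + t, _⟩)) +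
      num (fun t : Fin (η + 1) => (1 : ℕ).testBit t)).testBit t = _
    rw [h4]
  have h0 := Cx.proj (fun t : Fin (η + 1) =>
      (Sum.inl ⟨β + t, by omega⟩ : Fin (η + β + 1) ⊕ (Fin (2 ^ β) ⊕ Fin (2 ^ β))))
  have h5 := (h0.pair (hk.pair hs)).out (fun p : Fin 2 × (Fin (η + 1) ⊕ Fin (2 ^ β)) =>
    match p with
    | (c, Sum.inl t) => if c = 0 then (Sum.inl t) else Sum.inr (Sum.inl t)
    | (c, Sum.inr e) => Sum.inr (Sum.inr (c, e)))
  refine (h5.congr ?_).mono ?_
  · rintro y ⟨c, t | e⟩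
    · have hc : c = 0 ∨ c = 1 := by omega
      rcases hc with rfl | rfl
      · change y (Sum.inl ⟨β + t, _⟩) = (num (fun t => y (Sum.inl t)) / 2 ^ β + 0).testBit t
        rw [add_zero, num_div, num_bit, dif_pos t.2]
      · rfl
    · rfl
  · have h6 : 1 ≤ (β + 1) * 2 ^ β := Nat.mul_pos (Nat.succ_pos _) hpos
    have h7 : c1 * ((β + 1) * 2 ^ β) ≤ c1 * ((β + 1) * 2 ^ β + η) :=
      Nat.mul_le_mul_left _ (Nat.le_add_right _ _)
    have h8 : (c1 + 12) * ((β + 1) * 2 ^ β + η) = c1 * ((β + 1) * 2 ^ β + η) +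
      12 * ((β + 1) * 2 ^ β + η) := add_mul _ _ _
    rw [h8]
    omega

end Pool.Agent.Lin
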