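import Pool.Agent.Lib.MP_76b24b_lcL.Spec

/-! The final statement in the format of the frozen statement. -/

set_option autoImplicit false

namespace Pool.Agent.Lin

theorem final (h : S_Top) :
    ∃ C : ℕ, ∀ n : ℕ, ∃ s : ℕ, s ≤ C * n + C ∧
      ∃ (op : Fin s → Bool → Bool → Bool)
        (left right : Fin s → (Fin n × Fin 2) ⊕ Fin s)
        (out : Fin n → Fin 2 → (Fin n × Fin 2) ⊕ Fin s),
        (∀ g h : Fin s, left g = Sum.inr h → h < g) ∧
        (∀ g h : Fin s, right g = Sum.inr h → h < g) ∧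
        ∀ (x : Fin n → Fin 3) (v : (Fin n × Fin 2) ⊕ Fin s → Bool),
          (Finset.univ.filter fun p : Fin n × Fin n => p.1 < p.2 ∧ x p.1 ≠ 2 ∧ x p.2 ≠ 2 ∧
            x p.1 ≠ x p.2 ∧ ∀ l : Fin n, p.1 < l → l < p.2 → x l = 2).card *
              Nat.log 2 n ^ 4 ≤ n →
          (∀ i : Fin n, v (Sum.inl (i, 0)) = decide (x i = 1) ∧
                        v (Sum.inl (i, 1)) = decide (x i = 2)) →
          (∀ g : Fin s, v (Sum.inr g) = op g (v (left g)) (v (right g))) →
          ∀ j : Fin n,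
            v (out j 0) = decide ((((List.ofFn x).filter (fun a => a != (2 : Fin 3))) ++
                ((List.ofFn x).filter (fun a => a == (2 : Fin 3)))).getD j.val 0 = 1) ∧
            v (out j 1) = decide ((((List.ofFn x).filter (fun a => a != (2 : Fin 3))) ++
                ((List.ofFn x).filter (fun a => a == (2 : Fin 3)))).getD j.val 0 = 2) := by
  obtain ⟨C, hC⟩ := h
  refine ⟨C, fun n => ?_⟩
  obtain ⟨F, ⟨s, hs, op, l, r, out, h1, h2, h3⟩, hF⟩ := hC n
  refine ⟨s, hs.trans (Nat.le_add_right _ _), op, l, r, fun j c => out (j, c), h1, h2, ?_⟩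
  intro x v hx hv hg j
  have h4 := h3 (fun p => v (Sum.inl p)) v (fun _ => rfl) hg
  have h5 := hF x hx (fun p => v (Sum.inl p)) (fun i => hv i) j
  rw [h4, h4]
  exact h5

end Pool.Agent.Lin
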