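import Pool.Agent.Lib.MP_76b24b_lcL.Spec

set_option autoImplicit false

namespace Pool.Agent.Lin

open Finset

private theorem front_num (k s : ℕ) : num (fun t : Fin k => s.testBit t) = s % 2 ^ k := by
  induction k with
  | zero => simp [num, Nat.mod_one]
  | succ k ih =>
    have h1 : num (fun t : Fin (k + 1) => s.testBit t)
        = num (fun t : Fin k => s.testBit t) + (if s.testBit k = true then 2 ^ k else 0) := by
      unfold num
      rw [Fin.sum_univ_castSucc]
      simp only [Fin.val_castSucc, Fin.val_last]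
    rw [h1, ih, Nat.mod_pow_succ, Nat.testBit_eq_decide_div_mod_eq]
    rcases Nat.mod_two_eq_zero_or_one (s / 2 ^ k) with h | h
    · rw [h]
      simp
    · rw [h]
      simp

private theorem front_eq {k m n : ℕ} (hm : m < 2 ^ k) (hn : n < 2 ^ k)
    (h : ∀ t : Fin k, m.testBit t = n.testBit t) : m = n := by
  have h1 : num (fun t : Fin k => m.testBit t) = num (fun t : Fin k => n.testBit t) := by
    have : (fun t : Fin k => m.testBit t) = fun t : Fin k => n.testBit t := funext h
    rw [this]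
  rwa [front_num, front_num, Nat.mod_eq_of_lt hm, Nat.mod_eq_of_lt hn] at h1

private theorem front_rk_le {b : ℕ} (P : Fin b → Bool) (ρ : Fin b) :
    rk Fin.val P (ρ : ℕ) ≤ ρ := by
  unfold rk
  calc _ ≤ (univ.filter fun a : Fin b => a < ρ).card := by
        refine card_le_card fun a ha => ?_
        rw [mem_filter] at ha ⊢
        exact ⟨mem_univ _, ha.2.1⟩
    _ = (Finset.Iio ρ).card := by
        congr 1
        ext a
        simp
    _ = ρ := Fin.card_Iio ρ

private theorem front_lt {b N : ℕ} (i j : Fin N) (ρ : ℕ) (σ : Fin b) :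
    (j : ℕ) * b + σ < i * b + ρ → ρ ≤ b → (j : ℕ) < i ∨ (j = i ∧ (σ : ℕ) < ρ) := by
  intro h hρ
  rcases lt_trichotomy (j : ℕ) i with h1 | h1 | h1
  · exact Or.inl h1
  · refine Or.inr ⟨Fin.ext h1, ?_⟩
    rw [h1] at h
    omega
  · exfalso
    have h2 : ((i : ℕ) + 1) * b ≤ j * b := Nat.mul_le_mul_right b h1
    have h3 : ((i : ℕ) + 1) * b = i * b + b := by ring
    omega

private theorem front_rk_split {b N : ℕ} (P : Fin N × Fin b → Bool) (i : Fin N) (ρ : Fin b) :
    rk (bpos b) P (bpos b (i, ρ)) = rk (bpos b) P (i * b) + rk Fin.val (fun σ => P (i, σ)) ρ := by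
  unfold rk
  have hdis : Disjoint (univ.filter fun a : Fin N × Fin b => bpos b a < i * b ∧ P a = true)
      ((univ.filter fun σ : Fin b => (σ : ℕ) < ρ ∧ P (i, σ) = true).image fun σ => (i, σ)) := by
    rw [Finset.disjoint_left]
    intro a ha ha'
    rw [mem_filter] at ha
    rw [mem_image] at ha'
    obtain ⟨σ, hσ, rfl⟩ := ha'
    have := ha.2.1
    unfold bpos at this
    simp only at this
    omega
  have hun : (univ.filter fun a : Fin N × Fin b => bpos b a < bpos b (i, ρ) ∧ P a = true)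
      = (univ.filter fun a : Fin N × Fin b => bpos b a < i * b ∧ P a = true) ∪
        ((univ.filter fun σ : Fin b => (σ : ℕ) < ρ ∧ P (i, σ) = true).image fun σ => (i, σ)) := by
    ext ⟨j, σ⟩
    rw [mem_union, mem_filter, mem_filter, mem_image]
    constructor
    · rintro ⟨-, h1, h2⟩
      unfold bpos at h1
      simp only at h1
      rcases front_lt i j ρ σ h1 ρ.isLt.le with h3 | ⟨h3, h4⟩
      · left
        refine ⟨mem_univ _, ?_, h2⟩
        unfold bpos
        simp only
        have h5 : ((j : ℕ) + 1) * b ≤ i * b := Nat.mul_le_mul_right b h3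
        have h6 : ((j : ℕ) + 1) * b = j * b + b := by ring
        have := σ.isLt
        omega
      · right
        subst h3
        exact ⟨σ, mem_filter.2 ⟨mem_univ _, h4, h2⟩, rfl⟩
    · rintro (⟨-, h1, h2⟩ | ⟨σ', h1, h2⟩)
      · refine ⟨mem_univ _, ?_, h2⟩
        unfold bpos at h1 ⊢
        simp only at h1 ⊢
        omega
      · rw [Prod.mk.injEq] at h2
        obtain ⟨rfl, rfl⟩ := h2
        rw [mem_filter] at h1
        refine ⟨mem_univ _, ?_, h1.2.2⟩
        unfold bpos
        simp only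
        have := h1.2.1
        omega
  rw [hun, card_union_of_disjoint hdis, card_image_of_injective]
  intro σ σ' h
  exact (Prod.mk.inj h).2

private theorem front_rk_blk {b N : ℕ} (P : Fin N × Fin b → Bool) (m : ℕ) :
    rk (bpos b) P (m * b) ≤ m * b := by
  unfold rk
  calc _ ≤ ((univ.filter fun a : Fin N × Fin b => bpos b a < m * b ∧ P a = true).image
        (bpos b)).card := by
        rw [card_image_of_injOn]
        rintro ⟨i, σ⟩ - ⟨j, τ⟩ - h
        unfold bpos at h
        simp only at h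
        have h1 := σ.isLt
        have h2 := τ.isLt
        have hb : 0 < b := by omega
        have h3 : ((i : ℕ) * b + σ) / b = (i : ℕ) := by
          rw [Nat.add_comm, Nat.add_mul_div_right _ _ hb, Nat.div_eq_of_lt h1, Nat.zero_add]
        have h4 : ((j : ℕ) * b + τ) / b = (j : ℕ) := by
          rw [Nat.add_comm, Nat.add_mul_div_right _ _ hb, Nat.div_eq_of_lt h2, Nat.zero_add]
        have h5 : (i : ℕ) = j := by rw [← h3, ← h4, h]
        rw [h5] at h
        refine Prod.ext (Fin.ext h5) (Fin.ext ?_)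
        simp only
        omega
    _ ≤ (range (m * b)).card := by
        refine card_le_card fun a ha => ?_
        rw [mem_image] at ha
        obtain ⟨p, hp, rfl⟩ := ha
        rw [mem_filter] at hp
        exact mem_range.2 hp.2.1
    _ = m * b := card_range _

private theorem front_size (β η : ℕ) : (β + 1) * 2 ^ β + η ≤ (η + 2 ^ β + 1) ^ 3 := by
  have h1 : β + 1 ≤ 2 ^ β := Nat.lt_two_pow_self
  have h2 : (β + 1) * 2 ^ β ≤ 2 ^ β * 2 ^ β := Nat.mul_le_mul_right _ h1
  have h3 : 2 ^ β * 2 ^ β + η ≤ (η + 2 ^ β + 1) * (η + 2 ^ β + 1) := by nlinarith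
  have h4 : (η + 2 ^ β + 1) * (η + 2 ^ β + 1) ≤ (η + 2 ^ β + 1) ^ 3 := by
    have h5 : (η + 2 ^ β + 1) ^ 3 = (η + 2 ^ β + 1) * (η + 2 ^ β + 1) * (η + 2 ^ β + 1) := by ring
    rw [h5]
    exact Nat.le_mul_of_pos_right _ (by omega)
  omega

theorem tFront (h1 : S_FA) (h2 : S_FB) : S_Front := by
  obtain ⟨c1, h1⟩ := h1
  obtain ⟨c2, h2⟩ := h2
  refine ⟨c1 + c2, ?_⟩
  intro β η μ K h hβ hμ hK
  obtain ⟨F1, hF1, hx1⟩ := h1 β η (2 ^ μ) K h (Nat.pow_le_pow_right (by norm_num) hμ) hK
  have hB := (h2 β η hβ).blocks (α := Fin (2 ^ μ))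
  have hC := (hF1.comp hB).out (fun r : (Fin 2 × Fin (2 ^ μ)) × (Fin (η + 1) ⊕ Fin (2 ^ β)) =>
    (r.1.2, (r.1.1, r.2)))
  refine ⟨fun x r => rcd (fun e => F1 x (r.1.2, e)) r.1.1 r.2, ?_, ?_⟩
  · refine hC.mono ?_
    rw [Fintype.card_fin]
    have h3 := front_size β η
    have h4 : 2 ^ μ * (c2 * ((β + 1) * 2 ^ β + η)) ≤ c2 * (2 ^ μ * (η + 2 ^ β + 1) ^ 3) := by
      calc 2 ^ μ * (c2 * ((β + 1) * 2 ^ β + η)) = c2 * (2 ^ μ * ((β + 1) * 2 ^ β + η)) := by ring
        _ ≤ _ := Nat.mul_le_mul_left _ (Nat.mul_le_mul_left _ h3)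
    nlinarith [Nat.zero_le (c1 * (2 ^ μ * (η + 2 ^ β + 1) ^ 3)),
      Nat.zero_le (c2 * (2 ^ η * (2 ^ β + η + Nat.log 2 K + 1)))]
  · intro x hx a e
    obtain ⟨hA, hB2⟩ := hx1 x hx
    have hb : 0 < 2 ^ β := by positivity
    -- the number of a block
    have hnum : ∀ i : Fin (2 ^ η), ∀ y : Fin (η + β + 1) ⊕ (Fin (2 ^ β) ⊕ Fin (2 ^ β)) → Bool,
        (∀ e, y e = dat x i e) → num (fun t => y (Sum.inl t))
          = rk (bpos (2 ^ β)) (fun p => x (Sum.inl p)) (i * 2 ^ β) := by
      intro i y hy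
      have h3 : (fun t => y (Sum.inl t)) = fun t : Fin (η + β + 1) =>
          (rk (bpos (2 ^ β)) (fun p => x (Sum.inl p)) (i * 2 ^ β)).testBit t := by
        funext t
        rw [hy]
        rfl
      rw [h3, front_num]
      refine Nat.mod_eq_of_lt ?_
      calc _ ≤ (i : ℕ) * 2 ^ β := front_rk_blk _ _
        _ < 2 ^ η * 2 ^ β := Nat.mul_lt_mul_of_pos_right i.isLt hb
        _ = 2 ^ (η + β) := (pow_add _ _ _).symm
        _ ≤ 2 ^ (η + β + 1) := Nat.pow_le_pow_right (by norm_num) (Nat.le_succ _)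
    have hdiv : ∀ i : Fin (2 ^ η),
        rk (bpos (2 ^ β)) (fun p => x (Sum.inl p)) (i * 2 ^ β) / 2 ^ β ≤ i := by
      intro i
      exact Nat.div_le_of_le_mul ((front_rk_blk _ _).trans_eq (Nat.mul_comm _ _))
    unfold cmp
    rw [decide_eq_true_iff]
    constructor
    · rintro ⟨⟨c, q⟩, ht, he⟩
      simp only at ht he
      rcases hA q with h3 | ⟨i, h3⟩
      · exfalso
        unfold rcd at he
        simp only [Sum.elim_inr, decide_eq_true_iff] at he
        obtain ⟨ρ, h4, -⟩ := he
        rw [h3] at h4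
        exact absurd h4 (by simp)
      · have hn := hnum i (fun e => F1 x (q, e)) h3
        have hd := hdiv i
        unfold rcd at ht he
        simp only [Sum.elim_inr, Sum.elim_inl, decide_eq_true_iff] at ht he
        rw [hn] at ht he
        obtain ⟨ρ, h4, h5, h6⟩ := he
        have hP : ∀ σ, F1 x (q, Sum.inr (Sum.inl σ)) = x (Sum.inl (i, σ)) := fun σ => h3 _
        have hQ : ∀ σ, F1 x (q, Sum.inr (Sum.inr σ)) = x (Sum.inr (i, σ)) := fun σ => h3 _
        rw [hP] at h4
        rw [hQ] at h5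
        have hPf : (fun σ => F1 x (q, Sum.inr (Sum.inl σ))) = fun σ => x (Sum.inl (i, σ)) :=
          funext hP
        rw [hPf] at h6
        have hkey := front_eq (k := η + 1) (m := rk (bpos (2 ^ β)) (fun p => x (Sum.inl p))
          (i * 2 ^ β) / 2 ^ β + c) (n := a) (by
            have h7 := i.isLt
            have h8 := c.isLt
            rw [pow_succ]
            omega) (by
            have h7 := a.isLt
            rw [pow_succ]
            omega) ht
        refine ⟨(i, ρ), h4, h5, ?_⟩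
        rw [front_rk_split]
        have h9 := Nat.div_add_mod (rk (bpos (2 ^ β)) (fun p => x (Sum.inl p)) (i * 2 ^ β)) (2 ^ β)
        rw [← hkey]
        have h10 : (rk (bpos (2 ^ β)) (fun p => x (Sum.inl p)) (i * 2 ^ β) / 2 ^ β + c) * 2 ^ β
          = 2 ^ β * (rk (bpos (2 ^ β)) (fun p => x (Sum.inl p)) (i * 2 ^ β) / 2 ^ β)
            + c * 2 ^ β := by ring
        rw [h10]
        omega
    · rintro ⟨⟨i, ρ⟩, h3, h4, h5⟩
      rw [front_rk_split] at h5
      have hi : i ∈ act x := by
        unfold act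
        rw [mem_filter]
        exact ⟨mem_univ _, ρ, h3, h4⟩
      obtain ⟨q, hq⟩ := hB2 i hi
      have hn := hnum i (fun e => F1 x (q, e)) hq
      have hr : rk Fin.val (fun σ => x (Sum.inl (i, σ))) ρ ≤ ρ := front_rk_le _ _
      have hρ := ρ.isLt
      have he := e.isLt
      set s := rk (bpos (2 ^ β)) (fun p => x (Sum.inl p)) (i * 2 ^ β) with hs
      set u := rk Fin.val (fun σ => x (Sum.inl (i, σ))) ρ with hu
      have h9 := Nat.div_add_mod s (2 ^ β)
      have h10 := Nat.mod_lt s hb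
      have hmul : ∀ m n : ℕ, m < n → m * 2 ^ β + 2 ^ β ≤ n * 2 ^ β := by
        intro m n hmn
        have := Nat.mul_le_mul_right (2 ^ β) hmn
        have h11 : m.succ * 2 ^ β = m * 2 ^ β + 2 ^ β := Nat.succ_mul _ _
        omega
      have h12 : 2 ^ β * (s / 2 ^ β) = s / 2 ^ β * 2 ^ β := Nat.mul_comm _ _
      -- the part
      have hcases : (s / 2 ^ β + 0 = a ∧ s % 2 ^ β + u = 0 * 2 ^ β + e) ∨
          (s / 2 ^ β + 1 = a ∧ s % 2 ^ β + u = 1 * 2 ^ β + e) := by
        rcases lt_trichotomy (s / 2 ^ β) (a : ℕ) with h13 | h13 | h13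
        · right
          have h14 := hmul _ _ h13
          rcases lt_trichotomy (s / 2 ^ β + 1) (a : ℕ) with h15 | h15 | h15
          · exfalso
            have h16 := hmul _ _ h15
            have h17 : (s / 2 ^ β + 1) * 2 ^ β = s / 2 ^ β * 2 ^ β + 2 ^ β := Nat.succ_mul _ _
            omega
          · refine ⟨h15, ?_⟩
            have h17 : (s / 2 ^ β + 1) * 2 ^ β = s / 2 ^ β * 2 ^ β + 2 ^ β := Nat.succ_mul _ _
            rw [h15] at h17
            omega
          · omega
        · left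
          refine ⟨by omega, ?_⟩
          have h18 : s / 2 ^ β * 2 ^ β = a * 2 ^ β := by rw [h13]
          omega
        · exfalso
          have h14 := hmul _ _ h13
          omega
      have hP : ∀ σ, F1 x (q, Sum.inr (Sum.inl σ)) = x (Sum.inl (i, σ)) := fun σ => hq _
      have hQ : ∀ σ, F1 x (q, Sum.inr (Sum.inr σ)) = x (Sum.inr (i, σ)) := fun σ => hq _
      have hPf : (fun σ => F1 x (q, Sum.inr (Sum.inl σ))) = fun σ => x (Sum.inl (i, σ)) :=
        funext hP
      have fin : ∀ c : Fin 2, s / 2 ^ β + c = a → s % 2 ^ β + u = c * 2 ^ β + e →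
          ∃ r : Fin 2 × Fin (2 ^ μ), (∀ t : Fin (η + 1),
            rcd (fun e => F1 x (r.2, e)) r.1 (Sum.inl t) = (a : ℕ).testBit t) ∧
            rcd (fun e => F1 x (r.2, e)) r.1 (Sum.inr e) = true := by
        intro c hc1 hc2
        refine ⟨(c, q), fun t => ?_, ?_⟩
        · unfold rcd
          simp only [Sum.elim_inl]
          rw [hn, hc1]
        · unfold rcd
          simp only [Sum.elim_inr, decide_eq_true_iff]
          refine ⟨ρ, ?_, ?_, ?_⟩
          · rw [hP]
            exact h3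
          · rw [hQ]
            exact h4
          · rw [hn, hPf]
            exact hc2
      rcases hcases with ⟨h13, h14⟩ | ⟨h13, h14⟩
      · exact fin 0 h13 h14
      · exact fin 1 h13 h14

end Pool.Agent.Lin
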