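import Pool.Agent.Lib.MP_76b24b_lcL.Spec

/-!
# MP_76b24b_lc, package L, module Gat: gather
-/

set_option autoImplicit false

namespace Pool.Agent.Lin

open Finset

theorem tGat (hOr : S_Or) : S_Gat := by
  intro N d M w h hN hd hw
  have : Nonempty ((Fin N × Fin d) × Fin w) := ⟨((⟨0, hN⟩, ⟨0, hd⟩), ⟨0, hw⟩)⟩
  -- the AND gates
  have hA := Cx.layer (ι := (Fin N × Fin d) ⊕ (Fin N × Fin w)) (κ := (Fin N × Fin d) × Fin w)
    (fun _ => and) (fun a => Sum.inl a.1) (fun a => Sum.inr (a.1.1, a.2))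
  -- the OR of a fibre
  let A : Fin M × Fin w → Finset ((Fin N × Fin d) × Fin w) := fun p =>
    univ.filter fun a => (h a.1.1 a.1.2, a.2) = p
  have hB := Cx.fam (fun (p : Fin M × Fin w) (x : (Fin N × Fin d) × Fin w → Bool) (_ : Unit) =>
    decide (∃ a ∈ A p, x a = true)) (fun p => (A p).card + 1)
    (fun p => hOr ((Fin N × Fin d) × Fin w) (A p))
  have hS : ∑ p : Fin M × Fin w, ((A p).card + 1) = N * d * w + M * w := by
    rw [sum_add_distrib]
    have e1 : ∑ p : Fin M × Fin w, (A p).card = N * d * w := by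
      have := (card_eq_sum_card_fiberwise (s := (univ : Finset ((Fin N × Fin d) × Fin w)))
        (t := (univ : Finset (Fin M × Fin w))) (f := fun a => (h a.1.1 a.1.2, a.2))
        (fun a _ => mem_coe.2 (mem_univ _))).symm
      rw [card_univ, Fintype.card_prod, Fintype.card_prod, Fintype.card_fin, Fintype.card_fin,
        Fintype.card_fin] at this
      exact this
    rw [e1, sum_const, smul_eq_mul, mul_one, card_univ, Fintype.card_prod, Fintype.card_fin,
      Fintype.card_fin]
  rw [hS] at hB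
  have hC := (hA.comp hB).out (fun p : Fin M × Fin w => (p, ()))
  rw [Fintype.card_prod, Fintype.card_prod, Fintype.card_fin, Fintype.card_fin,
    Fintype.card_fin] at hC
  refine (hC.mono (le_of_eq (by ring))).congr fun x p => Bool.eq_iff_iff.2 ⟨fun hh => ?_, fun hh => ?_⟩
  · obtain ⟨a, ha, hx⟩ := of_decide_eq_true hh
    have ha2 := (mem_filter.1 ha).2
    have hx' := (Bool.and_eq_true_iff.1 hx)
    refine decide_eq_true ⟨a.1.1, a.1.2, congrArg Prod.fst ha2, hx'.1, ?_⟩
    have e : a.2 = p.2 := congrArg Prod.snd ha2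
    rw [← e]
    exact hx'.2
  · obtain ⟨i, t, e1, e2, e3⟩ := of_decide_eq_true hh
    refine decide_eq_true ⟨((i, t), p.2), mem_filter.2 ⟨mem_univ _, Prod.ext e1 rfl⟩, ?_⟩
    exact Bool.and_eq_true_iff.2 ⟨e2, e3⟩

end Pool.Agent.Lin
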