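import Pool.Agent.Lib.MP_76b24b_lcL.Spec

/-!
# MP_76b24b_lc, package L: OR of the strings of the earlier records with the same key
-/

set_option autoImplicit false

namespace Pool.Agent.Lin

open Finset

private theorem dec_iff {p : Prop} (h : Decidable p) : @decide p h = true ↔ p :=
  @decide_eq_true_iff p h

/-! ### Numbers -/

private theorem num_succ {k : ℕ} (u : Fin (k + 1) → Bool) :
    num u = (if u 0 = true then 1 else 0) + 2 * num (fun i => u i.succ) := by
  unfold num
  rw [Fin.sum_univ_succ, Finset.mul_sum]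
  congr 1
  refine Finset.sum_congr rfl fun i _ => ?_
  by_cases h : u i.succ = true
  · rw [if_pos h, if_pos h, Fin.val_succ, pow_succ]
    ring
  · rw [if_neg h, if_neg h, mul_zero]

private theorem num_inj {k : ℕ} : ∀ (u v : Fin k → Bool), num u = num v → u = v := by
  induction k with
  | zero =>
    intro u v _
    funext i
    exact i.elim0
  | succ k ih =>
    intro u v h
    rw [num_succ, num_succ] at h
    have h1 : (if u 0 = true then 1 else 0) ≤ 1 := by split_ifs <;> omega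
    have h2 : (if v 0 = true then 1 else 0) ≤ 1 := by split_ifs <;> omega
    have h3 := ih (fun i => u i.succ) (fun i => v i.succ) (by omega)
    have h4 : (if u 0 = true then 1 else 0) = (if v 0 = true then 1 else 0) := by omega
    have h5 : u 0 = v 0 := by
      rcases hu : u 0 with _ | _ <;> rcases hv : v 0 with _ | _
      · rfl
      · rw [hu, hv] at h4
        simp at h4
      · rw [hu, hv] at h4
        simp at h4
      · rfl
    funext i
    refine Fin.cases h5 (fun i => congrFun h3 i) i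

private theorem num_testBit {k : ℕ} : ∀ m : ℕ, m < 2 ^ k →
    num (fun t : Fin k => m.testBit t) = m := by
  induction k with
  | zero =>
    intro m hm
    unfold num
    rw [Finset.univ_eq_empty, Finset.sum_empty]
    rw [pow_zero] at hm
    omega
  | succ k ih =>
    intro m hm
    rw [num_succ]
    have h1 : (fun i : Fin k => m.testBit (i.succ : Fin (k + 1))) =
        fun i : Fin k => (m / 2).testBit i := by
      funext i
      rw [Fin.val_succ, Nat.testBit_succ]
    have h2 : m.testBit ((0 : Fin (k + 1)) : ℕ) = decide (m % 2 = 1) := by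
      rw [Fin.val_zero, Nat.testBit_zero]
    change (if m.testBit ((0 : Fin (k + 1)) : ℕ) = true then 1 else 0) +
      2 * num (fun i : Fin k => m.testBit (i.succ : Fin (k + 1))) = m
    rw [h1, h2, ih (m / 2) (by rw [pow_succ] at hm; omega)]
    by_cases h3 : m % 2 = 1
    · rw [if_pos (by rw [h3]; rfl)]
      omega
    · rw [if_neg (by rw [decide_eq_true_iff]; exact h3)]
      omega

/-! ### Sorting -/

private theorem sort_eq {n : ℕ} (f : Fin n → ℕ) {i j : Fin n} (hij : j ≤ i)
    (h : f (i) = f (j)) : (Tuple.sort f).symm j ≤ (Tuple.sort f).symm i := by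
  obtain ⟨h1, h2⟩ := (Tuple.eq_sort_iff (f := f) (σ := Tuple.sort f)).1 rfl
  by_contra hcon
  rw [not_le] at hcon
  have h3 := h2 _ _ hcon (by rw [Equiv.apply_symm_apply, Equiv.apply_symm_apply, h])
  rw [Equiv.apply_symm_apply, Equiv.apply_symm_apply] at h3
  exact absurd hij (not_le.2 h3)

private theorem sort_perm {n : ℕ} (σ : Equiv.Perm (Fin n)) :
    Tuple.sort (fun i => ((σ i : Fin n) : ℕ)) = σ.symm := by
  symm
  rw [Tuple.eq_sort_iff]
  constructor
  · intro i j hij
    change ((σ (σ.symm i) : Fin n) : ℕ) ≤ ((σ (σ.symm j) : Fin n) : ℕ)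
    rw [Equiv.apply_symm_apply, Equiv.apply_symm_apply]
    exact hij
  · intro i j hij h
    exfalso
    rw [Equiv.apply_symm_apply, Equiv.apply_symm_apply] at h
    exact absurd (Fin.ext h) hij.ne

/-- No cut between `i'` and `i` if and only if the keys agree. -/
private theorem cut_iff {n : ℕ} {α : Type} (u : Fin n → α) (f : Fin n → ℕ)
    (hf : ∀ i j, f i = f j ↔ u i = u j) (i' i : Fin n) (h : i' ≤ i) (pr : Fin n → Fin n)
    (hpr : ∀ l, ((pr l : Fin n) : ℕ) = (l : ℕ) - 1) :
    (∀ l : Fin n, i' < l → l ≤ i → u ((Tuple.sort f) (pr l)) = u ((Tuple.sort f) l)) ↔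
      u ((Tuple.sort f) i') = u ((Tuple.sort f) i) := by
  have hm := Tuple.monotone_sort f
  constructor
  · intro hl
    obtain ⟨d, hd⟩ : ∃ d : ℕ, (i : ℕ) = i' + d := ⟨(i : ℕ) - i', by
      have := Fin.le_def.1 h
      omega⟩
    have key : ∀ (d : ℕ) (j : Fin n), (j : ℕ) = i' + d → j ≤ i →
        u ((Tuple.sort f) i') = u ((Tuple.sort f) j) := by
      intro d
      induction d with
      | zero =>
        intro j hj _
        rw [add_zero] at hj
        rw [Fin.ext hj]
      | succ d ih =>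
        intro j hj hji
        have h1 := hl j (Fin.lt_def.2 (by omega)) hji
        rw [← h1]
        have h2 : ((pr j : Fin n) : ℕ) = i' + d := by
          rw [hpr, hj]
          omega
        refine ih (pr j) h2 ?_
        rw [Fin.le_def] at hji ⊢
        omega
    exact key d i hd le_rfl
  · intro he l hl1 hl2
    rw [← hf] at he ⊢
    have h1 : i' ≤ pr l := by
      rw [Fin.le_def, hpr]
      have := Fin.lt_def.1 hl1
      omega
    have h2 : pr l ≤ l := by
      rw [Fin.le_def, hpr]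
      omega
    have h3 : f ((Tuple.sort f) i') ≤ f ((Tuple.sort f) (pr l)) := hm h1
    have h4 : f ((Tuple.sort f) (pr l)) ≤ f ((Tuple.sort f) l) := hm h2
    have h5 : f ((Tuple.sort f) l) ≤ f ((Tuple.sort f) i) := hm hl2
    omega

/-! ### The circuit -/

section circuit

variable {k L b : ℕ}

/-- The places in the record. -/
private def pl : (Fin L ⊕ Fin b) ⊕ Fin k ≃ Fin (L + b + k) :=
  (Equiv.sumCongr finSumFinEquiv (Equiv.refl _)).trans finSumFinEquiv

/-- The index is appended. -/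
private def aa (x : Fin (2 ^ k) × (Fin L ⊕ Fin b) → Bool) (p : Fin (2 ^ k) × Fin (L + b + k)) :
    Bool :=
  Sum.elim (fun u => x (p.1, u)) (fun t : Fin k => (p.1 : ℕ).testBit t) (pl.symm p.2)

/-- The places of the key. -/
private def lk (t : Fin L) : Fin (L + b + k) := pl (Sum.inl (Sum.inl t))

private def key (z : Fin (2 ^ k) × Fin (L + b + k) → Bool) (i : Fin (2 ^ k)) : ℕ :=
  num fun t : Fin L => z (i, lk t)

/-- The sorted records. -/
private def yy (z : Fin (2 ^ k) × Fin (L + b + k) → Bool) (p : Fin (2 ^ k) × Fin (L + b + k)) :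
    Bool := z (Tuple.sort (key z) p.1, p.2)

private def prd (i : Fin (2 ^ k)) : Fin (2 ^ k) := ⟨(i : ℕ) - 1, by omega⟩

/-- The keys of `i` and `i - 1` differ. -/
private def ct (y : Fin (2 ^ k) × Fin (L + b + k) → Bool) (i : Fin (2 ^ k)) : Bool :=
  decide (∃ t : Fin L, xor (y (i, lk t)) (y (prd i, lk t)) = true)

private def sg {N : ℕ} (x : Fin N ⊕ Fin N → Bool) (i : Fin N) : Bool :=
  decide (∃ i' : Fin N, i' ≤ i ∧ x (Sum.inr i') = true ∧
    ∀ l : Fin N, i' < l → l ≤ i → x (Sum.inl l) = false)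

/-- The segmented OR of the bit `e` of the string. -/
private def so (y : Fin (2 ^ k) × Fin (L + b + k) → Bool) (p : Fin b × Fin (2 ^ k)) : Bool :=
  sg (Sum.elim (ct y) (fun i => y (i, pl (Sum.inl (Sum.inr p.1))))) p.2

/-- The results with the indices. -/
private def rr (y : Fin (2 ^ k) × Fin (L + b + k) → Bool) (p : Fin (2 ^ k) × Fin (b + k)) : Bool :=
  Sum.elim (fun e : Fin b => so y (e, p.1)) (fun t : Fin k => y (p.1, pl (Sum.inr t)))
    (finSumFinEquiv.symm p.2)

/-- The results in the original order. -/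
private def bb (w : Fin (2 ^ k) × Fin (b + k) → Bool) (p : Fin (2 ^ k) × Fin (b + k)) : Bool :=
  w (Tuple.sort (fun i => num fun t : Fin k => w (i, finSumFinEquiv (Sum.inr t))) p.1, p.2)

private theorem cx_aa (hb : 0 < b) : Cx (aa (k := k) (L := L) (b := b)) (2 ^ k * k) := by
  have hne : Nonempty (Fin (2 ^ k) × (Fin L ⊕ Fin b)) :=
    ⟨(⟨0, Nat.two_pow_pos k⟩, Sum.inr ⟨0, hb⟩)⟩
  have h1 := (Cx.consts (ι := Fin (2 ^ k) × (Fin L ⊕ Fin b))
    (fun j : Fin (2 ^ k) × Fin k => (j.1 : ℕ).testBit j.2)).keep.out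
    (fun p : Fin (2 ^ k) × Fin (L + b + k) =>
      Sum.elim (fun u => Sum.inl (p.1, u)) (fun t : Fin k => Sum.inr (p.1, t)) (pl.symm p.2))
  rw [Fintype.card_prod, Fintype.card_fin, Fintype.card_fin] at h1
  refine h1.congr fun x p => ?_
  unfold aa
  rcases (pl.symm p.2 : (Fin L ⊕ Fin b) ⊕ Fin k) with u | t <;> rfl

private theorem cx_yy (hS : S_Sort) :
    Cx (yy (k := k) (L := L) (b := b)) (20 * L * (L + b + k) * (k + 1) * 2 ^ k) :=
  hS k (L + b + k) L lk

private theorem cx_ct (hO : S_Or) (hb : 0 < b) :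
    Cx (ct (k := k) (L := L) (b := b)) (2 ^ k * L + 2 ^ k * (L + 1)) := by
  have hne : Nonempty ((Fin (2 ^ k) × Fin (L + b + k)) ⊕ (Fin (2 ^ k) × Fin L)) :=
    ⟨Sum.inl (⟨0, Nat.two_pow_pos k⟩, ⟨0, by omega⟩)⟩
  have h1 := (Cx.layer (ι := Fin (2 ^ k) × Fin (L + b + k)) (κ := Fin (2 ^ k) × Fin L)
    (fun _ s t => xor s t) (fun j => (j.1, lk j.2)) (fun j => (prd j.1, lk j.2))).keep
  have hinj : ∀ i : Fin (2 ^ k), Function.Injective (fun t : Fin L =>
      (Sum.inr (i, t) : (Fin (2 ^ k) × Fin (L + b + k)) ⊕ (Fin (2 ^ k) × Fin L))) := by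
    intro i t t' h
    simpa using h
  have h2 := h1.comp (Cx.fam (α := Fin (2 ^ k)) _ _ (fun i => hO
    ((Fin (2 ^ k) × Fin (L + b + k)) ⊕ (Fin (2 ^ k) × Fin L)) (univ.map ⟨_, hinj i⟩)))
  have h3 := h2.out (fun i : Fin (2 ^ k) => (i, ()))
  refine (h3.mono (le_of_eq ?_)).congr fun y i => ?_
  · simp only [card_map, card_univ, Fintype.card_fin, Fintype.card_prod, sum_const, smul_eq_mul]
  · dsimp only
    unfold ct
    rw [Bool.eq_iff_iff]
    refine (dec_iff _).trans (Iff.trans ?_ (dec_iff _).symm)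
    constructor
    · rintro ⟨a, ha, hx⟩
      rw [mem_map] at ha
      obtain ⟨t, -, rfl⟩ := ha
      exact ⟨t, hx⟩
    · rintro ⟨t, ht⟩
      exact ⟨_, mem_map.2 ⟨t, mem_univ _, rfl⟩, ht⟩

private theorem cx_so (hO : S_Or) (hS : S_Seg) (hb : 0 < b) :
    Cx (so (k := k) (L := L) (b := b)) (b * (2 ^ k * L + 2 ^ k * (L + 1) + 3 * 2 ^ k)) := by
  have h1 : ∀ e : Fin b, Cx (fun (y : Fin (2 ^ k) × Fin (L + b + k) → Bool) (i : Fin (2 ^ k)) =>
      so y (e, i)) (2 ^ k * L + 2 ^ k * (L + 1) + 3 * 2 ^ k) := by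
    intro e
    have h2 : Cx (sg (N := 2 ^ k)) (3 * 2 ^ k) := hS (2 ^ k)
    have h3 := (cx_ct hO hb).ext (h2.inp
      (ι' := (Fin (2 ^ k) × Fin (L + b + k)) ⊕ Fin (2 ^ k))
      (Sum.elim (fun l => Sum.inr l) (fun i => Sum.inl (i, pl (Sum.inl (Sum.inr e))))))
    refine h3.congr fun y i => ?_
    unfold so
    congr 1
    funext l
    rcases l with l | l <;> rfl
  have h4 := Cx.fam _ _ h1
  rw [sum_const, smul_eq_mul, card_univ, Fintype.card_fin] at h4
  exact h4

private theorem cx_rr (hO : S_Or) (hS : S_Seg) (hb : 0 < b) :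
    Cx (rr (k := k) (L := L) (b := b)) (b * (2 ^ k * L + 2 ^ k * (L + 1) + 3 * 2 ^ k)) := by
  have h1 := (cx_so (k := k) (L := L) hO hS hb).keep.out
    (fun p : Fin (2 ^ k) × Fin (b + k) => Sum.elim (fun e : Fin b => Sum.inr (e, p.1))
      (fun t : Fin k => Sum.inl (p.1, pl (Sum.inr t))) (finSumFinEquiv.symm p.2))
  refine h1.congr fun y p => ?_
  unfold rr
  rcases (finSumFinEquiv.symm p.2 : Fin b ⊕ Fin k) with e | t <;> rfl

private theorem cx_bb (hS : S_Sort) :
    Cx (bb (k := k) (b := b)) (20 * k * (b + k) * (k + 1) * 2 ^ k) :=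
  hS k (b + k) k (fun t => finSumFinEquiv (Sum.inr t))

private theorem size_le (hb : 0 < b) :
    2 ^ k * k + 20 * L * (L + b + k) * (k + 1) * 2 ^ k +
        b * (2 ^ k * L + 2 ^ k * (L + 1) + 3 * 2 ^ k) + 20 * k * (b + k) * (k + 1) * 2 ^ k ≤
      45 * ((k + L + 1) * (k + L + b) * (k + 1) * 2 ^ k) := by
  obtain ⟨N, hN⟩ : ∃ N, N = 2 ^ k := ⟨_, rfl⟩
  rw [← hN]
  have e1 : N * k ≤ (k + L + 1) * (k + L + b) * (k + 1) * N := by
    have h : 1 * 1 * k * N ≤ (k + L + 1) * (k + L + b) * (k + 1) * N :=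
      Nat.mul_le_mul_right _ (Nat.mul_le_mul (Nat.mul_le_mul (by omega) (by omega)) (by omega))
    calc N * k = 1 * 1 * k * N := by ring
      _ ≤ _ := h
  have e2 : L * (L + b + k) * (k + 1) * N ≤ (k + L + 1) * (k + L + b) * (k + 1) * N :=
    Nat.mul_le_mul_right _ (Nat.mul_le_mul (Nat.mul_le_mul (by omega) (by omega)) (by omega))
  have e3 : (L + 1) * b * 1 * N ≤ (k + L + 1) * (k + L + b) * (k + 1) * N :=
    Nat.mul_le_mul_right _ (Nat.mul_le_mul (Nat.mul_le_mul (by omega) (by omega)) (by omega))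
  have e4 : k * (b + k) * (k + 1) * N ≤ (k + L + 1) * (k + L + b) * (k + 1) * N :=
    Nat.mul_le_mul_right _ (Nat.mul_le_mul (Nat.mul_le_mul (by omega) (by omega)) (by omega))
  have e5 : b * (N * L + N * (L + 1) + 3 * N) ≤ 4 * ((L + 1) * b * 1 * N) := by
    have h : N * L + N * (L + 1) + 3 * N ≤ 4 * ((L + 1) * N) := by
      have : N * L + N * (L + 1) + 3 * N = 2 * (L * N) + 4 * N := by ring
      have h2 : 4 * ((L + 1) * N) = 4 * (L * N) + 4 * N := by ring
      omega
    calc b * (N * L + N * (L + 1) + 3 * N) ≤ b * (4 * ((L + 1) * N)) := Nat.mul_le_mul_left _ h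
      _ = 4 * ((L + 1) * b * 1 * N) := by ring
  have e6 : 20 * L * (L + b + k) * (k + 1) * N = 20 * (L * (L + b + k) * (k + 1) * N) := by ring
  have e7 : 20 * k * (b + k) * (k + 1) * N = 20 * (k * (b + k) * (k + 1) * N) := by ring
  rw [e6, e7]
  omega

/-! ### Correctness -/

private theorem val (x : Fin (2 ^ k) × (Fin L ⊕ Fin b) → Bool) (p : Fin (2 ^ k) × Fin b) :
    bb (rr (yy (aa x))) (p.1, finSumFinEquiv (Sum.inl p.2)) = true ↔
      ∃ i' : Fin (2 ^ k), i' ≤ p.1 ∧ (∀ t, x (i', Sum.inl t) = x (p.1, Sum.inl t)) ∧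
        x (i', Sum.inr p.2) = true := by
  obtain ⟨u, hu⟩ : ∃ u : Fin (2 ^ k) → Fin L → Bool, u = fun i t => x (i, Sum.inl t) := ⟨_, rfl⟩
  obtain ⟨f, hf⟩ : ∃ f : Fin (2 ^ k) → ℕ, f = fun i => num (u i) := ⟨_, rfl⟩
  have hfu : ∀ i j, f i = f j ↔ u i = u j := by
    intro i j
    rw [hf]
    exact ⟨num_inj _ _, fun h => congrArg num h⟩
  have hlk : ∀ (i : Fin (2 ^ k)) (t : Fin L), aa x (i, lk t) = u i t := by
    intro i t
    unfold aa lk
    rw [Equiv.symm_apply_apply, hu]
    rfl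
  have hkey : key (aa x) = f := by
    funext i
    unfold key
    rw [hf]
    congr 1
    funext t
    exact hlk i t
  obtain ⟨σ, hσ⟩ : ∃ σ : Equiv.Perm (Fin (2 ^ k)), σ = Tuple.sort f := ⟨_, rfl⟩
  have hy : ∀ q : Fin (2 ^ k) × Fin (L + b + k), yy (aa x) q = aa x (σ q.1, q.2) := by
    intro q
    unfold yy
    rw [hkey, hσ]
  have hct : ∀ l, ct (yy (aa x)) l = false ↔ u (σ (prd l)) = u (σ l) := by
    intro l
    rw [← Bool.not_eq_true]
    unfold ct
    rw [(dec_iff _)]
    simp only [hy, hlk]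
    constructor
    · intro h
      funext t
      by_contra hcon
      exact h ⟨t, by
        revert hcon
        rcases u (σ l) t with _ | _ <;> rcases u (σ (prd l)) t with _ | _ <;> simp⟩
    · rintro h ⟨t, ht⟩
      rw [h, Bool.xor_self] at ht
      exact absurd ht (by simp)
  have hso : ∀ (e : Fin b) (i : Fin (2 ^ k)), so (yy (aa x)) (e, i) = true ↔
      ∃ i' : Fin (2 ^ k), i' ≤ i ∧ x (σ i', Sum.inr e) = true ∧ u (σ i') = u (σ i) := by
    intro e i
    unfold so sg
    refine (dec_iff _).trans (exists_congr fun i' => and_congr_right fun hle => and_congr ?_ ?_)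
    · change yy (aa x) (i', pl (Sum.inl (Sum.inr e))) = true ↔ _
      rw [hy]
      unfold aa
      rw [Equiv.symm_apply_apply]
      rfl
    · have h1 := cut_iff u f hfu i' i hle prd (fun l => rfl)
      rw [← hσ] at h1
      rw [← h1]
      refine forall_congr' fun l => forall_congr' fun _ => forall_congr' fun _ => ?_
      exact hct l
  have hrt : ∀ (i : Fin (2 ^ k)) (t : Fin k), rr (yy (aa x)) (i, finSumFinEquiv (Sum.inr t)) =
      ((σ i : Fin (2 ^ k)) : ℕ).testBit t := by
    intro i t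
    unfold rr
    rw [Equiv.symm_apply_apply]
    change yy (aa x) (i, pl (Sum.inr t)) = _
    rw [hy]
    unfold aa
    rw [Equiv.symm_apply_apply]
    rfl
  have hτ : Tuple.sort (fun i => num fun t : Fin k =>
      rr (yy (aa x)) (i, finSumFinEquiv (Sum.inr t))) = σ.symm := by
    simp only [hrt]
    have h1 : (fun i : Fin (2 ^ k) => num fun t : Fin k => ((σ i : Fin (2 ^ k)) : ℕ).testBit t) =
        fun i => ((σ i : Fin (2 ^ k)) : ℕ) := by
      funext i
      exact num_testBit _ (σ i).isLt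
    rw [h1, sort_perm]
  unfold bb
  rw [hτ]
  have h2 : rr (yy (aa x)) (σ.symm p.1, finSumFinEquiv (Sum.inl p.2)) =
      so (yy (aa x)) (p.2, σ.symm p.1) := by
    unfold rr
    rw [Equiv.symm_apply_apply]
    rfl
  change rr (yy (aa x)) (σ.symm p.1, finSumFinEquiv (Sum.inl p.2)) = true ↔ _
  rw [h2, hso]
  constructor
  · rintro ⟨i', hi, hx, hk⟩
    rw [Equiv.apply_symm_apply] at hk
    refine ⟨σ i', ?_, fun t => ?_, hx⟩
    · rcases hi.lt_or_eq with hlt | heq
      · have h3 := ((Tuple.eq_sort_iff (f := f) (σ := σ)).1 hσ).2 _ _ hlt (by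
          rw [hfu, Equiv.apply_symm_apply]
          exact hk)
        rw [Equiv.apply_symm_apply] at h3
        exact h3.le
      · rw [heq, Equiv.apply_symm_apply]
    · have h3 := congrFun hk t
      rw [hu] at h3
      exact h3
  · rintro ⟨j, hj, hk, hx⟩
    have h3 : u j = u p.1 := by
      rw [hu]
      funext t
      exact hk t
    refine ⟨σ.symm j, ?_, ?_, ?_⟩
    · rw [hσ]
      exact sort_eq f hj ((hfu _ _).2 h3.symm)
    · rw [Equiv.apply_symm_apply]
      exact hx
    · rw [Equiv.apply_symm_apply, Equiv.apply_symm_apply]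
      exact h3

end circuit

theorem tKeyOr (hO : S_Or) (hS : S_Sort) (hG : S_Seg) : S_KeyOr := by
  refine ⟨45, fun k L b hb => ?_⟩
  have h1 := (((cx_aa (k := k) (L := L) hb).comp (cx_yy hS)).comp (cx_rr hO hG hb)).comp (cx_bb hS)
  have h2 := h1.out (fun p : Fin (2 ^ k) × Fin b => (p.1, finSumFinEquiv (Sum.inl p.2)))
  refine (h2.mono (size_le hb)).congr fun x p => ?_
  rw [Bool.eq_iff_iff]
  exact (val x p).trans (dec_iff _).symm

end Pool.Agent.Lin
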