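import Pool.Agent.Lib.MP_76b24b_lcL.Spec

/-!
# MP_76b24b_lc, package L, module Loc: the string of a block, shifted
-/

set_option autoImplicit false

namespace Pool.Agent.Lin

open Finset

private theorem num_lt_aux {k : ℕ} (u : Fin k → Bool) : num u < 2 ^ k := by
  induction k with
  | zero => simp [num]
  | succ k ih =>
    have h := ih (fun i => u i.castSucc)
    have e : num u = num (fun i : Fin k => u i.castSucc) + if u (Fin.last k) = true then 2 ^ k
        else 0 := by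
      unfold num
      rw [Fin.sum_univ_castSucc]
      simp only [Fin.val_castSucc, Fin.val_last]
    rw [e, pow_succ]
    split_ifs <;> omega

private theorem rk_split (n o : ℕ) (ho : o ≤ n) (P : Fin n → Bool) (N : ℕ) (hN : N = n + n)
    (P' : Fin N → Bool) (h1 : ∀ a : Fin N, (a : ℕ) < n → P' a = decide ((a : ℕ) < o))
    (h2 : ∀ (ρ : Fin n) (a : Fin N), (a : ℕ) = n + ρ → P' a = P ρ) (ρ : ℕ) :
    rk Fin.val P' (n + ρ) = o + rk Fin.val P ρ := by
  subst hN
  unfold rk
  rw [Finset.card_filter, Fin.sum_univ_add]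
  have e1 : ∑ i : Fin n, (if (Fin.castAdd n i : Fin (n + n)).val < n + ρ ∧
      P' (Fin.castAdd n i) = true then 1 else 0) = o := by
    have e2 : ∀ i : Fin n, (if (Fin.castAdd n i : Fin (n + n)).val < n + ρ ∧
      P' (Fin.castAdd n i) = true then 1 else 0) = if (i : ℕ) < o then 1 else 0 := by
      intro i
      have h3 := h1 (Fin.castAdd n i) (by simp)
      rw [h3]
      have hi := i.isLt
      by_cases h : (i : ℕ) < o
      · rw [if_pos h, if_pos]
        refine ⟨?_, ?_⟩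
        · simp only [Fin.val_castAdd]
          omega
        · simpa using h
      · rw [if_neg h, if_neg]
        rintro ⟨-, h4⟩
        exact h (by simpa using h4)
    rw [Finset.sum_congr rfl fun i _ => e2 i, ← Finset.card_filter, Fin.card_filter_val_lt]
    exact min_eq_right ho
  rw [e1, Finset.card_filter]
  congr 1
  refine Finset.sum_congr rfl fun i _ => ?_
  have h3 := h2 i (Fin.natAdd n i) (Fin.val_natAdd n i)
  rw [h3]
  have h4 : ((Fin.natAdd n i : Fin (n + n)).val < n + ρ ∧ P i = true) ↔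
      (i.val < ρ ∧ P i = true) := by
    simp only [Fin.val_natAdd]
    constructor
    · rintro ⟨h, h'⟩
      exact ⟨by omega, h'⟩
    · rintro ⟨h, h'⟩
      exact ⟨by omega, h'⟩
  exact if_congr h4 rfl rfl

theorem tLoc (h1 : S_Naive) (h2 : S_Thr) : S_Loc := by
  refine ⟨37, fun β hβ => ?_⟩
  have : Nonempty (Fin β ⊕ (Fin (2 ^ β) ⊕ Fin (2 ^ β))) := ⟨Sum.inl ⟨0, hβ⟩⟩
  have hT := (h2 β hβ).inp (Sum.inl : Fin β → Fin β ⊕ (Fin (2 ^ β) ⊕ Fin (2 ^ β)))
  have hS := hT.pair (Cx.const (ι := Fin β ⊕ (Fin (2 ^ β) ⊕ Fin (2 ^ β))) false)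
  have e2 : 2 ^ (β + 1) = 2 ^ β + 2 ^ β := by ring
  have hlt : ∀ j : Fin (2 ^ (β + 1)), ¬ (j : ℕ) < 2 ^ β → (j : ℕ) - 2 ^ β < 2 ^ β := by
    intro j hj
    have := j.isLt
    omega
  have hN := (h1 (β + 1)).inp (Sum.elim
    (fun j => if h : (j : ℕ) < 2 ^ β then Sum.inr (Sum.inl ⟨j, h⟩) else
      Sum.inl (Sum.inr (Sum.inl ⟨(j : ℕ) - 2 ^ β, hlt j h⟩)))
    (fun j => if h : (j : ℕ) < 2 ^ β then Sum.inr (Sum.inr ()) else
      Sum.inl (Sum.inr (Sum.inr ⟨(j : ℕ) - 2 ^ β, hlt j h⟩))) :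
      Fin (2 ^ (β + 1)) ⊕ Fin (2 ^ (β + 1)) →
        (Fin β ⊕ (Fin (2 ^ β) ⊕ Fin (2 ^ β))) ⊕ (Fin (2 ^ β) ⊕ Unit))
  have hE := Cx.ext hS hN
  refine (hE.mono ?_).congr fun x j => ?_
  · have hb : 1 ≤ 2 ^ β := Nat.one_le_two_pow
    calc 4 * 2 ^ β + 1 + 8 * (β + 1 + 1) * 2 ^ (β + 1) = 16 * β * 2 ^ β + 36 * 2 ^ β + 1 := by
          rw [e2]; ring
      _ ≤ 37 * β * 2 ^ β + 37 * 2 ^ β := by nlinarith
      _ = 37 * ((β + 1) * 2 ^ β) := by ring
  · set o := num (fun t => x (Sum.inl t)) with ho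
    have hol : o < 2 ^ β := num_lt_aux _
    set P : Fin (2 ^ β) → Bool := fun ρ => x (Sum.inr (Sum.inl ρ)) with hP
    set Q : Fin (2 ^ β) → Bool := fun ρ => x (Sum.inr (Sum.inr ρ)) with hQ
    set P' : Fin (2 ^ (β + 1)) → Bool := fun i => if h : (i : ℕ) < 2 ^ β then
      decide ((i : ℕ) < o) else P ⟨(i : ℕ) - 2 ^ β, hlt i h⟩ with hP'
    set Q' : Fin (2 ^ (β + 1)) → Bool := fun i => if h : (i : ℕ) < 2 ^ β then
      false else Q ⟨(i : ℕ) - 2 ^ β, hlt i h⟩ with hQ'
    have hrk : ∀ ρ : ℕ, rk Fin.val P' (2 ^ β + ρ) = o + rk Fin.val P ρ := by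
      refine rk_split (2 ^ β) o hol.le P _ e2 P' (fun a ha => ?_) (fun ρ a ha => ?_)
      · rw [hP']
        simp only [ha, dif_pos]
      · have h : ¬ (a : ℕ) < 2 ^ β := by omega
        rw [hP']
        simp only [h, dif_neg, not_false_eq_true]
        congr 1
        exact Fin.ext (by simp only; omega)
    have hcmp : cmp Fin.val P' Q' j = decide (∃ ρ : Fin (2 ^ β), P ρ = true ∧ Q ρ = true ∧
        o + rk Fin.val P ρ = j) := by
      unfold cmp
      refine decide_eq_decide.2 ⟨?_, ?_⟩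
      · rintro ⟨a, ha, ha', hr⟩
        by_cases h : (a : ℕ) < 2 ^ β
        · rw [hQ'] at ha'
          simp [h] at ha'
        · refine ⟨⟨(a : ℕ) - 2 ^ β, hlt a h⟩, ?_, ?_, ?_⟩
          · rw [hP'] at ha
            simpa only [h, dif_neg, not_false_eq_true] using ha
          · rw [hQ'] at ha'
            simpa only [h, dif_neg, not_false_eq_true] using ha'
          · rw [← hr, ← hrk]
            congr 1
            simp only
            omega
      · rintro ⟨ρ, hp, hq, hr⟩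
        have hρ := ρ.isLt
        have h : ¬ 2 ^ β + (ρ : ℕ) < 2 ^ β := by omega
        refine ⟨⟨2 ^ β + ρ, by omega⟩, ?_, ?_, ?_⟩
        · rw [hP']
          simp only [h, dif_neg, not_false_eq_true, Nat.add_sub_cancel_left]
          exact hp
        · rw [hQ']
          simp only [h, dif_neg, not_false_eq_true, Nat.add_sub_cancel_left]
          exact hq
        · rw [← hr]
          exact hrk ρ
    rw [← hcmp]
    have hPe : (fun i : Fin (2 ^ (β + 1)) => (Sum.elim x (Sum.elim (fun j : Fin (2 ^ β) => decide ((j : ℕ) < o))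
        (fun _ : Unit => false)))
        (if h : (i : ℕ) < 2 ^ β then Sum.inr (Sum.inl ⟨i, h⟩) else
          Sum.inl (Sum.inr (Sum.inl ⟨(i : ℕ) - 2 ^ β, hlt i h⟩)))) = P' := by
      funext i
      rw [hP']
      by_cases h : (i : ℕ) < 2 ^ β
      · simp only [h, dif_pos, Sum.elim_inr, Sum.elim_inl]
      · simp only [h, dif_neg, not_false_eq_true, Sum.elim_inl, hP]
    have hQe : (fun i : Fin (2 ^ (β + 1)) => (Sum.elim x (Sum.elim (fun j : Fin (2 ^ β) => decide ((j : ℕ) < o))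
        (fun _ : Unit => false)))
        (if h : (i : ℕ) < 2 ^ β then Sum.inr (Sum.inr ()) else
          Sum.inl (Sum.inr (Sum.inr ⟨(i : ℕ) - 2 ^ β, hlt i h⟩)))) = Q' := by
      funext i
      rw [hQ']
      by_cases h : (i : ℕ) < 2 ^ β
      · simp only [h, dif_pos, Sum.elim_inr]
      · simp only [h, dif_neg, not_false_eq_true, Sum.elim_inl, hQ]
    rw [← hPe, ← hQe]
    rfl

end Pool.Agent.Lin
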