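import Pool.Agent.Lib.MP_76b24b_lcL.Spec

set_option autoImplicit false

namespace Pool.Agent.Lin

open Finset

private def pp (a : Fin 3) : Bool := a != 2

private def qq (a : Fin 3) : Bool := a == 2

private theorem rk_zero {n : ℕ} (P : Fin n → Bool) : rk Fin.val P 0 = 0 := by
  simp [rk]

private theorem rk_succ {n : ℕ} (P : Fin n → Bool) (i : Fin n) :
    rk Fin.val P ((i : ℕ) + 1) = rk Fin.val P i + if P i = true then 1 else 0 := by
  unfold rk
  by_cases h : P i = true
  · have h1 : (univ.filter fun a : Fin n => (a : ℕ) < (i : ℕ) + 1 ∧ P a = true) =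
        insert i (univ.filter fun a : Fin n => (a : ℕ) < (i : ℕ) ∧ P a = true) := by
      ext a
      simp only [mem_filter, mem_univ, true_and, mem_insert]
      constructor
      · rintro ⟨h2, h3⟩
        by_cases h4 : a = i
        · exact Or.inl h4
        · refine Or.inr ⟨?_, h3⟩
          have : (a : ℕ) ≠ i := fun h5 => h4 (Fin.ext h5)
          omega
      · rintro (rfl | ⟨h2, h3⟩)
        · exact ⟨by omega, h⟩
        · exact ⟨by omega, h3⟩
    rw [h1, card_insert_of_notMem (by simp), if_pos h]
  · have h1 : (univ.filter fun a : Fin n => (a : ℕ) < (i : ℕ) + 1 ∧ P a = true) =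
        (univ.filter fun a : Fin n => (a : ℕ) < (i : ℕ) ∧ P a = true) := by
      ext a
      simp only [mem_filter, mem_univ, true_and]
      constructor
      · rintro ⟨h2, h3⟩
        refine ⟨?_, h3⟩
        have : (a : ℕ) ≠ i := fun h5 => h (by rw [← Fin.ext h5]; exact h3)
        omega
      · rintro ⟨h2, h3⟩
        exact ⟨by omega, h3⟩
    rw [h1, if_neg h, Nat.add_zero]

private theorem rk_all {n : ℕ} (P : Fin n → Bool) :
    rk Fin.val P n = (univ.filter fun a : Fin n => P a = true).card := by
  unfold rk
  congr 1
  ext a
  simp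

private theorem take_len {n : ℕ} (x : Fin n → Fin 3) (p : Fin 3 → Bool) :
    ∀ m : ℕ, m ≤ n → (((List.ofFn x).take m).filter p).length = rk Fin.val (fun i => p (x i)) m := by
  intro m
  induction m with
  | zero => intro _; simp [rk_zero]
  | succ m ih =>
    intro hm
    have h1 : m < (List.ofFn x).length := by simp; omega
    rw [← List.take_concat_get' _ _ h1, List.filter_append, List.length_append, ih (by omega)]
    have h2 := rk_succ (fun i => p (x i)) ⟨m, by omega⟩
    simp only at h2
    rw [h2]
    congr 1
    simp only [List.getElem_ofFn]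
    by_cases h3 : p (x ⟨m, by omega⟩) = true
    · simp [h3]
    · simp [h3]

private theorem get_rk {n : ℕ} (x : Fin n → Fin 3) (p : Fin 3 → Bool) (i : Fin n)
    (h : p (x i) = true) :
    ((List.ofFn x).filter p)[rk Fin.val (fun i => p (x i)) i]? = some (x i) := by
  have h1 : (i : ℕ) < (List.ofFn x).length := by simp
  have h2 : List.ofFn x = (List.ofFn x).take i ++ (List.ofFn x).drop i :=
    (List.take_append_drop _ _).symm
  rw [← take_len x p i i.2.le]
  conv_lhs => rw [h2]
  rw [List.filter_append, List.drop_eq_getElem_cons h1]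
  have h3 : (List.ofFn x)[(i : ℕ)] = x i := by simp
  rw [h3, List.filter_cons_of_pos h, List.getElem?_append_right]
  · simp
  · simp

private theorem len_filter {n : ℕ} (x : Fin n → Fin 3) (p : Fin 3 → Bool) :
    ((List.ofFn x).filter p).length = (univ.filter fun i => p (x i) = true).card := by
  have h := take_len x p n le_rfl
  rw [rk_all] at h
  rw [← h, List.take_of_length_le (by simp)]

private theorem exists_rk {n : ℕ} (P : Fin n → Bool) (j : ℕ) :
    ∀ m : ℕ, m ≤ n → j < rk Fin.val P m → ∃ i : Fin n, P i = true ∧ rk Fin.val P i = j := by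
  intro m
  induction m with
  | zero => intro _ h; simp [rk_zero] at h
  | succ m ih =>
    intro hm h
    have h2 := rk_succ P ⟨m, by omega⟩
    simp only at h2
    rw [h2] at h
    by_cases h3 : j < rk Fin.val P m
    · exact ih (by omega) h3
    · by_cases h4 : P ⟨m, by omega⟩ = true
      · rw [if_pos h4] at h
        exact ⟨⟨m, by omega⟩, h4, by simp only; omega⟩
      · rw [if_neg h4] at h
        omega

private theorem rk_lt {n : ℕ} (P : Fin n → Bool) (i : Fin n) (h : P i = true) :
    rk Fin.val P i < (univ.filter fun a : Fin n => P a = true).card := by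
  have h1 := rk_succ P i
  rw [if_pos h] at h1
  have h2 : rk Fin.val P ((i : ℕ) + 1) ≤ (univ.filter fun a : Fin n => P a = true).card := by
    unfold rk
    apply card_le_card
    intro a
    simp
  omega

/-- **Lst**: the target in terms of ranks. -/
theorem tLst : S_Lst := by
  intro n x j
  have e1 : (fun i => decide (x i ≠ 2)) = fun i => pp (x i) := by
    funext i
    simp [pp, bne, Bool.beq_eq_decide_eq]
  have e2 : (fun a : Fin 3 => a != (2 : Fin 3)) = pp := rfl
  have e3 : (fun a : Fin 3 => a == (2 : Fin 3)) = qq := rfl
  have e4 : (univ.filter fun i => x i ≠ 2) = univ.filter fun i => pp (x i) = true := by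
    ext i
    simp [pp]
  rw [e1, e2, e3, e4]
  have hl1 := len_filter x pp
  have hl2 := len_filter x qq
  have hsum : (univ.filter fun i => pp (x i) = true).card +
      (univ.filter fun i => qq (x i) = true).card = n := by
    have h := card_filter_add_card_filter_not (s := (univ : Finset (Fin n)))
      (fun i => pp (x i) = true)
    rw [card_univ, Fintype.card_fin] at h
    have h5 : (univ.filter fun i => ¬ pp (x i) = true) = univ.filter fun i => qq (x i) = true := by
      ext i
      simp [pp, qq]
    rw [h5] at h
    exact h
  rw [List.getD_eq_getElem?_getD]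
  by_cases hj : (j : ℕ) < (univ.filter fun i => pp (x i) = true).card
  · rw [← rk_all (fun i => pp (x i))] at hj
    obtain ⟨i, hi, hr⟩ := exists_rk (fun i => pp (x i)) j n le_rfl hj
    have h1 := get_rk x pp i hi
    rw [hr] at h1
    rw [List.getElem?_append_left (by rw [hl1, ← rk_all (fun i => pp (x i))]; exact hj), h1,
      Option.getD_some]
    rw [rk_all (fun i => pp (x i))] at hj
    refine ⟨⟨fun h => ⟨i, h, hr⟩, ?_⟩, ?_⟩
    · rintro ⟨i', h2, h3⟩
      have h4 := get_rk x pp i' (by rw [h2]; rfl)
      rw [h3, h1] at h4
      rw [Option.some.injEq] at h4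
      rw [h4, h2]
    · constructor
      · intro h
        rw [h] at hi
        exact absurd hi (by decide)
      · intro h
        omega
  · push Not at hj
    have h1 : ((List.ofFn x).filter pp ++ (List.ofFn x).filter qq)[(j : ℕ)]? = some 2 := by
      rw [List.getElem?_append_right (by rw [hl1]; exact hj), hl1]
      have h2 : (j : ℕ) - (univ.filter fun i => pp (x i) = true).card <
          ((List.ofFn x).filter qq).length := by
        rw [hl2]
        have := j.2
        omega
      rw [List.getElem?_eq_getElem h2, Option.some.injEq]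
      have h3 := List.getElem_mem h2
      rw [List.mem_filter] at h3
      simpa [qq] using h3.2
    rw [h1, Option.getD_some]
    refine ⟨⟨fun h => absurd h (by decide), ?_⟩, ⟨fun _ => hj, fun _ => rfl⟩⟩
    rintro ⟨i, h2, h3⟩
    have h4 := rk_lt (fun i => pp (x i)) i (by simp only [h2]; rfl)
    rw [h3] at h4
    omega

end Pool.Agent.Lin
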