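import Pool.Agent.Lib.MP_76b24b_lcL.Spec

/-!
# MP_76b24b_lc, package L: matching by peeling
-/

set_option autoImplicit false

namespace Pool.Agent.Lin

open Finset

section Mat

variable {N d M : ℕ}

/-- The edges to the bin `q`. -/
private def edg (h : Fin N → Fin d → Fin M) (q : Fin M) : Finset (Fin N × Fin d) :=
  univ.filter fun p => h p.1 p.2 = q

/-- The bin `q` is accepted. -/
private def acc (h : Fin N → Fin d → Fin M) (x : Fin N ⊕ (Fin N × Fin d) → Bool) (q : Fin M) :
    Bool :=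
  decide (((edg h q).filter fun p => x (Sum.inl p.1) = true).card = 1)

/-- The accepted edges. -/
private def ae (h : Fin N → Fin d → Fin M) (x : Fin N ⊕ (Fin N × Fin d) → Bool)
    (p : Fin N × Fin d) : Bool :=
  x (Sum.inl p.1) && acc h x (h p.1 p.2)

/-- The edges of `i`. -/
private def own (i : Fin N) : Finset (Fin N × Fin d) := univ.filter fun p => p.1 = i

/-- One round. -/
private def rd (h : Fin N → Fin d → Fin M) (x : Fin N ⊕ (Fin N × Fin d) → Bool) :
    Fin N ⊕ (Fin N × Fin d) → Bool :=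
  Sum.elim (fun i => x (Sum.inl i) && !(decide (∃ p ∈ own i, ae h x p = true)))
    (fun p => x (Sum.inr p) || ae h x p)

/-- The first state. -/
private def ini (u : Fin N → Bool) : Fin N ⊕ (Fin N × Fin d) → Bool :=
  Sum.elim u (fun _ => false)

private theorem cx_acc (h2 : S_One) (h : Fin N → Fin d → Fin M) (hN : 0 < N) (hd : 0 < d) :
    Cx (acc h) (3 * (N * d) + 3 * M) := by
  haveI : Nonempty (Fin N × Fin d) := ⟨(⟨0, hN⟩, ⟨0, hd⟩)⟩
  have g := Cx.fam (fun (q : Fin M) (x : Fin N ⊕ (Fin N × Fin d) → Bool) (_ : Unit) =>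
      decide (((edg h q).filter fun p => x (Sum.inl p.1) = true).card = 1))
    (fun q => 3 * (edg h q).card + 3)
    (fun q => (h2 (Fin N × Fin d) (edg h q)).inp
      (fun p => (Sum.inl p.1 : Fin N ⊕ (Fin N × Fin d))))
  have g' := (g.out (fun q : Fin M => (q, ()))).congr (G := acc h) (fun _ _ => rfl)
  refine g'.mono (le_of_eq ?_)
  have e : (univ : Finset (Fin N × Fin d)).card = ∑ q : Fin M, (edg h q).card :=
    Finset.card_eq_sum_card_fiberwise (f := fun p : Fin N × Fin d => h p.1 p.2)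
      (t := (univ : Finset (Fin M))) (fun _ _ => Finset.mem_coe.2 (mem_univ _))
  rw [Finset.sum_add_distrib, ← Finset.mul_sum, ← e, Finset.card_univ, Fintype.card_prod,
    Fintype.card_fin, Fintype.card_fin, Finset.sum_const, Finset.card_univ, Fintype.card_fin,
    smul_eq_mul]
  ring

private theorem cx_ae (h2 : S_One) (h : Fin N → Fin d → Fin M) (hN : 0 < N) (hd : 0 < d) :
    Cx (ae h) (3 * (N * d) + 3 * M + N * d) := by
  have g := (cx_acc h2 h hN hd).keep.comp (Cx.layer (fun _ p q => p && q)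
    (fun p : Fin N × Fin d => (Sum.inl (Sum.inl p.1) : (Fin N ⊕ (Fin N × Fin d)) ⊕ Fin M))
    (fun p => Sum.inr (h p.1 p.2)))
  rw [Fintype.card_prod, Fintype.card_fin, Fintype.card_fin] at g
  exact g.congr (fun _ _ => rfl)

private theorem cx_or (h1 : S_Or) (hN : 0 < N) (hd : 0 < d) :
    Cx (fun (y : (Fin N ⊕ (Fin N × Fin d)) ⊕ (Fin N × Fin d) → Bool) (i : Fin N) =>
      decide (∃ p ∈ own (d := d) i, y (Sum.inr p) = true)) (N * d + N) := by
  haveI : Nonempty (Fin N × Fin d) := ⟨(⟨0, hN⟩, ⟨0, hd⟩)⟩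
  have g := Cx.fam (fun (i : Fin N) (y : (Fin N ⊕ (Fin N × Fin d)) ⊕ (Fin N × Fin d) → Bool)
      (_ : Unit) => decide (∃ p ∈ own (d := d) i, y (Sum.inr p) = true))
    (fun i => (own (d := d) i).card + 1)
    (fun i => (h1 (Fin N × Fin d) (own i)).inp
      (fun p => (Sum.inr p : (Fin N ⊕ (Fin N × Fin d)) ⊕ (Fin N × Fin d))))
  have g' := (g.out (fun i : Fin N => (i, ()))).congr
    (G := fun (y : (Fin N ⊕ (Fin N × Fin d)) ⊕ (Fin N × Fin d) → Bool) (i : Fin N) =>
      decide (∃ p ∈ own (d := d) i, y (Sum.inr p) = true)) (fun _ _ => rfl)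
  refine g'.mono (le_of_eq ?_)
  have e : (univ : Finset (Fin N × Fin d)).card = ∑ i : Fin N, (own (d := d) i).card :=
    Finset.card_eq_sum_card_fiberwise (f := fun p : Fin N × Fin d => p.1)
      (t := (univ : Finset (Fin N))) (fun _ _ => Finset.mem_coe.2 (mem_univ _))
  rw [Finset.sum_add_distrib, ← e, Finset.card_univ, Fintype.card_prod,
    Fintype.card_fin, Fintype.card_fin, Finset.sum_const, Finset.card_univ, Fintype.card_fin,
    smul_eq_mul, mul_one]

private theorem cx_rd (h1 : S_Or) (h2 : S_One) (h : Fin N → Fin d → Fin M) (hN : 0 < N)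
    (hd : 0 < d) (hM : M ≤ N) : Cx (rd h) (11 * (d * N)) := by
  have g := ((cx_ae h2 h hN hd).keep.comp (cx_or h1 hN hd).keep).comp
    (Cx.layer (κ := Fin N ⊕ (Fin N × Fin d))
      (Sum.elim (fun _ p q => p && !q) (fun _ p q => p || q))
      (Sum.elim (fun i => (Sum.inl (Sum.inl (Sum.inl i)) :
        ((Fin N ⊕ (Fin N × Fin d)) ⊕ (Fin N × Fin d)) ⊕ Fin N))
        (fun p => Sum.inl (Sum.inl (Sum.inr p))))
      (Sum.elim (fun i => Sum.inr i) (fun p => Sum.inl (Sum.inr p))))
  refine (g.congr (G := rd h) fun x j => ?_).mono ?_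
  · rcases j with i | p
    · rfl
    · rfl
  · rw [Fintype.card_sum, Fintype.card_prod, Fintype.card_fin, Fintype.card_fin]
    have e1 : N ≤ d * N := Nat.le_mul_of_pos_left N hd
    have e2 : N * d = d * N := Nat.mul_comm N d
    rw [e2]
    omega

private theorem cx_iter (h1 : S_Or) (h2 : S_One) (h : Fin N → Fin d → Fin M) (hN : 0 < N)
    (hd : 0 < d) (hM : M ≤ N) (R : ℕ) : Cx ((rd h)^[R]) (R * (11 * (d * N))) := by
  induction R with
  | zero =>
    rw [Nat.zero_mul]
    exact (Cx.proj (fun j : Fin N ⊕ (Fin N × Fin d) => j)).congr (fun _ _ => rfl)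
  | succ R ih =>
    have g := ih.comp (cx_rd h1 h2 h hN hd hM)
    rw [Nat.succ_mul]
    refine g.congr fun x j => ?_
    rw [Function.iterate_succ_apply']

private theorem cx_all (h1 : S_Or) (h2 : S_One) (h : Fin N → Fin d → Fin M) (hN : 0 < N)
    (hd : 0 < d) (hM : M ≤ N) (R : ℕ) :
    Cx (fun (u : Fin N → Bool) (p : Fin N × Fin d) => (rd h)^[R] (ini u) (Sum.inr p))
      (N * d + R * (11 * (d * N))) := by
  haveI : Nonempty (Fin N) := ⟨⟨0, hN⟩⟩
  have g0 := (Cx.consts (ι := Fin N) (κ := Fin N × Fin d) (fun _ => false)).keep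
  rw [Fintype.card_prod, Fintype.card_fin, Fintype.card_fin] at g0
  exact (g0.comp (cx_iter h1 h2 h hN hd hM R)).out Sum.inr

/-- The unmatched elements. -/
private def unm (x : Fin N ⊕ (Fin N × Fin d) → Bool) : Finset (Fin N) :=
  univ.filter fun i => x (Sum.inl i) = true

/-- The invariants. -/
private structure Inv (h : Fin N → Fin d → Fin M) (u : Fin N → Bool)
    (x : Fin N ⊕ (Fin N × Fin d) → Bool) : Prop where
  mu : ∀ p, x (Sum.inr p) = true → u p.1 = true
  mU : ∀ p, x (Sum.inr p) = true → x (Sum.inl p.1) = false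
  mh : ∀ p, x (Sum.inr p) = true → ∀ i t, x (Sum.inl i) = true → h i t ≠ h p.1 p.2
  um : ∀ i, u i = true → x (Sum.inl i) = false → ∃ t, x (Sum.inr (i, t)) = true
  mm : ∀ p p', x (Sum.inr p) = true → x (Sum.inr p') = true → h p.1 p.2 = h p'.1 p'.2 →
    p.1 = p'.1
  Uu : ∀ i, x (Sum.inl i) = true → u i = true

private theorem ae_iff (h : Fin N → Fin d → Fin M) (x : Fin N ⊕ (Fin N × Fin d) → Bool)
    (p : Fin N × Fin d) : ae h x p = true ↔ x (Sum.inl p.1) = true ∧
      ∀ p', x (Sum.inl p'.1) = true → h p'.1 p'.2 = h p.1 p.2 → p' = p := by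
  rw [ae, Bool.and_eq_true, acc, decide_eq_true_iff]
  refine and_congr_right fun hx => ?_
  rw [Finset.card_eq_one]
  constructor
  · rintro ⟨a, ha⟩ p' hp' he
    have h1 : p' ∈ (edg h (h p.1 p.2)).filter fun p => x (Sum.inl p.1) = true := by
      simp only [edg, mem_filter, mem_univ, true_and]
      exact ⟨he, hp'⟩
    have h2 : p ∈ (edg h (h p.1 p.2)).filter fun p => x (Sum.inl p.1) = true := by
      simp only [edg, mem_filter, mem_univ, true_and]
      exact hx
    rw [ha, mem_singleton] at h1 h2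
    rw [h1, h2]
  · intro hu
    refine ⟨p, ?_⟩
    ext p'
    simp only [edg, mem_filter, mem_univ, true_and, mem_singleton]
    constructor
    · rintro ⟨he, hp'⟩
      exact hu p' hp' he
    · rintro rfl
      exact ⟨rfl, hx⟩

private theorem rd_inl (h : Fin N → Fin d → Fin M) (x : Fin N ⊕ (Fin N × Fin d) → Bool)
    (i : Fin N) : rd h x (Sum.inl i) = true ↔ x (Sum.inl i) = true ∧ ∀ t, ae h x (i, t) = false := by
  simp only [rd, Sum.elim_inl, Bool.and_eq_true, Bool.not_eq_true', decide_eq_false_iff_not]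
  refine and_congr_right fun _ => ?_
  constructor
  · intro hn t
    rw [← Bool.not_eq_true]
    intro ht
    exact hn ⟨(i, t), by simp [own], ht⟩
  · rintro hn ⟨⟨i', t⟩, hi, ht⟩
    simp only [own, mem_filter, mem_univ, true_and] at hi
    subst hi
    rw [hn t] at ht
    exact Bool.false_ne_true ht

private theorem rd_inl_false (h : Fin N → Fin d → Fin M) (x : Fin N ⊕ (Fin N × Fin d) → Bool)
    (i : Fin N) : rd h x (Sum.inl i) = false ↔ (x (Sum.inl i) = true → ∃ t, ae h x (i, t) = true) := by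
  rw [← Bool.not_eq_true, rd_inl]
  constructor
  · intro hn hx
    by_contra hc
    push Not at hc
    exact hn ⟨hx, fun t => by rw [← Bool.not_eq_true]; exact hc t⟩
  · rintro hn ⟨hx, hf⟩
    obtain ⟨t, ht⟩ := hn hx
    rw [hf t] at ht
    exact Bool.false_ne_true ht

private theorem rd_inr (h : Fin N → Fin d → Fin M) (x : Fin N ⊕ (Fin N × Fin d) → Bool)
    (p : Fin N × Fin d) : rd h x (Sum.inr p) = true ↔ x (Sum.inr p) = true ∨ ae h x p = true := by
  simp only [rd, Sum.elim_inr, Bool.or_eq_true]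

private theorem inv_ini (h : Fin N → Fin d → Fin M) (u : Fin N → Bool) : Inv h u (ini u) where
  mu := fun p hp => by simp [ini] at hp
  mU := fun p hp => by simp [ini] at hp
  mh := fun p hp => by simp [ini] at hp
  um := fun i h1 h2 => by
    simp only [ini, Sum.elim_inl] at h2
    rw [h1] at h2
    exact absurd h2 (by simp)
  mm := fun p p' hp => by simp [ini] at hp
  Uu := fun i hi => hi

private theorem inv_rd (h : Fin N → Fin d → Fin M) (u : Fin N → Bool)
    (x : Fin N ⊕ (Fin N × Fin d) → Bool) (I : Inv h u x) : Inv h u (rd h x) where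
  mu := fun p hp => by
    rcases (rd_inr h x p).1 hp with h1 | h1
    · exact I.mu p h1
    · exact I.Uu _ ((ae_iff h x p).1 h1).1
  mU := fun p hp => by
    rw [rd_inl_false]
    rcases (rd_inr h x p).1 hp with h1 | h1
    · intro h2
      rw [I.mU p h1] at h2
      exact absurd h2 Bool.false_ne_true
    · intro _
      exact ⟨p.2, h1⟩
  mh := fun p hp i t hi he => by
    obtain ⟨hi1, hi2⟩ := (rd_inl h x i).1 hi
    rcases (rd_inr h x p).1 hp with h1 | h1
    · exact I.mh p h1 i t hi1 he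
    · have h3 : (i, t) = p := ((ae_iff h x p).1 h1).2 (i, t) hi1 he
      rw [← h3, hi2 t] at h1
      exact Bool.false_ne_true h1
  um := fun i h1 h2 => by
    rw [rd_inl_false] at h2
    rcases hx : x (Sum.inl i) with _ | _
    · obtain ⟨t, ht⟩ := I.um i h1 hx
      exact ⟨t, (rd_inr h x _).2 (Or.inl ht)⟩
    · obtain ⟨t, ht⟩ := h2 hx
      exact ⟨t, (rd_inr h x _).2 (Or.inr ht)⟩
  mm := fun p p' hp hp' he => by
    rcases (rd_inr h x p).1 hp with h1 | h1 <;> rcases (rd_inr h x p').1 hp' with h2 | h2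
    · exact I.mm p p' h1 h2 he
    · exact absurd he.symm (I.mh p h1 p'.1 p'.2 ((ae_iff h x p').1 h2).1)
    · exact absurd he (I.mh p' h2 p.1 p.2 ((ae_iff h x p).1 h1).1)
    · rw [((ae_iff h x p').1 h2).2 p ((ae_iff h x p).1 h1).1 he]
  Uu := fun i hi => I.Uu i ((rd_inl h x i).1 hi).1

private theorem card_rd (h : Fin N → Fin d → Fin M) (K : ℕ) (hg : Good h K)
    (x : Fin N ⊕ (Fin N × Fin d) → Bool) (hK : (unm x).card ≤ K) :
    2 * (unm (rd h x)).card ≤ (unm x).card := by
  have h1 := hg (unm x) hK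
  set S := unm x with hS
  set B := S.filter fun i => ∃ t, ∀ i' ∈ S, ∀ t', h i' t' = h i t → i' = i ∧ t' = t with hB
  have h2 : unm (rd h x) ⊆ S \ B := by
    intro i hi
    simp only [unm, mem_filter, mem_univ, true_and] at hi
    obtain ⟨hi1, hi2⟩ := (rd_inl h x i).1 hi
    rw [mem_sdiff]
    refine ⟨by rw [hS]; simp [unm, hi1], fun hb => ?_⟩
    rw [hB, mem_filter] at hb
    obtain ⟨_, t, ht⟩ := hb
    have h3 : ae h x (i, t) = true := by
      rw [ae_iff]
      refine ⟨hi1, fun p' hp' he => ?_⟩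
      obtain ⟨e1, e2⟩ := ht p'.1 (by rw [hS]; simp [unm, hp']) p'.2 he
      exact Prod.ext e1 e2
    rw [hi2 t] at h3
    exact Bool.false_ne_true h3
  have h3 := Finset.card_le_card h2
  have hBS : B ⊆ S := by
    rw [hB]
    exact Finset.filter_subset _ _
  have h4 : (S \ B).card + B.card = S.card := Finset.card_sdiff_add_card_eq_card hBS
  omega

private theorem iter_inv (h : Fin N → Fin d → Fin M) (K : ℕ) (hg : Good h K) (u : Fin N → Bool)
    (hu : (univ.filter fun i => u i = true).card ≤ K) (R : ℕ) :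
    Inv h u ((rd h)^[R] (ini u)) ∧ 2 ^ R * (unm ((rd h)^[R] (ini u))).card ≤ K := by
  induction R with
  | zero =>
    refine ⟨inv_ini h u, ?_⟩
    rw [pow_zero, one_mul]
    exact hu
  | succ R ih =>
    rw [Function.iterate_succ_apply']
    refine ⟨inv_rd h u _ ih.1, ?_⟩
    have h1 : (unm ((rd h)^[R] (ini u))).card ≤ K :=
      le_trans (Nat.le_mul_of_pos_left _ (Nat.two_pow_pos R)) ih.2
    have h2 := card_rd h K hg _ h1
    calc 2 ^ (R + 1) * (unm (rd h ((rd h)^[R] (ini u)))).card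
        = 2 ^ R * (2 * (unm (rd h ((rd h)^[R] (ini u)))).card) := by ring
      _ ≤ 2 ^ R * (unm ((rd h)^[R] (ini u))).card := Nat.mul_le_mul_left _ h2
      _ ≤ K := ih.2

end Mat

theorem tMat (h1 : S_Or) (h2 : S_One) : S_Mat := by
  refine ⟨12, fun N d M K h hN hd hM hg => ?_⟩
  refine ⟨_, (cx_all h1 h2 h hN hd hM (Nat.log 2 K + 1)).mono ?_, fun u hu => ?_⟩
  · have e : N * d = d * N := Nat.mul_comm N d
    rw [e]
    have e1 : d * N ≤ d * N * (Nat.log 2 K + 1) := Nat.le_mul_of_pos_right _ (Nat.succ_pos _)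
    calc d * N + (Nat.log 2 K + 1) * (11 * (d * N))
        ≤ d * N * (Nat.log 2 K + 1) + (Nat.log 2 K + 1) * (11 * (d * N)) := by omega
      _ = 12 * (d * N * (Nat.log 2 K + 1)) := by ring
  · obtain ⟨I, hc⟩ := iter_inv h K hg u hu (Nat.log 2 K + 1)
    have h0 : (unm ((rd h)^[Nat.log 2 K + 1] (ini u))).card = 0 := by
      by_contra hne
      have h3 : 1 ≤ (unm ((rd h)^[Nat.log 2 K + 1] (ini u))).card := Nat.one_le_iff_ne_zero.2 hne
      have h4 : K < 2 ^ (Nat.log 2 K + 1) := Nat.lt_pow_succ_log_self (by norm_num) K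
      have h5 : 2 ^ (Nat.log 2 K + 1) ≤
          2 ^ (Nat.log 2 K + 1) * (unm ((rd h)^[Nat.log 2 K + 1] (ini u))).card :=
        Nat.le_mul_of_pos_right _ h3
      omega
    rw [Finset.card_eq_zero] at h0
    have hU : ∀ i, (rd h)^[Nat.log 2 K + 1] (ini u) (Sum.inl i) = false := by
      intro i
      rw [← Bool.not_eq_true]
      intro hi
      have h6 : i ∈ unm ((rd h)^[Nat.log 2 K + 1] (ini u)) := by
        simp only [unm, mem_filter, mem_univ, true_and]
        exact hi
      rw [h0] at h6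
      exact absurd h6 (Finset.notMem_empty i)
    refine ⟨fun i t hF => I.mu (i, t) hF, fun i hi => I.um i hi (hU i), ?_⟩
    intro i i' t t' hF hF' he
    exact I.mm (i, t) (i', t') hF hF' he

end Pool.Agent.Lin
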