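import Pool.Agent.Lib.MP_76b24b_lcL.Spec

/-! Stable compaction with `O(n log n)` gates, by the parity of the rank. -/

set_option autoImplicit false

namespace Pool.Agent.Lin

open Finset

private theorem cmp_iff {α : Type} [Fintype α] (pos : α → ℕ) (P Q : α → Bool) (j : ℕ) :
    cmp pos P Q j = true ↔ ∃ a, P a = true ∧ Q a = true ∧ rk pos P (pos a) = j :=
  decide_eq_true_iff

private theorem rk_zero {m : ℕ} (P : Fin m → Bool) : rk Fin.val P 0 = 0 := by
  unfold rk
  rw [Finset.card_eq_zero, Finset.filter_eq_empty_iff]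
  intro a _
  simp

private theorem rk_succ {m : ℕ} (P : Fin m → Bool) (q : ℕ) (hq : q < m) :
    rk Fin.val P (q + 1) = rk Fin.val P q + (if P ⟨q, hq⟩ = true then 1 else 0) := by
  unfold rk
  by_cases h : P ⟨q, hq⟩ = true
  · rw [if_pos h]
    have h1 : (univ.filter fun a : Fin m => a.val < q + 1 ∧ P a = true) =
        insert ⟨q, hq⟩ (univ.filter fun a : Fin m => a.val < q ∧ P a = true) := by
      ext a
      simp only [Finset.mem_filter, Finset.mem_univ, true_and, Finset.mem_insert]
      constructor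
      · rintro ⟨h1, h2⟩
        rcases Nat.lt_succ_iff_lt_or_eq.1 h1 with h3 | h3
        · exact Or.inr ⟨h3, h2⟩
        · exact Or.inl (Fin.ext h3)
      · rintro (h1 | ⟨h1, h2⟩)
        · rw [h1]
          exact ⟨Nat.lt_succ_self q, h⟩
        · exact ⟨Nat.lt_succ_of_lt h1, h2⟩
    rw [h1, Finset.card_insert_of_notMem]
    simp
  · rw [if_neg h, add_zero]
    congr 1
    ext a
    simp only [Finset.mem_filter, Finset.mem_univ, true_and]
    constructor
    · rintro ⟨h1, h2⟩
      refine ⟨?_, h2⟩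
      rcases Nat.lt_succ_iff_lt_or_eq.1 h1 with h3 | h3
      · exact h3
      · have h4 : a = ⟨q, hq⟩ := Fin.ext h3
        rw [h4] at h2
        exact absurd h2 h
    · rintro ⟨h1, h2⟩
      exact ⟨Nat.lt_succ_of_lt h1, h2⟩

section Split

variable {m n : ℕ}

private def c0 (hm : m = 2 * n) (i : Fin n) : Fin m := ⟨2 * i, by have := i.isLt; omega⟩
private def c1 (hm : m = 2 * n) (i : Fin n) : Fin m := ⟨2 * i + 1, by have := i.isLt; omega⟩

/-- The cells with `P` and rank of the parity `c`. -/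
private def cA (P : Fin m → Bool) (c : Fin 2) (i : Fin m) : Bool :=
  P i && decide (rk Fin.val P i % 2 = (c : ℕ))

private def cP (hm : m = 2 * n) (P : Fin m → Bool) (c : Fin 2) (i : Fin n) : Bool :=
  cA P c (c0 hm i) || cA P c (c1 hm i)

private def cQ (hm : m = 2 * n) (P Q : Fin m → Bool) (c : Fin 2) (i : Fin n) : Bool :=
  (cA P c (c0 hm i) && Q (c0 hm i)) || (cA P c (c1 hm i) && Q (c1 hm i))

private theorem rk_cP (hm : m = 2 * n) (P : Fin m → Bool) (c : Fin 2) :
    ∀ i : ℕ, i ≤ n → rk Fin.val (cP hm P c) i = (rk Fin.val P (2 * i) + (1 - c)) / 2 := by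
  intro i
  induction i with
  | zero =>
    intro _
    rw [rk_zero, mul_zero, rk_zero]
    fin_cases c <;> rfl
  | succ i ih =>
    intro hi
    have h1 := rk_succ (cP hm P c) i (by omega)
    have h2 : rk Fin.val P (2 * (i + 1)) = rk Fin.val P (2 * i) +
        (if P (c0 hm ⟨i, by omega⟩) = true then 1 else 0) +
        (if P (c1 hm ⟨i, by omega⟩) = true then 1 else 0) := by
      rw [show 2 * (i + 1) = 2 * i + 1 + 1 by ring, rk_succ P (2 * i + 1) (by omega),
        rk_succ P (2 * i) (by omega)]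
      rfl
    have h3 : rk Fin.val P (2 * i + 1) = rk Fin.val P (2 * i) +
        (if P (c0 hm ⟨i, by omega⟩) = true then 1 else 0) := rk_succ P (2 * i) (by omega)
    rw [h1, ih (by omega), h2]
    have h4 : cP hm P c ⟨i, by omega⟩ = true ↔
        (P (c0 hm ⟨i, by omega⟩) = true ∧ rk Fin.val P (2 * i) % 2 = c) ∨
        (P (c1 hm ⟨i, by omega⟩) = true ∧ rk Fin.val P (2 * i + 1) % 2 = c) := by
      simp only [cP, cA, Bool.or_eq_true, Bool.and_eq_true, decide_eq_true_eq]
      rfl
    rw [h3] at h4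
    have hc := c.isLt
    generalize rk Fin.val P (2 * i) = a at *
    generalize P (c0 hm ⟨i, by omega⟩) = p0 at *
    generalize P (c1 hm ⟨i, by omega⟩) = p1 at *
    generalize cP hm P c ⟨i, by omega⟩ = u at *
    clear h3 h2 h1 ih
    cases p0 <;> cases p1 <;> cases u <;>
    simp only [if_true, Bool.false_eq_true, if_false, true_and, false_and, or_false, false_or,
      true_iff, false_iff, or_self, add_zero] at h4 ⊢ <;> omega

private theorem cmp_split (hm : m = 2 * n) (P Q : Fin m → Bool) (c : Fin 2) (r : ℕ) :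
    cmp Fin.val P Q (2 * r + c) = cmp Fin.val (cP hm P c) (cQ hm P Q c) r := by
  unfold cmp
  rw [decide_eq_decide]
  have hc := c.isLt
  constructor
  · rintro ⟨a, h1, h2, h3⟩
    have ha := a.isLt
    have hi : (a : ℕ) / 2 < n := by omega
    have h4 := rk_cP hm P c (a / 2) hi.le
    have hA : cA P c a = true := by
      simp only [cA, Bool.and_eq_true, decide_eq_true_eq]
      exact ⟨h1, by rw [h3]; omega⟩
    rcases Nat.mod_two_eq_zero_or_one (a : ℕ) with h5 | h5
    · have h6 : a = c0 hm ⟨a / 2, hi⟩ := Fin.ext (by simp only [c0]; omega)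
      refine ⟨⟨a / 2, hi⟩, ?_, ?_, ?_⟩
      · simp only [cP, Bool.or_eq_true]
        left
        rw [← h6]
        exact hA
      · simp only [cQ, Bool.or_eq_true, Bool.and_eq_true]
        left
        rw [← h6]
        exact ⟨hA, h2⟩
      · rw [h4, show 2 * ((a : ℕ) / 2) = a by omega, h3]
        omega
    · have h6 : a = c1 hm ⟨a / 2, hi⟩ := Fin.ext (by simp only [c1]; omega)
      refine ⟨⟨a / 2, hi⟩, ?_, ?_, ?_⟩
      · simp only [cP, Bool.or_eq_true]
        right
        rw [← h6]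
        exact hA
      · simp only [cQ, Bool.or_eq_true, Bool.and_eq_true]
        right
        rw [← h6]
        exact ⟨hA, h2⟩
      · have h7 := rk_succ P (2 * (a / 2)) (by omega)
        rw [show 2 * ((a : ℕ) / 2) + 1 = a by omega, h3] at h7
        rw [h4]
        split_ifs at h7 <;> omega
  · rintro ⟨i, -, h2, h3⟩
    have hi := i.isLt
    have h4 := rk_cP hm P c i hi.le
    simp only [cQ, cA, Bool.or_eq_true, Bool.and_eq_true, decide_eq_true_eq] at h2
    rw [h4] at h3
    rcases h2 with ⟨⟨h5, h6⟩, h7⟩ | ⟨⟨h5, h6⟩, h7⟩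
    · refine ⟨c0 hm i, h5, h7, ?_⟩
      change rk Fin.val P (2 * i) % 2 = c at h6
      change rk Fin.val P (2 * i) = 2 * r + c
      omega
    · refine ⟨c1 hm i, h5, h7, ?_⟩
      change rk Fin.val P (2 * i + 1) % 2 = c at h6
      change rk Fin.val P (2 * i + 1) = 2 * r + c
      have h8 := rk_succ P (2 * i) (by omega)
      split_ifs at h8 <;> omega

end Split

/-- One more signal. -/
private theorem snoc {ι : Type} {f : (ι → Bool) → ℕ → Bool} {n s t : ℕ}
    (h : Cx (fun x (i : Fin n) => f x i) s) {g : (ι ⊕ Fin n → Bool) → Unit → Bool}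
    (hg : Cx g t) (he : ∀ x, f x n = g (Sum.elim x (fun i : Fin n => f x i)) ()) :
    Cx (fun x (i : Fin (n + 1)) => f x i) (s + t) := by
  have h1 := h.keep.comp ((Cx.proj (Sum.inr : Fin n → ι ⊕ Fin n)).pair hg)
  rw [zero_add] at h1
  have h2 := h1.out (fun i : Fin (n + 1) =>
    if hi : (i : ℕ) < n then (Sum.inl ⟨i, hi⟩ : Fin n ⊕ Unit) else Sum.inr ())
  refine h2.congr fun x i => ?_
  by_cases hi : (i : ℕ) < n
  · simp only [hi, dif_pos, Sum.elim_inl, Sum.elim_inr]
  · have hi' : (i : ℕ) = n := by have := i.isLt; omega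
    simp only [hi, dif_neg, not_false_eq_true, Sum.elim_inr]
    rw [hi', he]

private theorem cx_par (m : ℕ) : ∀ n ≤ m,
    Cx (fun (P : Fin m → Bool) (i : Fin n) => decide (rk Fin.val P i % 2 = 1)) n := by
  intro n
  induction n with
  | zero =>
    intro _
    exact (Cx.proj (fun i : Fin 0 => i.elim0)).congr fun x i => i.elim0
  | succ n ih =>
    intro hn
    rcases Nat.eq_zero_or_pos n with h0 | h0
    · subst h0
      have : Nonempty (Fin m) := ⟨⟨0, by omega⟩⟩
      refine ((Cx.const (ι := Fin m) false).out (fun _ : Fin 1 => ())).congr fun x i => ?_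
      have hi : i = 0 := Subsingleton.elim _ _
      subst hi
      change false = decide (rk Fin.val x 0 % 2 = 1)
      rw [rk_zero]
      rfl
    · have h1 := ih (by omega)
      refine snoc (f := fun (P : Fin m → Bool) i => decide (rk Fin.val P i % 2 = 1)) h1
        (Cx.gate (fun a b => a ^^ b) (Sum.inl ⟨n - 1, by omega⟩ : Fin m ⊕ Fin n)
          (Sum.inr ⟨n - 1, by omega⟩)) ?_
      intro P
      simp only [Sum.elim_inl, Sum.elim_inr]
      have h2 := rk_succ P (n - 1) (by omega)
      rw [Nat.sub_add_cancel h0] at h2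
      rw [h2]
      rcases Nat.mod_two_eq_zero_or_one (rk Fin.val P (n - 1)) with h3 | h3 <;>
      by_cases h4 : P ⟨n - 1, by omega⟩ = true
      · rw [if_pos h4, h4, Nat.add_mod, h3]; rfl
      · rw [if_neg h4, Bool.not_eq_true _ |>.mp h4, add_zero, h3]; rfl
      · rw [if_pos h4, h4, Nat.add_mod, h3]; rfl
      · rw [if_neg h4, Bool.not_eq_true _ |>.mp h4, add_zero, h3]; rfl

theorem tNaive : S_Naive := by
  intro k
  induction k with
  | zero =>
    have h1 := Cx.gate (fun a b => a && b) (Sum.inl 0 : Fin (2 ^ 0) ⊕ Fin (2 ^ 0)) (Sum.inr 0)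
    refine ((h1.out (fun _ : Fin (2 ^ 0) => ())).mono (by norm_num)).congr fun x j => ?_
    have hj : (j : ℕ) = 0 := by
      have := j.isLt
      simpa using this
    change (x (Sum.inl 0) && x (Sum.inr 0)) = _
    rw [Bool.eq_iff_iff, Bool.and_eq_true, cmp_iff, hj]
    constructor
    · rintro ⟨h2, h3⟩
      exact ⟨0, h2, h3, rk_zero _⟩
    · rintro ⟨a, h2, h3, _⟩
      have ha : a = 0 := by
        apply Fin.ext
        have := a.isLt
        simpa using this
      rw [ha] at h2 h3
      exact ⟨h2, h3⟩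
  | succ k ih =>
    set n := 2 ^ k with hn
    have hm : 2 ^ (k + 1) = 2 * n := by rw [hn, pow_succ]; ring
    set m := 2 ^ (k + 1) with hmdef
    -- parities
    have h1 : Cx (fun (x : Fin m ⊕ Fin m → Bool) (i : Fin m) =>
        decide (rk Fin.val (fun i => x (Sum.inl i)) i % 2 = 1)) m :=
      (cx_par m m le_rfl).inp (Sum.inl : Fin m → Fin m ⊕ Fin m)
    -- the cells with `P` and a rank of given parity
    have h2 : Cx (fun (x : Fin m ⊕ Fin m → Bool) (p : Fin 2 × Fin m) =>
        cA (fun i => x (Sum.inl i)) p.1 p.2) (m + 2 * m) := by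
      have h3 := Cx.layer (fun (p : Fin 2 × Fin m) (a b : Bool) => a && (b == decide (p.1 = 1)))
        (fun p => (Sum.inl (Sum.inl p.2) : (Fin m ⊕ Fin m) ⊕ Fin m)) (fun p => Sum.inr p.2)
      rw [Fintype.card_prod, Fintype.card_fin, Fintype.card_fin] at h3
      refine (h1.ext h3).congr fun x p => ?_
      simp only [Sum.elim_inl, Sum.elim_inr, cA]
      congr 1
      obtain ⟨c, i⟩ := p
      have h4 := Nat.mod_lt (rk Fin.val (fun i => x (Sum.inl i)) i) (by norm_num : 0 < 2)
      fin_cases c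
      · rcases (by omega : rk Fin.val (fun i => x (Sum.inl i)) i % 2 = 0 ∨
          rk Fin.val (fun i => x (Sum.inl i)) i % 2 = 1) with h5 | h5 <;> simp [h5]
      · rcases (by omega : rk Fin.val (fun i => x (Sum.inl i)) i % 2 = 0 ∨
          rk Fin.val (fun i => x (Sum.inl i)) i % 2 = 1) with h5 | h5 <;> simp [h5]
    -- with the marks
    have h3 : Cx (fun (x : Fin m ⊕ Fin m → Bool) => Sum.elim (fun (p : Fin 2 × Fin m) =>
        cA (fun i => x (Sum.inl i)) p.1 p.2) (fun (p : Fin 2 × Fin m) =>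
        cA (fun i => x (Sum.inl i)) p.1 p.2 && x (Sum.inr p.2))) (m + 2 * m + 2 * m) := by
      have h4 := Cx.layer (fun (p : Fin 2 × Fin m) (a b : Bool) => a && b)
        (fun p => (Sum.inr p : (Fin m ⊕ Fin m) ⊕ (Fin 2 × Fin m)))
        (fun p => Sum.inl (Sum.inr p.2))
      rw [Fintype.card_prod, Fintype.card_fin, Fintype.card_fin] at h4
      have h5 := h2.ext ((Cx.proj (fun p : Fin 2 × Fin m =>
        (Sum.inr p : (Fin m ⊕ Fin m) ⊕ (Fin 2 × Fin m)))).pair h4)
      rw [zero_add] at h5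
      refine h5.congr fun x p => ?_
      rcases p with p | p <;> rfl
    -- the two halves
    have h4 : Cx (fun (x : Fin m ⊕ Fin m → Bool) (p : Fin 2 × (Fin n ⊕ Fin n)) =>
        Sum.elim (cP hm (fun i => x (Sum.inl i)) p.1)
          (cQ hm (fun i => x (Sum.inl i)) (fun i => x (Sum.inr i)) p.1) p.2)
        (m + 2 * m + 2 * m + 2 * (n + n)) := by
      have h5 := Cx.layer (fun (p : Fin 2 × (Fin n ⊕ Fin n)) (a b : Bool) => a || b)
        (fun p => (Sum.elim (fun i => Sum.inl (p.1, c0 hm i)) (fun i => Sum.inr (p.1, c0 hm i)) p.2 :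
          (Fin 2 × Fin m) ⊕ (Fin 2 × Fin m)))
        (fun p => Sum.elim (fun i => Sum.inl (p.1, c1 hm i)) (fun i => Sum.inr (p.1, c1 hm i)) p.2)
      rw [Fintype.card_prod, Fintype.card_sum, Fintype.card_fin, Fintype.card_fin] at h5
      refine (h3.comp h5).congr fun x p => ?_
      obtain ⟨c, i | i⟩ := p <;> rfl
    -- recursion
    have h5 := h4.comp (ih.blocks (α := Fin 2))
    rw [Fintype.card_fin] at h5
    have h6 := h5.out (fun j : Fin m => ((⟨j % 2, Nat.mod_lt _ (by norm_num)⟩,
      ⟨j / 2, by have := j.isLt; omega⟩) : Fin 2 × Fin n))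
    refine (h6.mono ?_).congr fun x j => ?_
    · have h7 : m = 2 * n := hm
      rw [h7]
      nlinarith [Nat.zero_le (k * n)]
    · change cmp Fin.val (fun i => Sum.elim (cP hm (fun i => x (Sum.inl i)) _)
        (cQ hm (fun i => x (Sum.inl i)) (fun i => x (Sum.inr i)) _) (Sum.inl i)) _ _ = _
      simp only [Sum.elim_inl, Sum.elim_inr]
      have h7 := cmp_split hm (fun i => x (Sum.inl i)) (fun i => x (Sum.inr i))
        ⟨j % 2, Nat.mod_lt _ (by norm_num)⟩ (j / 2)
      rw [show 2 * ((j : ℕ) / 2) + ((⟨j % 2, Nat.mod_lt _ (by norm_num)⟩ : Fin 2) : ℕ) = j from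
        Nat.div_add_mod _ _] at h7
      rw [h7]

end Pool.Agent.Lin
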