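import Pool.Agent.Lib.MP_76b24b_lcL.Spec

/-!
# MP_76b24b_lc, package L: exactly one
-/

set_option autoImplicit false

namespace Pool.Agent.Lin

open Finset

/-- The pair of signals: at least two (`true`), at least one (`false`). -/
private def oneTwo {ι : Type} [DecidableEq ι] (A : Finset ι) (x : ι → Bool) (b : Bool) : Bool :=
  if b then decide (2 ≤ (A.filter fun a => x a = true).card)
  else decide (1 ≤ (A.filter fun a => x a = true).card)

private theorem cx_oneTwo (ι : Type) [Nonempty ι] [DecidableEq ι] (A : Finset ι) :
    Cx (oneTwo A) (3 * A.card + 2) := by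
  induction A using Finset.induction_on with
  | empty =>
    have h : Cx (fun (_ : ι → Bool) (_ : Bool) => false) (Fintype.card Bool) :=
      Cx.consts (fun _ => false)
    refine (h.congr fun x b => ?_).mono (by simp)
    cases b <;> simp [oneTwo]
  | insert a A ha ih =>
    -- the gate `one ∧ x a`
    have g1 : Cx (fun (y : ι ⊕ Bool → Bool) (_ : Unit) => (y (Sum.inr false) && y (Sum.inl a))) 1 :=
      Cx.gate (fun p q => p && q) (Sum.inr false) (Sum.inl a)
    have g2 : Cx (fun (z : (ι ⊕ Bool) ⊕ Unit → Bool) (b : Bool) =>
        (z (if b then Sum.inl (Sum.inr true) else Sum.inl (Sum.inr false)) ||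
          z (if b then Sum.inr () else Sum.inl (Sum.inl a)))) (Fintype.card Bool) :=
      Cx.layer (fun _ p q => p || q)
        (fun b : Bool => if b then Sum.inl (Sum.inr true) else Sum.inl (Sum.inr false))
        (fun b : Bool => if b then Sum.inr () else Sum.inl (Sum.inl a))
    have g := ih.keep.comp (g1.keep.comp g2)
    refine (g.congr fun x b => ?_).mono ?_
    · have hc : ((insert a A).filter fun a => x a = true).card =
          (A.filter fun a => x a = true).card + if x a = true then 1 else 0 := by
        rw [Finset.filter_insert]
        by_cases hx : x a = true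
        · rw [if_pos hx, if_pos hx, Finset.card_insert_of_notMem]
          simp [ha]
        · rw [if_neg hx, if_neg hx, add_zero]
      cases b
      · simp only [oneTwo, Bool.false_eq_true, if_false, Sum.elim_inl, Sum.elim_inr, hc]
        by_cases hx : x a = true
        · simp [hx]
        · rw [Bool.not_eq_true] at hx
          simp [hx]
      · simp only [oneTwo, if_true, Sum.elim_inl, Sum.elim_inr, hc, Bool.false_eq_true, if_false]
        by_cases hx : x a = true
        · simp only [hx, if_true, Bool.and_true]
          rw [← Bool.decide_or]
          exact decide_eq_decide.2 (by omega)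
        · rw [Bool.not_eq_true] at hx
          simp [hx]
    · rw [Finset.card_insert_of_notMem ha, Fintype.card_bool]
      omega

theorem tOne : S_One := by
  intro ι _ _ A
  have g : Cx (fun (y : Bool → Bool) (_ : Unit) => (y false && !(y true))) 1 :=
    Cx.gate (fun p q => p && !q) false true
  refine ((cx_oneTwo ι A).comp g).congr fun x _ => ?_
  simp only [oneTwo, Bool.false_eq_true, if_false, if_true]
  rw [← decide_not, ← Bool.decide_and]
  exact decide_eq_decide.2 (by omega)

end Pool.Agent.Lin
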