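import Pool.Agent.Lib.MP_76b24b_lcL.Spec

/-!
# MP_76b24b_lc, package L: stable partition by one bit (S_Part)
-/

set_option autoImplicit false

namespace Pool.Agent.Lin

open Finset

private lemma partCmp {α : Type} [Fintype α] (pos : α → ℕ) (P Q : α → Bool) (j : ℕ) :
    cmp pos P Q j = true ↔ ∃ a, P a = true ∧ Q a = true ∧ rk pos P (pos a) = j := by
  unfold cmp
  exact decide_eq_true_iff

private lemma partRk0 {n : ℕ} (key : Fin n → Bool) (j : Fin n)
    (hj : key (Tuple.sort key j) = false) :
    rk Fin.val (fun i => !key i) ((Tuple.sort key j : Fin n) : ℕ) = j := by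
  unfold rk
  obtain ⟨hm, hs⟩ := (Tuple.eq_sort_iff (f := key) (σ := Tuple.sort key)).mp rfl
  have : (univ.filter fun a : Fin n => (a : ℕ) < (Tuple.sort key j : Fin n) ∧ (!key a) = true) =
      (Finset.Iio j).map (Tuple.sort key).toEmbedding := by
    ext a
    obtain ⟨i, rfl⟩ := (Tuple.sort key).surjective a
    simp only [Finset.mem_filter, Finset.mem_univ, true_and, Finset.mem_map, Finset.mem_Iio,
      Equiv.coe_toEmbedding, EmbeddingLike.apply_eq_iff_eq, exists_eq_right, Bool.not_eq_true']
    constructor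
    · rintro ⟨h1, h2⟩
      rcases lt_trichotomy i j with h | h | h
      · exact h
      · subst h
        exact absurd h1 (lt_irrefl _)
      · have := hs j i h (by rw [hj, h2])
        rw [Fin.lt_def] at this
        exact absurd h1 (by omega)
    · intro h
      have h2 : key (Tuple.sort key i) = false := by
        have := hm h.le
        simp only [Function.comp_apply] at this
        rw [hj] at this
        exact Bool.eq_false_of_not_eq_true fun h3 => by rw [h3] at this; exact absurd this (by decide)
      exact ⟨hs i j h (by rw [hj, h2]), h2⟩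
  rw [this, Finset.card_map, Fin.card_Iio]

private lemma partRk1 {n : ℕ} (key : Fin n → Bool) (j : Fin n)
    (hj : key (Tuple.sort key j) = true) :
    rk Fin.val (fun i => key (Fin.rev i)) ((Fin.rev (Tuple.sort key j) : Fin n) : ℕ) =
      (Fin.rev j : Fin n) := by
  unfold rk
  obtain ⟨hm, hs⟩ := (Tuple.eq_sort_iff (f := key) (σ := Tuple.sort key)).mp rfl
  have : (univ.filter fun a : Fin n => (a : ℕ) < (Fin.rev (Tuple.sort key j) : Fin n) ∧
      key (Fin.rev a) = true) =
      (Finset.Ioi j).map ((Tuple.sort key).trans Fin.revPerm).toEmbedding := by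
    ext a
    obtain ⟨i, rfl⟩ := ((Tuple.sort key).trans Fin.revPerm).surjective a
    simp only [Finset.mem_filter, Finset.mem_univ, true_and, Finset.mem_map, Finset.mem_Ioi,
      Equiv.coe_toEmbedding, EmbeddingLike.apply_eq_iff_eq, exists_eq_right, Equiv.trans_apply,
      Fin.revPerm_apply, Fin.rev_rev, Fin.rev_inj]
    rw [← Fin.lt_def, Fin.rev_lt_rev]
    constructor
    · rintro ⟨h1, h2⟩
      rcases lt_trichotomy i j with h | h | h
      · have := hs i j h (by rw [hj, h2])
        exact absurd h1 (not_lt.mpr this.le)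
      · subst h
        exact absurd h1 (lt_irrefl _)
      · exact h
    · intro h
      have h2 : key (Tuple.sort key i) = true := by
        have := hm h.le
        simp only [Function.comp_apply] at this
        rw [hj] at this
        by_contra h3
        rw [Bool.eq_false_of_not_eq_true h3] at this
        exact absurd this (by decide)
      exact ⟨hs j i h (by rw [hj, h2]), h2⟩
  rw [this, Finset.card_map, Fin.card_Ioi, Fin.val_rev]
  omega

private lemma partVal {n : ℕ} (key Q : Fin n → Bool) (j : Fin n) :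
    Q (Tuple.sort key j) = (cmp Fin.val (fun i => !key i) Q (j : ℕ) ||
      cmp Fin.val (fun i => key (Fin.rev i)) (fun i => Q (Fin.rev i)) ((Fin.rev j : Fin n) : ℕ)) := by
  have h0 : cmp Fin.val (fun i => !key i) Q (j : ℕ) = true ↔
      (key (Tuple.sort key j) = false ∧ Q (Tuple.sort key j) = true) := by
    rw [partCmp]
    constructor
    · rintro ⟨a, ha1, ha2, ha3⟩
      obtain ⟨i, rfl⟩ := (Tuple.sort key).surjective a
      rw [Bool.not_eq_true'] at ha1
      rw [partRk0 key i ha1] at ha3
      have : i = j := Fin.ext ha3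
      subst this
      exact ⟨ha1, ha2⟩
    · rintro ⟨h1, h2⟩
      exact ⟨Tuple.sort key j, by simp only [h1, Bool.not_false], h2, partRk0 key j h1⟩
  have h1 : cmp Fin.val (fun i => key (Fin.rev i)) (fun i => Q (Fin.rev i))
      ((Fin.rev j : Fin n) : ℕ) = true ↔
      (key (Tuple.sort key j) = true ∧ Q (Tuple.sort key j) = true) := by
    rw [partCmp]
    constructor
    · rintro ⟨a, ha1, ha2, ha3⟩
      obtain ⟨i, rfl⟩ := ((Tuple.sort key).trans Fin.revPerm).surjective a
      simp only [Equiv.trans_apply, Fin.revPerm_apply, Fin.rev_rev] at ha1 ha2 ha3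
      rw [partRk1 key i ha1] at ha3
      have : i = j := Fin.rev_injective (Fin.ext ha3)
      subst this
      exact ⟨ha1, ha2⟩
    · rintro ⟨h1, h2⟩
      exact ⟨Fin.rev (Tuple.sort key j), by simp only [Fin.rev_rev, h1],
        by simp only [Fin.rev_rev, h2], partRk1 key j h1⟩
  rw [Bool.eq_iff_iff, Bool.or_eq_true, h0, h1]
  cases key (Tuple.sort key j) <;> simp

/-- Stable partition of records by one bit. -/
theorem tPart (h : S_Naive) : S_Part := by
  intro k D e0
  have hN := h k
  have hfe : ∀ e : Fin D, Cx (fun (x : Fin (2 ^ k) × Fin D → Bool) (j : Fin (2 ^ k)) =>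
      x (Tuple.sort (fun i => x (i, e0)) j, e)) (20 * (k + 1) * 2 ^ k) := by
    intro e
    have hA := (Cx.layer (ι := Fin (2 ^ k) × Fin D) (κ := Fin (2 ^ k)) (fun _ a _ => !a)
      (fun i => (i, e0)) (fun i => (i, e0))).pair
        (Cx.proj (fun i : Fin (2 ^ k) => ((i, e) : Fin (2 ^ k) × Fin D)))
    have hB1 := hA.comp hN
    have hB2 := (hN.inp (Sum.elim (fun i => ((Fin.rev i, e0) : Fin (2 ^ k) × Fin D))
      (fun i => (Fin.rev i, e)))).out (Fin.rev : Fin (2 ^ k) → Fin (2 ^ k))
    have hC := (hB1.pair hB2).comp (Cx.layer (κ := Fin (2 ^ k)) (fun _ a b => a || b)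
      (fun j => Sum.inl j) (fun j => Sum.inr j))
    have hD := hC.congr (G := fun (x : Fin (2 ^ k) × Fin D → Bool) (j : Fin (2 ^ k)) =>
      x (Tuple.sort (fun i => x (i, e0)) j, e)) ?_
    · refine hD.mono ?_
      rw [Fintype.card_fin]
      have h1 : 1 ≤ 2 ^ k := Nat.one_le_two_pow
      nlinarith
    · intro x j
      simp only [Sum.elim_inl, Sum.elim_inr]
      exact (partVal (fun i => x (i, e0)) (fun i => x (i, e)) j).symm
  have hfam := (Cx.fam (fun (e : Fin D) (x : Fin (2 ^ k) × Fin D → Bool) (j : Fin (2 ^ k)) =>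
      x (Tuple.sort (fun i => x (i, e0)) j, e)) (fun _ => 20 * (k + 1) * 2 ^ k) hfe).out
    (fun p : Fin (2 ^ k) × Fin D => (p.2, p.1))
  refine hfam.mono (le_of_eq ?_)
  rw [Finset.sum_const, smul_eq_mul, Finset.card_univ, Fintype.card_fin]
  ring

end Pool.Agent.Lin
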