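import Pool.Agent.Lib.MP_76b24b_lcL.Spec

set_option autoImplicit false

namespace Pool.Agent.Lin

open Finset

private theorem num_testBit_mod : ∀ (k m : ℕ), num (fun t : Fin k => m.testBit t) = m % 2 ^ k
  | 0, m => by simp [num, Nat.mod_one]
  | k + 1, m => by
    have ih := num_testBit_mod k (m / 2)
    unfold num at ih ⊢
    rw [Fin.sum_univ_succ]
    have h1 : (if m.testBit ((0 : Fin (k + 1)) : ℕ) = true then 2 ^ ((0 : Fin (k + 1)) : ℕ) else 0) =
        m % 2 := by
      simp only [Fin.val_zero, pow_zero, Nat.testBit_zero, decide_eq_true_eq]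
      rcases Nat.mod_two_eq_zero_or_one m with h | h <;> simp [h]
    have h2 : (∑ i : Fin k, if m.testBit (i.succ : ℕ) = true then 2 ^ (i.succ : ℕ) else 0) =
        2 * ((m / 2) % 2 ^ k) := by
      rw [← ih, Finset.mul_sum]
      refine Finset.sum_congr rfl fun i _ => ?_
      rw [Fin.val_succ, Nat.testBit_succ, mul_ite, mul_zero, pow_succ, mul_comm]
    rw [h1, h2, pow_succ, mul_comm (2 ^ k) 2, Nat.mod_mul]

private theorem num_eq {k m : ℕ} (hm : m < 2 ^ k) (u : Fin k → Bool)
    (hu : ∀ t : Fin k, u t = m.testBit t) : num u = m := by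
  have : u = fun t : Fin k => m.testBit t := funext hu
  rw [this, num_testBit_mod, Nat.mod_eq_of_lt hm]

private def halfE (β : ℕ) : Fin 2 × Fin (2 ^ β) ≃ Fin (2 ^ (β + 1)) :=
  finProdFinEquiv.trans (finCongr (by rw [pow_succ, mul_comm]))

private theorem card_split (β : ℕ) (x : Fin (2 ^ (β + 1)) → Bool) :
    (univ.filter fun i => x i = true).card =
      (univ.filter fun i => x (halfE β (0, i)) = true).card +
      (univ.filter fun i => x (halfE β (1, i)) = true).card := by
  simp only [Finset.card_filter]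
  rw [← Fintype.sum_equiv (halfE β) (fun p => if x (halfE β p) = true then 1 else 0)
    (fun i => if x i = true then 1 else 0) (fun p => rfl), Fintype.sum_prod_type, Fin.sum_univ_two]

private theorem card_half_lt (β : ℕ) (y : Fin (2 ^ β) → Bool) :
    (univ.filter fun i => y i = true).card < 2 ^ (β + 1) := by
  have h1 : (univ.filter fun i => y i = true).card ≤ 2 ^ β := by
    refine (Finset.card_filter_le _ _).trans ?_
    simp
  have h2 : 2 ^ β < 2 ^ (β + 1) := Nat.pow_lt_pow_right (by norm_num) (Nat.lt_succ_self _)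
  omega

theorem tPop (h : S_Add) : S_Pop := by
  have key : ∀ β : ℕ, ∃ T : ℕ, T + 5 * β + 17 ≤ 17 * 2 ^ β ∧
      Cx (fun (x : Fin (2 ^ β) → Bool) (t : Fin (β + 1)) =>
        ((univ.filter fun i => x i = true).card).testBit t) T := by
    intro β
    induction β with
    | zero =>
      refine ⟨0, by norm_num, ?_⟩
      refine (Cx.proj (fun _ : Fin (0 + 1) => (0 : Fin (2 ^ 0)))).congr fun x j => ?_
      have hj : j = (0 : Fin 1) := Fin.fin_one_eq_zero j
      subst hj
      have hu : (univ : Finset (Fin (2 ^ 0))) = {0} := by decide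
      rw [hu, Finset.filter_singleton]
      cases hx : x 0 <;> simp
    | succ β ih =>
      obtain ⟨T, hT, hc⟩ := ih
      refine ⟨2 * T + 5 * β + 12, ?_, ?_⟩
      · rw [pow_succ]; omega
      have : Nonempty (Fin (2 ^ (β + 1))) := ⟨⟨0, by positivity⟩⟩
      have h1 := (hc.blocks (α := Fin 2)).inp (fun p => halfE β p)
      have h3 : Cx (fun (_ : Fin (2 ^ (β + 1)) → Bool) (_ : Unit) => false) 1 := Cx.const false
      have h4 := h1.pair h3
      have h5 := h4.out (Sum.elim
        (fun t : Fin (β + 2) => if ht : (t : ℕ) < β + 1 then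
          (Sum.inl ((0 : Fin 2), (⟨t, ht⟩ : Fin (β + 1))) : (Fin 2 × Fin (β + 1)) ⊕ Unit) else Sum.inr ())
        (fun t : Fin (β + 2) => if ht : (t : ℕ) < β + 1 then
          (Sum.inl ((1 : Fin 2), (⟨t, ht⟩ : Fin (β + 1))) : (Fin 2 × Fin (β + 1)) ⊕ Unit) else Sum.inr ()))
      have h6 := h5.comp (h (β + 2))
      refine (h6.mono ?_).congr fun x t => ?_
      · rw [Fintype.card_fin]; omega
      · have hlt : ∀ c : Fin 2, (univ.filter fun i => x (halfE β (c, i)) = true).card < 2 ^ (β + 1) :=
          fun c => card_half_lt β fun i => x (halfE β (c, i))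
        have hlt' : ∀ c : Fin 2, (univ.filter fun i => x (halfE β (c, i)) = true).card < 2 ^ (β + 2) :=
          fun c => (hlt c).trans (Nat.pow_lt_pow_right (by norm_num) (Nat.lt_succ_self _))
        have hb : ∀ (c : Fin 2) (t : Fin (β + 2)), ¬ (t : ℕ) < β + 1 →
            ((univ.filter fun i => x (halfE β (c, i)) = true).card).testBit t = false := by
          intro c t ht
          have h0 := t.isLt
          have ht' : (t : ℕ) = β + 1 := by omega
          rw [ht']
          exact Nat.testBit_lt_two_pow (hlt c)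
        have e0 := num_eq (hlt' 0) (fun t : Fin (β + 2) => Sum.elim
          (fun (p : Fin 2 × Fin (β + 1)) => ((univ.filter fun i => x (halfE β (p.1, i)) = true).card).testBit p.2)
          (fun _ : Unit => false) (Sum.elim
        (fun t : Fin (β + 2) => if ht : (t : ℕ) < β + 1 then
          (Sum.inl ((0 : Fin 2), (⟨t, ht⟩ : Fin (β + 1))) : (Fin 2 × Fin (β + 1)) ⊕ Unit) else Sum.inr ())
        (fun t : Fin (β + 2) => if ht : (t : ℕ) < β + 1 then
          (Sum.inl ((1 : Fin 2), (⟨t, ht⟩ : Fin (β + 1))) : (Fin 2 × Fin (β + 1)) ⊕ Unit) else Sum.inr ())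
            (Sum.inl t))) (by
          intro t
          by_cases ht : (t : ℕ) < β + 1
          · simp only [Sum.elim_inl, ht, dif_pos]
          · simp only [Sum.elim_inl, ht, dif_neg, not_false_eq_true, Sum.elim_inr, hb 0 t ht])
        have e1 := num_eq (hlt' 1) (fun t : Fin (β + 2) => Sum.elim
          (fun (p : Fin 2 × Fin (β + 1)) => ((univ.filter fun i => x (halfE β (p.1, i)) = true).card).testBit p.2)
          (fun _ : Unit => false) (Sum.elim
        (fun t : Fin (β + 2) => if ht : (t : ℕ) < β + 1 then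
          (Sum.inl ((0 : Fin 2), (⟨t, ht⟩ : Fin (β + 1))) : (Fin 2 × Fin (β + 1)) ⊕ Unit) else Sum.inr ())
        (fun t : Fin (β + 2) => if ht : (t : ℕ) < β + 1 then
          (Sum.inl ((1 : Fin 2), (⟨t, ht⟩ : Fin (β + 1))) : (Fin 2 × Fin (β + 1)) ⊕ Unit) else Sum.inr ())
            (Sum.inr t))) (by
          intro t
          by_cases ht : (t : ℕ) < β + 1
          · simp only [Sum.elim_inl, Sum.elim_inr, ht, dif_pos]
          · simp only [ht, dif_neg, not_false_eq_true, Sum.elim_inr, hb 1 t ht])
        rw [card_split β x]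
        refine congrArg (fun m => Nat.testBit m (t : ℕ)) ?_
        exact congrArg₂ (· + ·) e0 e1
  intro β
  obtain ⟨T, hT, hc⟩ := key β
  exact hc.mono (by omega)

end Pool.Agent.Lin
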