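import Pool.Agent.Lib.MP_76b24b_lcL.Spec

set_option autoImplicit false

namespace Pool.Agent.Lin

open Finset

private theorem num_testBit_mod : ∀ (k m : ℕ), num (fun t : Fin k => m.testBit t) = m % 2 ^ k
  | 0, m => by simp [num, Nat.mod_one]
  | k + 1, m => by
    have ih := num_testBit_mod k (m / 2)
    unfold num at ih ⊢
    rw [Fin.sum_univ_succ]
    have h1 : (if m.testBit ((0 : Fin (k + 1)) : ℕ) = true then 2 ^ ((0 : Fin (k + 1)) : ℕ) else 0) =
        m % 2 := by
      simp only [Fin.val_zero, pow_zero, Nat.testBit_zero, decide_eq_true_eq]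
      rcases Nat.mod_two_eq_zero_or_one m with h | h <;> simp [h]
    have h2 : (∑ i : Fin k, if m.testBit (i.succ : ℕ) = true then 2 ^ (i.succ : ℕ) else 0) =
        2 * ((m / 2) % 2 ^ k) := by
      rw [← ih, Finset.mul_sum]
      refine Finset.sum_congr rfl fun i _ => ?_
      rw [Fin.val_succ, Nat.testBit_succ, mul_ite, mul_zero, pow_succ, mul_comm]
    rw [h1, h2, pow_succ, mul_comm (2 ^ k) 2, Nat.mod_mul]

private theorem testBit_mod_of_lt (m k t : ℕ) (ht : t < k) : (m % 2 ^ k).testBit t = m.testBit t := by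
  rw [Nat.testBit_mod_two_pow]
  simp [ht]

private theorem testBit_congr (a b k t : ℕ) (ht : t < k) (h : a % 2 ^ k = b % 2 ^ k) :
    a.testBit t = b.testBit t := by
  rw [← testBit_mod_of_lt a k t ht, ← testBit_mod_of_lt b k t ht, h]

private def Sm {N K : ℕ} (x : Fin N × Fin K → Bool) (i : ℕ) : ℕ :=
  ∑ i' : Fin N, if (i' : ℕ) < i then num (fun t => x (i', t)) else 0

private theorem Sm_zero {N K : ℕ} (x : Fin N × Fin K → Bool) : Sm x 0 = 0 := by
  simp [Sm]

private theorem Sm_succ {N K : ℕ} (x : Fin N × Fin K → Bool) (i : ℕ) (hi : i < N) :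
    Sm x (i + 1) = Sm x i + num (fun t => x (⟨i, hi⟩, t)) := by
  unfold Sm
  have h1 : ∀ i' : Fin N, (if (i' : ℕ) < i + 1 then num (fun t => x (i', t)) else 0) =
      (if (i' : ℕ) < i then num (fun t => x (i', t)) else 0) +
      (if i' = ⟨i, hi⟩ then num (fun t => x (i', t)) else 0) := by
    intro i'
    by_cases h1 : (i' : ℕ) < i
    · have h2 : ¬ i' = ⟨i, hi⟩ := by
        intro h; rw [h] at h1; simp at h1
      rw [if_pos h1, if_pos (by omega), if_neg h2, add_zero]
    · by_cases h2 : i' = ⟨i, hi⟩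
      · have h3 : (i' : ℕ) = i := by rw [h2]
        rw [if_neg h1, if_pos (by omega), if_pos h2, zero_add]
      · have h3 : (i' : ℕ) ≠ i := fun h => h2 (Fin.ext h)
        rw [if_neg h1, if_neg (by omega), if_neg h2, zero_add]
  rw [Finset.sum_congr rfl fun i' _ => h1 i', Finset.sum_add_distrib]
  simp

private theorem step (hA : S_Add) {N K : ℕ} [Nonempty (Fin N × Fin K)] : ∀ i : ℕ, i ≤ N →
    Cx (fun (x : Fin N × Fin K → Bool) (p : Fin (i + 1) × Fin K) => (Sm x p.1).testBit p.2)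
      (1 + 5 * K * i)
  | 0, _ => by
    have h1 : Cx (fun (_ : Fin N × Fin K → Bool) (_ : Unit) => false) 1 := Cx.const false
    refine ((h1.out (fun _ : Fin (0 + 1) × Fin K => ())).mono (by omega)).congr fun x p => ?_
    have hp : ((p.1 : Fin (0 + 1)) : ℕ) = 0 := by have := p.1.isLt; omega
    rw [hp, Sm_zero]
    simp
  | i + 1, hi => by
    have ih := step hA (N := N) (K := K) i (by omega)
    have h1 := (hA K).inp (Sum.elim
      (fun t : Fin K => (Sum.inr (Fin.last i, t) : (Fin N × Fin K) ⊕ (Fin (i + 1) × Fin K)))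
      (fun t : Fin K => Sum.inl ((⟨i, by omega⟩ : Fin N), t)))
    have h2 := (ih.keep.comp h1.keep).out (fun p : Fin (i + 1 + 1) × Fin K =>
      if hp : (p.1 : ℕ) < i + 1 then
        (Sum.inl (Sum.inr ((⟨p.1, hp⟩ : Fin (i + 1)), p.2)) :
          ((Fin N × Fin K) ⊕ (Fin (i + 1) × Fin K)) ⊕ Fin K) else Sum.inr p.2)
    refine (h2.mono (by ring_nf; exact le_rfl)).congr fun x p => ?_
    by_cases hp : (p.1 : ℕ) < i + 1
    · simp only [hp, dif_pos, Sum.elim_inl, Sum.elim_inr]
    · have hp' : (p.1 : ℕ) = i + 1 := by have := p.1.isLt; omega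
      simp only [hp, dif_neg, not_false_eq_true, Sum.elim_inl, Sum.elim_inr, Fin.val_last]
      rw [hp', Sm_succ x i (by omega), num_testBit_mod]
      refine testBit_congr _ _ K _ p.2.isLt ?_
      rw [Nat.mod_add_mod]

private theorem rk_eq (β N : ℕ) (P : Fin N × Fin (2 ^ β) → Bool) (i : ℕ) :
    rk (bpos (2 ^ β)) P (i * 2 ^ β) =
      ∑ i' : Fin N, if (i' : ℕ) < i then (univ.filter fun ρ => P (i', ρ) = true).card else 0 := by
  unfold rk
  rw [Finset.card_filter, Fintype.sum_prod_type]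
  refine Finset.sum_congr rfl fun i' _ => ?_
  have hlt : ∀ ρ : Fin (2 ^ β), (bpos (2 ^ β) (i', ρ) < i * 2 ^ β ↔ (i' : ℕ) < i) := by
    intro ρ
    have hρ := ρ.isLt
    unfold bpos
    simp only
    constructor
    · intro h
      by_contra hc
      have : i * 2 ^ β ≤ (i' : ℕ) * 2 ^ β := Nat.mul_le_mul_right _ (not_lt.1 hc)
      omega
    · intro h
      have : ((i' : ℕ) + 1) * 2 ^ β ≤ i * 2 ^ β := Nat.mul_le_mul_right _ h
      rw [add_mul, one_mul] at this
      omega
  by_cases hi : (i' : ℕ) < i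
  · rw [if_pos hi, Finset.card_filter]
    refine Finset.sum_congr rfl fun ρ _ => ?_
    simp only [hlt ρ, hi, true_and]
  · rw [if_neg hi]
    refine Finset.sum_eq_zero fun ρ _ => ?_
    simp only [hlt ρ, hi, false_and, if_false]

theorem tPre (hA : S_Add) (hP : S_Pop) : S_Pre := by
  refine ⟨22, fun β η => ?_⟩
  have : Nonempty (Fin (2 ^ η) × Fin (η + β + 1)) := ⟨(⟨0, by positivity⟩, ⟨0, by omega⟩)⟩
  have : Nonempty (Fin (2 ^ η) × Fin (2 ^ β)) := ⟨(⟨0, by positivity⟩, ⟨0, by positivity⟩)⟩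
  have h1 := (hP β).blocks (α := Fin (2 ^ η))
  have h0 : Cx (fun (_ : Fin (2 ^ η) × Fin (2 ^ β) → Bool) (_ : Unit) => false) 1 := Cx.const false
  have h2 := (h1.pair h0).out (fun p : Fin (2 ^ η) × Fin (η + β + 1) =>
    if hp : (p.2 : ℕ) < β + 1 then
      (Sum.inl (p.1, (⟨p.2, hp⟩ : Fin (β + 1))) : (Fin (2 ^ η) × Fin (β + 1)) ⊕ Unit) else Sum.inr ())
  have h3 := h2.comp (step hA (N := 2 ^ η) (K := η + β + 1) (2 ^ η) le_rfl)
  refine (h3.mono ?_).congr fun P p => ?_
  · have hβ : β < 2 ^ β := Nat.lt_two_pow_self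
    have hη : 1 ≤ 2 ^ η := Nat.one_le_two_pow
    rw [Fintype.card_fin]
    have e1 : 2 ^ η * (17 * 2 ^ β) + 1 + (1 + 5 * (η + β + 1) * 2 ^ η) =
        2 ^ η * (17 * 2 ^ β + 5 * (η + β + 1)) + 2 := by ring
    have e2 : 22 * (2 ^ η * (2 ^ β + η + 1)) = 2 ^ η * (22 * (2 ^ β + η + 1)) := by ring
    rw [e1, e2]
    calc 2 ^ η * (17 * 2 ^ β + 5 * (η + β + 1)) + 2
        ≤ 2 ^ η * (17 * 2 ^ β + 5 * (η + β + 1)) + 2 ^ η * 2 := by omega
      _ = 2 ^ η * (17 * 2 ^ β + 5 * (η + β + 1) + 2) := by ring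
      _ ≤ 2 ^ η * (22 * (2 ^ β + η + 1)) := Nat.mul_le_mul_left _ (by omega)
  · congr 1
    rw [rk_eq]
    unfold Sm
    refine Finset.sum_congr rfl fun i' _ => ?_
    by_cases hi : (i' : ℕ) < (p.1 : ℕ)
    · rw [if_pos hi, if_pos hi]
      have hc : (univ.filter fun ρ => P (i', ρ) = true).card < 2 ^ (β + 1) := by
        have h1 : (univ.filter fun ρ => P (i', ρ) = true).card ≤ 2 ^ β := by
          refine (Finset.card_filter_le _ _).trans ?_
          simp
        have h2 : 2 ^ β < 2 ^ (β + 1) := Nat.pow_lt_pow_right (by norm_num) (Nat.lt_succ_self _)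
        omega
      have hc' : (univ.filter fun ρ => P (i', ρ) = true).card < 2 ^ (η + β + 1) :=
        hc.trans_le (Nat.pow_le_pow_right (by norm_num) (by omega))
      have e := num_testBit_mod (η + β + 1) (univ.filter fun ρ => P (i', ρ) = true).card
      rw [Nat.mod_eq_of_lt hc'] at e
      rw [← e]
      congr 1
      funext t
      by_cases ht : (t : ℕ) < β + 1
      · simp only [ht, dif_pos, Sum.elim_inl]
      · simp only [ht, dif_neg, not_false_eq_true, Sum.elim_inr]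
        exact (Nat.testBit_lt_two_pow (hc.trans_le (Nat.pow_le_pow_right (by norm_num) (by omega)))).symm
    · rw [if_neg hi, if_neg hi]

end Pool.Agent.Lin
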