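import Pool.Agent.Lib.MP_76b24b_lcL.Spec

set_option autoImplicit false

namespace Pool.Agent.Lin

open Finset

theorem tSca (hOr : S_Or) : S_Sca := by
  intro N d M w h hN hd
  have : Nonempty (Fin d) := ⟨⟨0, hd⟩⟩
  have h1 := Cx.layer (ι := (Fin N × Fin d) ⊕ (Fin M × Fin w)) (κ := Fin N × Fin d × Fin w)
    (fun _ a b => a && b) (fun q => Sum.inl (q.1, q.2.1)) (fun q => Sum.inr (h q.1 q.2.1, q.2.2))
  have h2 := Cx.fam (fun (p : Fin N × Fin w) (y : Fin N × Fin d × Fin w → Bool) (_ : Unit) =>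
    decide (∃ t ∈ (univ : Finset (Fin d)), y (p.1, t, p.2) = true)) (fun _ => d + 1) (fun p => by
      have h3 := (hOr (Fin d) univ).inp (fun t => ((p.1, t, p.2) : Fin N × Fin d × Fin w))
      rw [Finset.card_univ, Fintype.card_fin] at h3
      exact h3.congr fun x j => decide_eq_decide.2 Iff.rfl)
  have h4 := (h1.comp h2).out (fun p : Fin N × Fin w => (p, ()))
  refine (h4.mono ?_).congr fun x p => ?_
  · simp only [Fintype.card_prod, Fintype.card_fin, Finset.sum_const, smul_eq_mul, Finset.card_univ]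
    refine le_of_eq ?_
    ring
  · simp only [Finset.mem_univ, true_and, Bool.and_eq_true]

end Pool.Agent.Lin
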