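import Pool.Agent.Lib.MP_76b24b_lcL.Spec

/-! Segmented OR. -/

set_option autoImplicit false

namespace Pool.Agent.Lin

private theorem seg_cast {n : ℕ} (x : Fin (n + 1) ⊕ Fin (n + 1) → Bool) (i : Fin n) :
    (∃ i' : Fin n, i' ≤ i ∧ x (Sum.inr i'.castSucc) = true ∧
      ∀ l : Fin n, i' < l → l ≤ i → x (Sum.inl l.castSucc) = false) ↔
    (∃ i' : Fin (n + 1), i' ≤ i.castSucc ∧ x (Sum.inr i') = true ∧
      ∀ l : Fin (n + 1), i' < l → l ≤ i.castSucc → x (Sum.inl l) = false) := by
  constructor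
  · rintro ⟨i', h1, h2, h3⟩
    refine ⟨i'.castSucc, Fin.castSucc_le_castSucc_iff.2 h1, h2, fun l hl hl' => ?_⟩
    have hlt : l.val < n := by
      have h4 := Fin.le_def.1 hl'
      have h5 := i.isLt
      simp only [Fin.val_castSucc] at h4
      omega
    have h6 := h3 ⟨l.val, hlt⟩ (by rw [Fin.lt_def] at hl ⊢; simpa using hl)
      (by rw [Fin.le_def] at hl' ⊢; simpa using hl')
    have h7 : (⟨l.val, hlt⟩ : Fin n).castSucc = l := Fin.ext rfl
    rwa [h7] at h6
  · rintro ⟨i', h1, h2, h3⟩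
    have hlt : i'.val < n := by
      have h4 := Fin.le_def.1 h1
      have h5 := i.isLt
      simp only [Fin.val_castSucc] at h4
      omega
    have h7 : (⟨i'.val, hlt⟩ : Fin n).castSucc = i' := Fin.ext rfl
    refine ⟨⟨i'.val, hlt⟩, ?_, by rw [h7]; exact h2, fun l hl hl' => ?_⟩
    · rw [Fin.le_def] at h1 ⊢
      simpa using h1
    · refine h3 l.castSucc ?_ (Fin.castSucc_le_castSucc_iff.2 hl')
      rw [Fin.lt_def] at hl ⊢
      simpa using hl

private theorem seg_last {n : ℕ} (x : Fin (n + 1) ⊕ Fin (n + 1) → Bool) (m : Fin n)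
    (hm : m.val + 1 = n) :
    (x (Sum.inr (Fin.last n)) = true ∨ (x (Sum.inl (Fin.last n)) = false ∧
      ∃ i' : Fin n, i' ≤ m ∧ x (Sum.inr i'.castSucc) = true ∧
      ∀ l : Fin n, i' < l → l ≤ m → x (Sum.inl l.castSucc) = false)) ↔
    (∃ i' : Fin (n + 1), i' ≤ Fin.last n ∧ x (Sum.inr i') = true ∧
      ∀ l : Fin (n + 1), i' < l → l ≤ Fin.last n → x (Sum.inl l) = false) := by
  constructor
  · rintro (h | ⟨h, i', h1, h2, h3⟩)
    · exact ⟨Fin.last n, le_rfl, h, fun l hl hl' => absurd hl (not_lt.2 hl')⟩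
    · refine ⟨i'.castSucc, Fin.le_last _, h2, fun l => ?_⟩
      refine Fin.lastCases (fun _ _ => h) (fun l hl _ => ?_) l
      refine h3 l ?_ ?_
      · rw [Fin.lt_def] at hl ⊢
        simpa using hl
      · rw [Fin.le_def]
        have := l.isLt
        omega
  · rintro ⟨i', h1, h2, h3⟩
    rcases Fin.eq_castSucc_or_eq_last i' with ⟨i, rfl⟩ | rfl
    · refine Or.inr ⟨h3 _ (Fin.castSucc_lt_last i) le_rfl, i, ?_, h2, fun l hl hl' => ?_⟩
      · rw [Fin.le_def]
        have := i.isLt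
        omega
      · refine h3 l.castSucc ?_ (Fin.le_last _)
        rw [Fin.lt_def] at hl ⊢
        simpa using hl
    · exact Or.inl h2

theorem tSeg : S_Seg := by
  intro n
  induction n with
  | zero =>
    exact (Cx.proj (fun i : Fin 0 => (Sum.inr i : Fin 0 ⊕ Fin 0))).congr fun x j => j.elim0
  | succ n ih =>
    rcases Nat.eq_zero_or_pos n with rfl | hn
    · refine ((Cx.proj (fun i : Fin (0 + 1) => (Sum.inr i : Fin (0 + 1) ⊕ Fin (0 + 1)))).mono
        (by omega)).congr fun x j => ?_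
      rw [Bool.eq_iff_iff, decide_eq_true_iff]
      constructor
      · intro h
        exact ⟨j, le_rfl, h, fun l hl hl' => absurd hl (not_lt.2 hl')⟩
      · rintro ⟨i', h1, h2, _⟩
        have h3 : i' = j := Subsingleton.elim (α := Fin 1) _ _
        rwa [h3] at h2
    · let m : Fin n := ⟨n - 1, by omega⟩
      have h1 := (ih.inp (Sum.map Fin.castSucc Fin.castSucc :
        Fin n ⊕ Fin n → Fin (n + 1) ⊕ Fin (n + 1))).keep
      have h2 := h1.comp (Cx.gate (fun c g => !c && g)
        (Sum.inl (Sum.inl (Fin.last n)) : (Fin (n + 1) ⊕ Fin (n + 1)) ⊕ Fin n) (Sum.inr m)).keep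
      have h3 := h2.comp (Cx.gate (fun v a => v || a)
        (Sum.inl (Sum.inl (Sum.inr (Fin.last n))) :
          ((Fin (n + 1) ⊕ Fin (n + 1)) ⊕ Fin n) ⊕ Unit) (Sum.inr ())).keep
      have h4 := h3.out (fun j : Fin (n + 1) =>
        if h : j.val < n then Sum.inl (Sum.inl (Sum.inr (⟨j.val, h⟩ : Fin n))) else Sum.inr ())
      refine (h4.congr ?_).mono (by omega)
      intro x j
      refine Fin.lastCases ?_ (fun i => ?_) j
      · have h5 : ¬ (Fin.last n).val < n := by simp
        simp only [h5, dif_neg, not_false_eq_true, Sum.elim_inr, Sum.elim_inl, Sum.map_inl,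
          Sum.map_inr]
        rw [Bool.eq_iff_iff, decide_eq_true_iff, ← seg_last x m (by simp only [m]; omega)]
        simp
      · have h5 : i.castSucc.val < n := i.isLt
        simp only [h5, dif_pos, Sum.elim_inr, Sum.elim_inl, Sum.map_inl, Sum.map_inr]
        rw [Bool.eq_iff_iff, decide_eq_true_iff, decide_eq_true_iff, ← seg_cast x i]
        rfl

end Pool.Agent.Lin
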