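import Pool.Agent.Lib.MP_76b24b_lcL.Spec

set_option autoImplicit false

namespace Pool.Agent.Lin

open Finset

private theorem num_last {k : ℕ} (u : Fin (k + 1) → Bool) :
    num u = num (fun t : Fin k => u t.castSucc) + if u (Fin.last k) = true then 2 ^ k else 0 := by
  unfold num
  rw [Fin.sum_univ_castSucc]
  simp

private theorem num_lt {k : ℕ} (u : Fin k → Bool) : num u < 2 ^ k := by
  induction k with
  | zero => simp [num]
  | succ k ih =>
    rw [num_last, pow_succ]
    have := ih (fun t : Fin k => u t.castSucc)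
    split_ifs <;> omega

private theorem sort_step {n L : ℕ} (a : Fin n → ℕ) (b : Fin n → Bool) (ha : ∀ i, a i < 2 ^ L)
    (σ τ : Equiv.Perm (Fin n)) (hσ : σ = Tuple.sort a) (hτ : τ = Tuple.sort (b ∘ σ)) :
    τ.trans σ = Tuple.sort (fun i => a i + if b i = true then 2 ^ L else 0) := by
  have h1 := Tuple.eq_sort_iff.1 hσ
  have h2 := Tuple.eq_sort_iff.1 hτ
  have key : ∀ i j : Fin n, i < j →
      (a (σ (τ i)) + if b (σ (τ i)) = true then 2 ^ L else 0) <
        (a (σ (τ j)) + if b (σ (τ j)) = true then 2 ^ L else 0) ∨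
      ((a (σ (τ i)) + if b (σ (τ i)) = true then 2 ^ L else 0) ≤
        (a (σ (τ j)) + if b (σ (τ j)) = true then 2 ^ L else 0) ∧
        ((a (σ (τ i)) + if b (σ (τ i)) = true then 2 ^ L else 0) =
        (a (σ (τ j)) + if b (σ (τ j)) = true then 2 ^ L else 0) → σ (τ i) < σ (τ j))) := by
    intro i j hij
    have hb : b (σ (τ i)) ≤ b (σ (τ j)) := h2.1 hij.le
    have hai := ha (σ (τ i))
    by_cases he : b (σ (τ i)) = b (σ (τ j))
    · have ht : τ i < τ j := h2.2 i j hij he
      have hm : a (σ (τ i)) ≤ a (σ (τ j)) := h1.1 ht.le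
      right
      rw [he]
      refine ⟨by omega, fun hh => h1.2 _ _ ht (by omega)⟩
    · left
      have hb1 : b (σ (τ i)) = false := by
        cases h : b (σ (τ i))
        · rfl
        · cases h' : b (σ (τ j))
          · rw [h, h'] at hb
            exact absurd hb (by decide)
          · exact absurd (h.trans h'.symm) he
      have hb2 : b (σ (τ j)) = true := by
        cases h' : b (σ (τ j))
        · exact absurd (hb1.trans h'.symm) he
        · rfl
      rw [hb1, hb2]
      simp only [Bool.false_eq_true, if_false, if_true]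
      omega
  refine Tuple.eq_sort_iff.2 ⟨?_, ?_⟩
  · intro i j hij
    rcases hij.eq_or_lt with rfl | hij
    · exact le_rfl
    · simp only [Function.comp, Equiv.trans_apply]
      rcases key i j hij with h | h
      · exact h.le
      · exact h.1
  · intro i j hij he
    simp only [Equiv.trans_apply] at he ⊢
    rcases key i j hij with h | h
    · exact absurd he h.ne
    · exact h.2 he

theorem tSort (h : S_Part) : S_Sort := by
  intro k D L
  induction L with
  | zero =>
    intro ℓ
    have h0 : Cx (fun (x : Fin (2 ^ k) × Fin D → Bool) (p : Fin (2 ^ k) × Fin D) => x p) 0 :=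
      Cx.proj id
    refine (h0.mono (Nat.zero_le _)).congr fun x p => ?_
    have hs : Tuple.sort (fun i : Fin (2 ^ k) => num fun t => x (i, ℓ t)) = Equiv.refl _ := by
      rw [Tuple.sort_eq_refl_iff_monotone]
      intro i j _
      simp [num]
    rw [hs]
    rfl
  | succ L ih =>
    intro ℓ
    have h1 := ih (fun t => ℓ t.castSucc)
    have h2 := h k D (ℓ (Fin.last L))
    have h3 := h1.comp h2
    refine (h3.mono (le_of_eq (by ring))).congr fun x p => ?_
    have hs := sort_step (fun i : Fin (2 ^ k) => num fun t : Fin L => x (i, ℓ t.castSucc))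
      (fun i => x (i, ℓ (Fin.last L))) (fun i => num_lt _)
      (Tuple.sort (fun i : Fin (2 ^ k) => num fun t : Fin L => x (i, ℓ t.castSucc)))
      (Tuple.sort (fun i : Fin (2 ^ k) => x (Tuple.sort (fun i : Fin (2 ^ k) => num fun t : Fin L => x (i, ℓ t.castSucc)) i,
        ℓ (Fin.last L)))) rfl rfl
    have he : (fun i : Fin (2 ^ k) => num fun t : Fin (L + 1) => x (i, ℓ t)) =
        fun i => (num fun t : Fin L => x (i, ℓ t.castSucc)) +
          if x (i, ℓ (Fin.last L)) = true then 2 ^ L else 0 := by
      funext i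
      rw [num_last]
    rw [he, ← hs]
    rfl

end Pool.Agent.Lin
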