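import Pool.Agent.Lib.MP_76b24b_lcL.Spec

/-!
# MP_76b24b_lc, package L: thresholds
-/

set_option autoImplicit false

namespace Pool.Agent.Lin

open Finset

private theorem thr_num_succ {k : ℕ} (x : Fin (k + 1) → Bool) :
    num x = num (fun t => x t.castSucc) + if x (Fin.last k) = true then 2 ^ k else 0 := by
  unfold num
  rw [Fin.sum_univ_castSucc]
  rfl

private theorem thr_num_lt {k : ℕ} (x : Fin k → Bool) : num x < 2 ^ k := by
  induction k with
  | zero => simp [num]
  | succ k ih =>
    rw [thr_num_succ]
    have h1 := ih (fun t => x t.castSucc)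
    have h2 : (2 : ℕ) ^ (k + 1) = 2 ^ k + 2 ^ k := by ring
    split_ifs <;> omega

theorem tThr : S_Thr := by
  intro k hk
  obtain ⟨k, rfl⟩ : ∃ k', k = k' + 1 := ⟨k - 1, by omega⟩
  clear hk
  induction k with
  | zero =>
    have h1 := Cx.layer (ι := Fin (0 + 1)) (κ := Fin (2 ^ (0 + 1)))
      (fun j a _ => if (j : ℕ) = 0 then a else false) (fun _ => 0) (fun _ => 0)
    rw [Fintype.card_fin] at h1
    refine (h1.mono (by norm_num)).congr fun x j => ?_
    have h2 : num x = if x 0 = true then 1 else 0 := by
      unfold num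
      rw [Fin.sum_univ_one]
      rfl
    have h3 := j.isLt
    rw [h2]
    by_cases hj : (j : ℕ) = 0
    · rw [if_pos hj, hj]
      cases x 0 <;> simp
    · rw [if_neg hj]
      cases x 0 <;> simp
      omega
  | succ k ih =>
    have h1 := ((ih.inp Fin.castSucc).keep).comp (Cx.layer
      (ι := Fin (k + 1 + 1) ⊕ Fin (2 ^ (k + 1))) (κ := Fin (2 ^ (k + 1 + 1)))
      (fun j a b => if (j : ℕ) < 2 ^ (k + 1) then a || b else a && b)
      (fun _ => Sum.inl (Fin.last _))
      (fun j => Sum.inr ⟨j % 2 ^ (k + 1), Nat.mod_lt _ (by positivity)⟩))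
    rw [Fintype.card_fin] at h1
    refine (h1.mono ?_).congr fun x j => ?_
    · have h2 : (2 : ℕ) ^ (k + 1 + 1) = 2 * 2 ^ (k + 1) := by ring
      omega
    · have h3 := j.isLt
      have h4 : (2 : ℕ) ^ (k + 1 + 1) = 2 ^ (k + 1) + 2 ^ (k + 1) := by ring
      have h5 := thr_num_lt (fun t => x t.castSucc)
      rw [thr_num_succ x]
      simp only [Sum.elim_inl, Sum.elim_inr]
      by_cases hj : (j : ℕ) < 2 ^ (k + 1)
      · rw [if_pos hj]
        simp only [Nat.mod_eq_of_lt hj]
        rcases hx : x (Fin.last (k + 1)) with _ | _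
        · simp
        · simp only [Bool.true_or, if_true]
          exact (decide_eq_true (by omega)).symm
      · rw [if_neg hj]
        have h6 : (j : ℕ) % 2 ^ (k + 1) = j - 2 ^ (k + 1) := by
          rw [Nat.mod_eq_sub_mod (by omega), Nat.mod_eq_of_lt (by omega)]
        simp only [h6]
        rcases hx : x (Fin.last (k + 1)) with _ | _
        · simp only [Bool.false_and]
          exact (decide_eq_false (by simp; omega)).symm
        · simp only [Bool.true_and, if_true]
          rw [decide_eq_decide]
          omega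

end Pool.Agent.Lin
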