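import Pool.Agent.Lib.MP_76b24b_lcL.Spec

/-!
# MP_76b24b_lc, package L: OR of a finite set of inputs
-/

set_option autoImplicit false

namespace Pool.Agent.Lin

theorem tOr : S_Or := by
  intro ι _ _ A
  induction A using Finset.induction_on with
  | empty =>
    refine (Cx.const (ι := ι) false).congr fun x j => ?_
    simp
  | insert a A ha ih =>
    have h1 := ih.ext (Cx.gate (fun p q => p || q) (Sum.inl a : ι ⊕ Unit) (Sum.inr ()))
    rw [Finset.card_insert_of_notMem ha]
    refine (h1.congr fun x j => ?_)
    rw [Bool.eq_iff_iff]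
    simp only [Sum.elim_inl, Sum.elim_inr, Bool.or_eq_true, decide_eq_true_eq,
      Finset.mem_insert, exists_eq_or_imp]

end Pool.Agent.Lin
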