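import Pool.Agent.Lib.MP_76b24b_lcL.Spec

/-!
# MP_76b24b_lc, package L: `S_Sparse`
-/

set_option autoImplicit false

namespace Pool.Agent.Lin

open Finset

private theorem rk_map {α α' : Type} [Fintype α] [Fintype α'] (pos : α → ℕ) (pos' : α' → ℕ)
    (P : α → Bool) (P' : α' → Bool) (f : α → α') (hf : Function.Injective f)
    (hpos : ∀ a, pos' (f a) = pos a) (hP : ∀ a, P' (f a) = P a)
    (hR : ∀ b, P' b = true → ∃ a, f a = b) (q : ℕ) : rk pos' P' q = rk pos P q := by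
  classical
  unfold rk
  symm
  refine Finset.card_bij (fun a _ => f a) ?_ ?_ ?_
  · intro a ha
    rw [mem_filter] at ha ⊢
    refine ⟨mem_univ _, ?_, ?_⟩
    · rw [hpos]
      exact ha.2.1
    · rw [hP]
      exact ha.2.2
  · intro a _ b _ h
    exact hf h
  · intro b hb
    rw [mem_filter] at hb
    obtain ⟨a, rfl⟩ := hR b hb.2.2
    refine ⟨a, ?_, rfl⟩
    rw [mem_filter]
    refine ⟨mem_univ _, ?_, ?_⟩
    · rw [← hpos]
      exact hb.2.1
    · rw [← hP]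
      exact hb.2.2

private theorem cmp_map {α α' : Type} [Fintype α] [Fintype α'] (pos : α → ℕ) (pos' : α' → ℕ)
    (P Q : α → Bool) (P' Q' : α' → Bool) (f : α → α') (hf : Function.Injective f)
    (hpos : ∀ a, pos' (f a) = pos a) (hP : ∀ a, P' (f a) = P a) (hQ : ∀ a, Q' (f a) = Q a)
    (hR : ∀ b, P' b = true → ∃ a, f a = b) (j : ℕ) : cmp pos' P' Q' j = cmp pos P Q j := by
  classical
  have hrk := rk_map pos pos' P P' f hf hpos hP hR
  unfold cmp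
  rw [decide_eq_decide]
  constructor
  · rintro ⟨b, h1, h2, h3⟩
    obtain ⟨a, rfl⟩ := hR b h1
    refine ⟨a, ?_, ?_, ?_⟩
    · rw [← hP]
      exact h1
    · rw [← hQ]
      exact h2
    · rw [← hrk, ← hpos]
      exact h3
  · rintro ⟨a, h1, h2, h3⟩
    refine ⟨f a, ?_, ?_, ?_⟩
    · rw [hP]
      exact h1
    · rw [hQ]
      exact h2
    · rw [hrk, hpos]
      exact h3

private theorem pad_lem {n : ℕ} (hn : 0 < n) {α' : Type} [Fintype α'] (pos' : α' → ℕ)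
    (f : Fin n → α') (hf : ∀ i, pos' (f i) = i) (hf' : ∀ b (h : pos' b < n), f ⟨pos' b, h⟩ = b)
    (G : (α' ⊕ α' → Bool) → α' → Bool) (s : ℕ) (hG : Cx G s) :
    ∃ (pad : (Fin n ⊕ Fin n → Bool) → α' ⊕ α' → Bool) (F : (Fin n ⊕ Fin n → Bool) → Fin n → Bool),
      Cx F (1 + s) ∧
      (∀ x b, pad x (Sum.inl b) = if h : pos' b < n then x (Sum.inl ⟨pos' b, h⟩) else false) ∧
      (∀ x b, pad x (Sum.inr b) = if h : pos' b < n then x (Sum.inr ⟨pos' b, h⟩) else false) ∧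
      (∀ x, (∀ j, G (pad x) j = cmp pos' (fun a => pad x (Sum.inl a))
          (fun a => pad x (Sum.inr a)) (pos' j)) →
        ∀ j : Fin n, F x j = cmp Fin.val (fun i => x (Sum.inl i)) (fun i => x (Sum.inr i)) j) := by
  classical
  have : Nonempty (Fin n ⊕ Fin n) := ⟨Sum.inl ⟨0, hn⟩⟩
  let g : α' ⊕ α' → (Fin n ⊕ Fin n) ⊕ Unit :=
    Sum.elim (fun b => if h : pos' b < n then Sum.inl (Sum.inl ⟨pos' b, h⟩) else Sum.inr ())
      (fun b => if h : pos' b < n then Sum.inl (Sum.inr ⟨pos' b, h⟩) else Sum.inr ())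
  let pad : (Fin n ⊕ Fin n → Bool) → α' ⊕ α' → Bool :=
    fun x k => (Sum.elim x (fun _ : Unit => false) : (Fin n ⊕ Fin n) ⊕ Unit → Bool) (g k)
  have hpad : Cx pad 1 := ((Cx.const (ι := Fin n ⊕ Fin n) false).keep).out g
  have h1 : ∀ x b, pad x (Sum.inl b) =
      if h : pos' b < n then x (Sum.inl ⟨pos' b, h⟩) else false := by
    intro x b
    simp only [pad, g, Sum.elim_inl]
    by_cases h : pos' b < n
    · rw [dif_pos h, dif_pos h, Sum.elim_inl]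
    · rw [dif_neg h, dif_neg h, Sum.elim_inr]
  have h2 : ∀ x b, pad x (Sum.inr b) =
      if h : pos' b < n then x (Sum.inr ⟨pos' b, h⟩) else false := by
    intro x b
    simp only [pad, g, Sum.elim_inr]
    by_cases h : pos' b < n
    · rw [dif_pos h, dif_pos h, Sum.elim_inl]
    · rw [dif_neg h, dif_neg h, Sum.elim_inr]
  refine ⟨pad, fun x j => G (pad x) (f j), (hpad.comp hG).out f, h1, h2, ?_⟩
  intro x hx j
  change G (pad x) (f j) = _
  rw [hx, hf]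
  refine cmp_map Fin.val pos' _ _ _ _ f ?_ hf ?_ ?_ ?_ j
  · intro a b hab
    have := hf a
    rw [hab, hf b] at this
    exact (Fin.ext this).symm
  · intro a
    rw [h1, dif_pos (by rw [hf]; exact a.isLt)]
    congr 2
    exact Fin.ext (hf a)
  · intro a
    rw [h2, dif_pos (by rw [hf]; exact a.isLt)]
    congr 2
    exact Fin.ext (hf a)
  · intro b hb
    rw [h1] at hb
    by_cases h : pos' b < n
    · exact ⟨_, hf' b h⟩
    · rw [dif_neg h] at hb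
      exact absurd hb (by decide)

private theorem pow4 : ∀ m : ℕ, 16 ≤ m → m ^ 4 ≤ 2 ^ m := by
  intro m hm
  induction m, hm using Nat.le_induction with
  | base => norm_num
  | succ m hm ih =>
    rw [pow_succ 2 m]
    have h1 : (m + 1) ^ 4 ≤ 2 * m ^ 4 := by
      have h2 : 1 ≤ m ^ 3 := Nat.one_le_pow _ _ (by omega)
      have h3 : m ≤ m ^ 3 := by
        calc m = m ^ 1 := (pow_one m).symm
          _ ≤ m ^ 3 := Nat.pow_le_pow_right (by omega) (by norm_num)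
      have h4 : m ^ 2 ≤ m ^ 3 := Nat.pow_le_pow_right (by omega) (by norm_num)
      have h5 : 16 * m ^ 3 ≤ m ^ 4 := by
        calc 16 * m ^ 3 ≤ m * m ^ 3 := Nat.mul_le_mul_right _ hm
          _ = m ^ 4 := by ring
      have h6 : (m + 1) ^ 4 = m ^ 4 + 4 * m ^ 3 + 6 * m ^ 2 + 4 * m + 1 := by ring
      omega
    omega

/-- The numbers in the case of large `β`. -/
private theorem numbers {ν β : ℕ} (hβ : 100 ≤ β) (h1 : 2 ^ β ≤ ν) (h2 : ν < 2 ^ (β + 1)) :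
    4 * β + 100 ≤ ν ∧
    6 * 256 ^ 4 * 2 ^ (ν - β) * (2 ^ (ν - 4 * β + 6)) ^ 3 ≤ (2 ^ (ν - 3 * β - 2)) ^ 4 ∧
    2 ^ (ν - β) * (2 ^ β + (ν - β) + Nat.log 2 (2 ^ (ν - 4 * β + 6)) + 1) +
      2 ^ (ν - 3 * β - 2) * ((ν - β) + 2 ^ β + 1) ^ 3 ≤ 21 * 2 ^ ν ∧
    ∀ k n : ℕ, n ≤ 2 ^ ν → k * (ν - 1) ^ 4 ≤ n + (ν - 1) ^ 4 → 2 * k ≤ 2 ^ (ν - 4 * β + 6) := by
  have hb : 8 * β ≤ 2 ^ β := by
    have h3 : β - 5 < 2 ^ (β - 5) := Nat.lt_two_pow_self
    have h4 : 2 ^ β = 32 * 2 ^ (β - 5) := by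
      rw [show (32 : ℕ) = 2 ^ 5 by norm_num, ← pow_add]
      congr 1
      omega
    rw [h4]
    omega
  have hν : 4 * β + 100 ≤ ν := by omega
  refine ⟨hν, ?_, ?_, ?_⟩
  · rw [← pow_mul, ← pow_mul]
    calc 6 * 256 ^ 4 * 2 ^ (ν - β) * 2 ^ ((ν - 4 * β + 6) * 3)
        ≤ 2 ^ 35 * 2 ^ (ν - β) * 2 ^ ((ν - 4 * β + 6) * 3) := by
          refine Nat.mul_le_mul_right _ (Nat.mul_le_mul_right _ (by norm_num))
      _ = 2 ^ (35 + (ν - β) + (ν - 4 * β + 6) * 3) := by rw [pow_add, pow_add]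
      _ ≤ 2 ^ ((ν - 3 * β - 2) * 4) := Nat.pow_le_pow_right (by norm_num) (by omega)
  · rw [Nat.log_pow (by norm_num)]
    have h3 : 2 ^ (β + 1) = 2 * 2 ^ β := by rw [pow_succ]; ring
    have h4 : 2 ^ β + (ν - β) + (ν - 4 * β + 6) + 1 ≤ 5 * 2 ^ β := by omega
    have h5 : (ν - β) + 2 ^ β + 1 ≤ 2 ^ (β + 2) := by
      have h6 : 2 ^ (β + 2) = 4 * 2 ^ β := by rw [pow_add]; ring
      omega
    have h6 : 2 ^ (ν - β) * (2 ^ β + (ν - β) + (ν - 4 * β + 6) + 1) ≤ 5 * 2 ^ ν := by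
      calc _ ≤ 2 ^ (ν - β) * (5 * 2 ^ β) := Nat.mul_le_mul_left _ h4
        _ = 5 * (2 ^ (ν - β) * 2 ^ β) := by ring
        _ = 5 * 2 ^ ν := by
          rw [← pow_add]
          congr 2
          omega
    have h7 : 2 ^ (ν - 3 * β - 2) * ((ν - β) + 2 ^ β + 1) ^ 3 ≤ 16 * 2 ^ ν := by
      calc _ ≤ 2 ^ (ν - 3 * β - 2) * (2 ^ (β + 2)) ^ 3 :=
            Nat.mul_le_mul_left _ (Nat.pow_le_pow_left h5 _)
        _ = 2 ^ (ν - 3 * β - 2 + (β + 2) * 3) := by rw [← pow_mul, ← pow_add]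
        _ = 2 ^ (4 + ν) := by
          congr 1
          omega
        _ = 16 * 2 ^ ν := by rw [pow_add]; norm_num
    omega
  · intro k n hn hk
    have h3 : (ν - 1) ^ 4 ≤ 2 ^ ν := by
      calc (ν - 1) ^ 4 ≤ 2 ^ (ν - 1) := pow4 _ (by omega)
        _ ≤ 2 ^ ν := Nat.pow_le_pow_right (by norm_num) (by omega)
    have h4 : 2 ^ (β - 1) ≤ ν - 1 := by
      have h5 : 2 ^ β = 2 * 2 ^ (β - 1) := by
        rw [← pow_succ']
        congr 1
        omega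
      have h6 : 1 ≤ 2 ^ (β - 1) := Nat.one_le_two_pow
      omega
    have h5 : k * 2 ^ ((β - 1) * 4) ≤ 2 ^ (ν + 1) := by
      calc k * 2 ^ ((β - 1) * 4) = k * (2 ^ (β - 1)) ^ 4 := by rw [pow_mul]
        _ ≤ k * (ν - 1) ^ 4 := Nat.mul_le_mul_left _ (Nat.pow_le_pow_left h4 _)
        _ ≤ n + (ν - 1) ^ 4 := hk
        _ ≤ 2 ^ ν + 2 ^ ν := Nat.add_le_add hn h3
        _ = 2 ^ (ν + 1) := by rw [pow_succ]; ring
    have h6 : (2 * k) * 2 ^ ((β - 1) * 4) ≤ 2 ^ (ν - 4 * β + 6) * 2 ^ ((β - 1) * 4) := by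
      calc (2 * k) * 2 ^ ((β - 1) * 4) = 2 * (k * 2 ^ ((β - 1) * 4)) := by ring
        _ ≤ 2 * 2 ^ (ν + 1) := Nat.mul_le_mul_left _ h5
        _ = 2 ^ (ν - 4 * β + 6) * 2 ^ ((β - 1) * 4) := by
          rw [← pow_succ', ← pow_add]
          congr 1
          omega
    exact Nat.le_of_mul_le_mul_right h6 (Nat.pow_pos (by norm_num))

theorem tSparse (h1 : S_Core) (h2 : S_Exp) (h3 : S_Naive) : S_Sparse := by
  classical
  obtain ⟨c, hc⟩ := h1
  refine ⟨42 * c + 16 * 2 ^ 100 + 1, ?_⟩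
  intro n
  rcases Nat.eq_zero_or_pos n with rfl | hn
  · refine ⟨fun _ j => j.elim0, ?_, fun _ _ j => j.elim0⟩
    exact ((Cx.proj (fun j : Fin 0 => (j.elim0 : Fin 0 ⊕ Fin 0))).congr
      (fun _ j => j.elim0)).mono (Nat.zero_le _)
  set ν : ℕ := Nat.log 2 n + 1 with hν
  have hn1 : 2 ^ ν ≤ 2 * n := by
    rw [hν, pow_succ]
    have := Nat.pow_log_le_self 2 (x := n) (by omega)
    omega
  have hn2 : n < 2 ^ ν := Nat.lt_pow_succ_log_self (by norm_num) n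
  set β : ℕ := Nat.log 2 ν with hβ
  have hν0 : ν ≠ 0 := by omega
  have hβ1 : 2 ^ β ≤ ν := Nat.pow_log_le_self 2 hν0
  have hβ2 : ν < 2 ^ (β + 1) := Nat.lt_pow_succ_log_self (by norm_num) ν
  rcases Nat.lt_or_ge β 100 with hb | hb
  · -- small `β`: the naive circuit
    have hle : ∀ j : Fin n, (j : ℕ) < 2 ^ ν := fun j => lt_trans j.isLt hn2
    obtain ⟨pad, F, hF, _, _, hFx⟩ := pad_lem hn (α' := Fin (2 ^ ν)) Fin.val
      (fun j => ⟨j, hle j⟩) (fun _ => rfl) (fun _ _ => rfl) _ _ (h3 ν)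
    refine ⟨F, hF.mono ?_, fun x _ => hFx x fun _ => rfl⟩
    have h4 : ν + 1 ≤ 2 ^ 100 := by
      have h5 : 2 ^ (β + 1) ≤ 2 ^ 100 := Nat.pow_le_pow_right (by norm_num) (by omega)
      omega
    have h5 : 8 * (ν + 1) * 2 ^ ν ≤ 16 * 2 ^ 100 * n := by
      calc 8 * (ν + 1) * 2 ^ ν ≤ 8 * 2 ^ 100 * (2 * n) :=
            Nat.mul_le_mul (Nat.mul_le_mul_left _ h4) hn1
        _ = 16 * 2 ^ 100 * n := by ring
    calc 1 + 8 * (ν + 1) * 2 ^ ν ≤ n + 16 * 2 ^ 100 * n := Nat.add_le_add hn h5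
      _ ≤ 42 * c * n + (n + 16 * 2 ^ 100 * n) := Nat.le_add_left _ _
      _ = _ := by ring
  · -- large `β`
    obtain ⟨g1, g2, g3, g4⟩ := numbers hb hβ1 hβ2
    obtain ⟨h, hGood⟩ := h2 (2 ^ (ν - β)) (2 ^ (ν - 3 * β - 2)) (2 ^ (ν - 4 * β + 6))
      (Nat.pow_pos (by norm_num)) g2
    obtain ⟨G, hG, hGx⟩ := hc β (ν - β) (ν - 3 * β - 2) (2 ^ (ν - 4 * β + 6)) h (by omega)
      (by omega) hGood
    have hbpos : 0 < 2 ^ β := Nat.pow_pos (by norm_num)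
    have hprod : 2 ^ (ν - β) * 2 ^ β = 2 ^ ν := by
      rw [← pow_add]
      congr 1
      omega
    have hdiv : ∀ j : Fin n, (j : ℕ) / 2 ^ β < 2 ^ (ν - β) := by
      intro j
      rw [Nat.div_lt_iff_lt_mul hbpos, hprod]
      exact lt_trans j.isLt hn2
    have hmod : ∀ j : Fin n, (j : ℕ) % 2 ^ β < 2 ^ β := fun j => Nat.mod_lt _ hbpos
    obtain ⟨pad, F, hF, hp1, hp2, hFx⟩ := pad_lem hn (α' := Fin (2 ^ (ν - β)) × Fin (2 ^ β))
      (bpos (2 ^ β)) (fun j => (⟨(j : ℕ) / 2 ^ β, hdiv j⟩, ⟨(j : ℕ) % 2 ^ β, hmod j⟩))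
      (fun j => by
        unfold bpos
        exact Nat.div_add_mod' _ _)
      (fun b hb' => by
        obtain ⟨a, e⟩ := b
        refine Prod.ext (Fin.ext ?_) (Fin.ext ?_)
        · change ((a : ℕ) * 2 ^ β + e) / 2 ^ β = a
          rw [Nat.mul_comm, Nat.mul_add_div hbpos, Nat.div_eq_of_lt e.isLt, Nat.add_zero]
        · change ((a : ℕ) * 2 ^ β + e) % 2 ^ β = e
          rw [Nat.mul_comm, Nat.mul_add_mod, Nat.mod_eq_of_lt e.isLt])
      G _ hG
    refine ⟨F, hF.mono ?_, ?_⟩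
    · have h5 := Nat.mul_le_mul_left c g3
      have h6 : c * (21 * 2 ^ ν) ≤ 42 * c * n := by
        calc c * (21 * 2 ^ ν) ≤ c * (21 * (2 * n)) :=
              Nat.mul_le_mul_left _ (Nat.mul_le_mul_left _ hn1)
          _ = 42 * c * n := by ring
      calc _ ≤ n + 42 * c * n := Nat.add_le_add hn (h5.trans h6)
        _ ≤ 16 * 2 ^ 100 * n + (n + 42 * c * n) := Nat.le_add_left _ _
        _ = _ := by ring
    · intro x hx
      refine hFx x ?_
      have hact : (act (pad x)).card ≤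
          (univ.filter fun i => x (Sum.inl i) = true ∧ x (Sum.inr i) = true).card := by
        refine le_trans (card_le_card ?_) (Finset.card_image_le
          (f := fun i : Fin n => (⟨(i : ℕ) / 2 ^ β, hdiv i⟩ : Fin (2 ^ (ν - β)))))
        intro i hi
        unfold act at hi
        rw [mem_filter] at hi
        obtain ⟨_, ρ, hρ1, hρ2⟩ := hi
        rw [hp1] at hρ1
        rw [hp2] at hρ2
        by_cases hlt : bpos (2 ^ β) (i, ρ) < n
        · rw [dif_pos hlt] at hρ1 hρ2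
          refine mem_image.2 ⟨⟨bpos (2 ^ β) (i, ρ), hlt⟩, mem_filter.2 ⟨mem_univ _, hρ1, hρ2⟩, ?_⟩
          refine Fin.ext ?_
          change ((i : ℕ) * 2 ^ β + ρ) / 2 ^ β = i
          rw [Nat.mul_comm, Nat.mul_add_div hbpos, Nat.div_eq_of_lt ρ.isLt, Nat.add_zero]
        · rw [dif_neg hlt] at hρ1
          exact absurd hρ1 (by decide)
      have hk : 2 * (act (pad x)).card ≤ 2 ^ (ν - 4 * β + 6) := by
        refine le_trans (Nat.mul_le_mul_left 2 hact) (g4 _ n hn2.le ?_)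
        rw [hν, Nat.add_sub_cancel]
        exact hx
      rintro ⟨a, e⟩
      exact hGx (pad x) hk a e

end Pool.Agent.Lin
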