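import Pool.Agent.Lib.MP_76b24b_lcL.Base

/-!
# MP_76b24b_lc, package L: linear circuits for payloads with few alternations (statements)

THEOREM. There is `C` such that for every `n` a circuit with at most `C n + C` gates computes `f` on all
words `x` of length `n` whose 0-1 subsequence has at most `n / (log n) ^ 4` alternations.

IDEA. Differences of consecutive payload letters make the payload sparse (`Q` marks the changes, `P`
the letters `≠ 2`); wanted: the marks at their ranks (`cmp`). Blocks of length `b = 2 ^ β ≤ log n`,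
`N = 2 ^ η` blocks. An expander `h : Fin N → Fin 16 → Fin M` (`M = N / log ^ 2 n`) and peeling
(`log N` rounds, `O(N)` gates each) match the active blocks with bins; the data move once (gather).
In the bins everything may cost a power of the logarithm: the string of a block is shifted to its
place in two consecutive output blocks (keys `a`, `a + 1`). The active output blocks are computed by
stable compaction of `N` cells (`N log N` gates), matched with bins by the same expander, the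
strings are joined by a stable radix sort by key, and move once (scatter).

Every module is independent (the statements used are hypotheses); the closure properties of `Cx`
are in Base.lean (`mono, congr, proj, out, comp, inp, keep, pair, gate, fam, blocks, layer, const,
consts, ext`): import Spec and use them. Each module file: `theorem tXxx (h : S_Used) : S_Xxx`.
-/

set_option autoImplicit false

namespace Pool.Agent.Lin

open Finset

/-- The number with the binary digits `u`. -/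
def num {k : ℕ} (u : Fin k → Bool) : ℕ := ∑ i, if u i = true then 2 ^ (i : ℕ) else 0

/-- The number of cells with `P` and a position smaller than `q`. -/
def rk {α : Type} [Fintype α] (pos : α → ℕ) (P : α → Bool) (q : ℕ) : ℕ :=
  (univ.filter fun a => pos a < q ∧ P a = true).card

/-- Stable compaction: is the `j`-th cell with `P` marked by `Q`? -/
def cmp {α : Type} [Fintype α] (pos : α → ℕ) (P Q : α → Bool) (j : ℕ) : Bool :=
  decide (∃ a, P a = true ∧ Q a = true ∧ rk pos P (pos a) = j)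

/-- The position of a cell if the cells are arranged in blocks of length `b`. -/
def bpos (b : ℕ) {N : ℕ} (p : Fin N × Fin b) : ℕ := p.1 * b + p.2

/-- At least half of the elements of every set `S` with at most `K` elements have a unique edge. -/
def Good {N d M : ℕ} (h : Fin N → Fin d → Fin M) (K : ℕ) : Prop :=
  ∀ S : Finset (Fin N), S.card ≤ K → S.card ≤ 2 * (S.filter fun i =>
    ∃ t, ∀ i' ∈ S, ∀ t', h i' t' = h i t → i' = i ∧ t' = t).card

/-- **Or** (30 lines). Induction on `A`: the empty set is a constant, one gate for each element. -/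
def S_Or : Prop :=
  ∀ (ι : Type) [Nonempty ι] [DecidableEq ι] (A : Finset ι),
    Cx (fun (x : ι → Bool) (_ : Unit) => decide (∃ a ∈ A, x a = true)) (A.card + 1)

/-- **One** (60 lines). Induction on `A` for the pair of signals at-least-one, at-least-two:
`two' = two ∨ (one ∧ x a)`, `one' = one ∨ x a` (3 gates); at the end `one ∧ ¬ two`. -/
def S_One : Prop :=
  ∀ (ι : Type) [Nonempty ι] [DecidableEq ι] (A : Finset ι),
    Cx (fun (x : ι → Bool) (_ : Unit) => decide ((A.filter fun a => x a = true).card = 1))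
      (3 * A.card + 3)

/-- **Add** (150 lines). The adder.

Proof. For `k ≥ 1` prove by induction the version with `k + 1` output digits (the carry is the last
one) and `5 k` gates: `num` of `k + 1` digits is `num` of the first `k` digits `+ 2 ^ k` times the last;
digits `< k` of the sum do not change, digit `k` is `a ⊕ b ⊕ c`, digit `k + 1` is the majority. -/
def S_Add : Prop :=
  ∀ k : ℕ, Cx (fun (x : Fin k ⊕ Fin k → Bool) (i : Fin k) =>
    (num (fun t => x (Sum.inl t)) + num (fun t => x (Sum.inr t))).testBit i) (5 * k)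

/-- **Pop** (150 lines, uses `S_Add`). The number of ones in linear size.

Proof. `T(β + 1) ≤ 2 T(β) + 5 β + 12` (two halves; extend both numbers by a zero digit and add with
`k = β + 2`), so `T(β) + 5 β + 17 ≤ 17 * 2 ^ β`. -/
def S_Pop : Prop :=
  ∀ β : ℕ, Cx (fun (x : Fin (2 ^ β) → Bool) (t : Fin (β + 1)) =>
    ((univ.filter fun i => x i = true).card).testBit t) (17 * 2 ^ β)

/-- **Pre** (200 lines, uses `S_Add`, `S_Pop`). Prefix sums at the beginnings of the blocks.

Proof. The numbers `c_i` of the blocks by `S_Pop` (`Cx.blocks`), extended by zero digits to `η + β + 1`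
digits; `s_0 = 0`, `s_(i+1) = s_i + c_i` by `S_Add` (all numbers are `≤ 2 ^ (η + β)`), induction on `i`. -/
def S_Pre : Prop :=
  ∃ c : ℕ, ∀ β η : ℕ, Cx (fun (P : Fin (2 ^ η) × Fin (2 ^ β) → Bool)
    (p : Fin (2 ^ η + 1) × Fin (η + β + 1)) =>
      (rk (bpos (2 ^ β)) P (p.1 * 2 ^ β)).testBit p.2) (c * (2 ^ η * (2 ^ β + η + 1)))

/-- **Naive** (250 lines). Stable compaction with `O(n log n)` gates, by the parity of the rank.

Proof. Induction on `k`. `k = 0`: one AND. `k + 1`: `par i` is the parity of `rk P i` (a chain of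
XORs, `2 ^ (k + 1)` gates). For `i < 2 ^ k` the cell `U i` is the one of the cells `2 i`, `2 i + 1` which
satisfies `P` and has even rank (two consecutive cells with `P` have ranks of different parity, so
there is at most one), `V i` the one with odd rank: `PU i = (P (2 i) ∧ ¬ par (2 i)) ∨ (P (2 i + 1) ∧ ¬ par (2 i + 1))`,
`QU i` the same with `∧ Q`. The cell of `P` with rank `2 r` becomes the cell of `U` with rank `r`
(`rk PU i = (rk P (2 i) + 1) / 2`), the one with rank `2 r + 1` the cell of `V` with rank `r`; so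
`cmp P Q (2 r) = cmp PU QU r`, `cmp P Q (2 r + 1) = cmp PV QV r`. At most `16 * 2 ^ k` gates for the
step, so `T(k) ≤ 8 * (k + 1) * 2 ^ k`. -/
def S_Naive : Prop :=
  ∀ k : ℕ, Cx (fun (x : Fin (2 ^ k) ⊕ Fin (2 ^ k) → Bool) (j : Fin (2 ^ k)) =>
    cmp Fin.val (fun i => x (Sum.inl i)) (fun i => x (Sum.inr i)) j) (8 * (k + 1) * 2 ^ k)

/-- **Part** (200 lines, uses `S_Naive`). Stable partition of records of `D` bits by one bit.

Proof. For every bit `e` of the records (`Cx.fam`): with `P0 i = ¬ x (i, e0)`, `P1 i = x (i, e0)`, `Q i = x (i, e)` the output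
is `cmp P0 Q j ∨ cmp (P1 ∘ rev) (Q ∘ rev) (rev j)` (`rev = Fin.rev`). Let `σ = Tuple.sort (key)` and `c0` the number
of `i` with `key i = false`. `key ∘ σ` is monotone, so `key (σ j) = false ↔ j < c0`; `σ` is stable
(`Tuple.eq_sort_iff`), so `rk P0 (σ j) = j` for `j < c0`, and the number of `i > σ j` with `key i = true` is
`2 ^ k - 1 - j` for `j ≥ c0`. -/
def S_Part : Prop :=
  ∀ (k D : ℕ) (e0 : Fin D), Cx (fun (x : Fin (2 ^ k) × Fin D → Bool)
    (p : Fin (2 ^ k) × Fin D) => x (Tuple.sort (fun i => x (i, e0)) p.1, p.2))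
    (20 * D * (k + 1) * 2 ^ k)

/-- **Sort** (150 lines, uses `S_Part`). Stable radix sort; `ℓ t` is the place of digit `t` of the key.

Proof. Induction on `L` (least significant digit first). `L = 0`: `Tuple.sort` of a constant is the
identity. `L + 1`: if `σ` sorts by the first `L` digits and `τ` is the stable partition of `x ∘ σ` by the digit
`L`, then `σ ∘ τ` (`τ.trans σ`) is the sort by `L + 1` digits (`Tuple.eq_sort_iff`; `num` of `L + 1` digits is `num` of the
first `L` digits `+ 2 ^ L * digit`, and `num < 2 ^ L`). -/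
def S_Sort : Prop :=
  ∀ (k D L : ℕ) (ℓ : Fin L → Fin D), Cx (fun (x : Fin (2 ^ k) × Fin D → Bool)
    (p : Fin (2 ^ k) × Fin D) => x (Tuple.sort (fun i => num fun t => x (i, ℓ t)) p.1, p.2))
    (20 * L * D * (k + 1) * 2 ^ k)

/-- **Seg** (60 lines). Segmented OR; `x (Sum.inl l)` is a cut before `l`.

Proof. `g_i = v_i ∨ (g_(i-1) ∧ ¬ cut_i)`, two gates for each `i`, induction on `n` (or on the prefix). -/
def S_Seg : Prop :=
  ∀ n : ℕ, Cx (fun (x : Fin n ⊕ Fin n → Bool) (i : Fin n) =>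
    decide (∃ i' : Fin n, i' ≤ i ∧ x (Sum.inr i') = true ∧
      ∀ l : Fin n, i' < l → l ≤ i → x (Sum.inl l) = false)) (3 * n)

/-- **KeyOr** (250 lines, uses `S_Or`, `S_Sort`, `S_Seg`). OR of the strings of the earlier records with
the same key.

Proof. Append the index of the record (`k` constant digits) to the record (`Cx.consts`); sort by the
key: `y = x ∘ σ`; cut before `i` if the keys of `y i` and `y (i - 1)` differ (`L` XORs and an OR); `S_Seg` for each
bit of the string; sort back by the index digits (the index digits of `y i` are those of `σ i`, and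
`Tuple.sort (fun i => (σ i : ℕ)) = σ⁻¹`). As the keys of `y` are monotone, there is no cut in `(i', i]` iff the
keys of `y i'` and `y i` agree; as `σ` is stable, for equal keys `i' ≤ i ↔ σ i' ≤ σ i`. -/
def S_KeyOr : Prop :=
  ∃ c : ℕ, ∀ k L b : ℕ, 0 < b → Cx (fun (x : Fin (2 ^ k) × (Fin L ⊕ Fin b) → Bool)
    (p : Fin (2 ^ k) × Fin b) => decide (∃ i' : Fin (2 ^ k), i' ≤ p.1 ∧
      (∀ t, x (i', Sum.inl t) = x (p.1, Sum.inl t)) ∧ x (i', Sum.inr p.2) = true))
    (c * ((k + L + 1) * (k + L + b) * (k + 1) * 2 ^ k))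

/-- **Mat** (350 lines, uses `S_Or`, `S_One`). Matching by peeling.

Proof. State: `U : Fin N → Bool` (unmatched), `m : Fin N × Fin d → Bool`; at the beginning `U = u`, `m = false`.
A round: a bin `q` is accepted if exactly one edge `(i, t)` with `U i` has `h i t = q` (`S_One` with
`A = {(i, t) | h i t = q}`, `3 d N + 3 M` gates in all); `a (i, t) = U i ∧ accepted (h i t)`; `m' = m ∨ a`;
`U' i = U i ∧ ¬ ∃ t, a (i, t)` (`S_Or`). At most `11 d N` gates (`M ≤ N`). Invariants: `m (i, t)` implies `u i`, `¬ U i`, and that no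
edge of an element of `U` goes to `h i t`; every `i` with `u i`, `¬ U i` has an edge in `m`; edges in `m` of
different elements go to different bins. By `Good` the number of elements of `U` is halved (rounded
down) in every round, so `Nat.log 2 K + 1` rounds are enough. -/
def S_Mat : Prop :=
  ∃ c : ℕ, ∀ (N d M K : ℕ) (h : Fin N → Fin d → Fin M), 0 < N → 0 < d → M ≤ N → Good h K →
    ∃ F : (Fin N → Bool) → Fin N × Fin d → Bool, Cx F (c * (d * N * (Nat.log 2 K + 1))) ∧
      ∀ u : Fin N → Bool, (univ.filter fun i => u i = true).card ≤ K →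
        (∀ i t, F u (i, t) = true → u i = true) ∧
        (∀ i, u i = true → ∃ t, F u (i, t) = true) ∧
        ∀ i i' t t', F u (i, t) = true → F u (i', t') = true → h i t = h i' t' → i = i'

/-- **Exp1** (300 lines). For one set `S` there are few bad `h`.

Proof. `s = |S|`, `E = S × Fin 16` (`16 s` edges), with a linear order. If `h` is bad then more than `s / 2`
elements of `S` have no unique edge, so more than `8 s` edges of `E` are not unique; a value of `h` on `E`
which is taken at least twice is taken by `m ≥ 2` edges, so `h` has less than `16 s - 4 s` values on `E`; so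
more than `4 s` edges are repeats (the value was taken by an earlier edge). Choose a set `Q` of exactly
`4 s` repeats (at most `2 ^ (16 s)` choices) and for each of them an earlier edge with the same value (at
most `(16 s) ^ (4 s)` choices); together with the values on `E \ Q` (`M ^ (12 s)`) and outside of `S`
(`M ^ (16 (N - s))`) this determines `h` (strong induction along the order). And
`2 ^ (16 s) * (16 s) ^ (4 s) = (256 s) ^ (4 s)`. -/
def S_Exp1 : Prop :=
  ∀ (N M : ℕ) (S : Finset (Fin N)), S.Nonempty →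
    (univ.filter fun h : Fin N → Fin 16 → Fin M => ¬ S.card ≤ 2 * (S.filter fun i =>
      ∃ t, ∀ i' ∈ S, ∀ t', h i' t' = h i t → i' = i ∧ t' = t).card).card * M ^ (4 * S.card) ≤
      (256 * S.card) ^ (4 * S.card) * M ^ (16 * N)

/-- **Exp2** (200 lines, uses `S_Exp1`). The union bound.

Proof. The number of bad `h` is at most `∑_{s=1}^K C(N, s) (256 s / M) ^ (4 s) M ^ (16 N)`, and
`C(N, s) ≤ N ^ s / s! ≤ (3 N / s) ^ s` (`Real.pow_div_factorial_le_exp`: `s ^ s / s! ≤ e ^ s ≤ 3 ^ s`). So the `s`-th term is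
`≤ (3 * 256 ^ 4 * N * s ^ 3 / M ^ 4) ^ s ≤ 2 ^ (-s)`, the sum is `< 1`. -/
def S_Exp : Prop :=
  ∀ N M K : ℕ, 0 < M → 6 * 256 ^ 4 * N * K ^ 3 ≤ M ^ 4 →
    ∃ h : Fin N → Fin 16 → Fin M, Good h K

/-- **Gat** (80 lines, uses `S_Or`). Gather: AND gates `(i, t, e)`, then an OR for each bin and bit; the sets
`{(i, t) | h i t = q}` have together `d N` elements. -/
def S_Gat : Prop :=
  ∀ (N d M w : ℕ) (h : Fin N → Fin d → Fin M), 0 < N → 0 < d → 0 < w →
    Cx (fun (x : (Fin N × Fin d) ⊕ (Fin N × Fin w) → Bool) (p : Fin M × Fin w) =>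
      decide (∃ i t, h i t = p.1 ∧ x (Sum.inl (i, t)) = true ∧ x (Sum.inr (i, p.2)) = true))
      ((2 * d * N + M) * w)

/-- **Sca** (60 lines, uses `S_Or`). Scatter. -/
def S_Sca : Prop :=
  ∀ (N d M w : ℕ) (h : Fin N → Fin d → Fin M), 0 < N → 0 < d →
    Cx (fun (x : (Fin N × Fin d) ⊕ (Fin M × Fin w) → Bool) (p : Fin N × Fin w) =>
      decide (∃ t, x (Sum.inl (p.1, t)) = true ∧ x (Sum.inr (h p.1 t, p.2)) = true))
      ((2 * d + 1) * N * w)

/-- **Thr** (100 lines). Thresholds.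

Proof. Induction on `k ≥ 1`. `k = 1`: `0 < num x ↔ x 0`, `1 < num x` is false. `k + 1`: for `j < 2 ^ k`:
`j < num x ↔ x k ∨ j < num (first digits)`; for `j = 2 ^ k + j'`: `x k ∧ j' < num (first digits)`. -/
def S_Thr : Prop :=
  ∀ k : ℕ, 0 < k → Cx (fun (x : Fin k → Bool) (j : Fin (2 ^ k)) => decide ((j : ℕ) < num x))
    (4 * 2 ^ k)

/-- **Loc** (150 lines, uses `S_Naive`, `S_Thr`). The string of a block, shifted by `o`.

Proof. `S_Naive` for `2 ^ (β + 1)` cells: the cell `j < 2 ^ β` has `P = (j < o)` (`S_Thr`), `Q = false`, the cell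
`2 ^ β + ρ` has the `P`, `Q` of the cell `ρ` of the block. As `o < 2 ^ β`, the rank of the cell `2 ^ β + ρ` is `o +` its rank
in the block. -/
def S_Loc : Prop :=
  ∃ c : ℕ, ∀ β : ℕ, 0 < β → Cx (fun (x : Fin β ⊕ (Fin (2 ^ β) ⊕ Fin (2 ^ β)) → Bool)
    (j : Fin (2 ^ (β + 1))) => decide (∃ ρ : Fin (2 ^ β), x (Sum.inr (Sum.inl ρ)) = true ∧
      x (Sum.inr (Sum.inr ρ)) = true ∧
      num (fun t => x (Sum.inl t)) + rk Fin.val (fun ρ => x (Sum.inr (Sum.inl ρ))) ρ = j))
    (c * ((β + 1) * 2 ^ β))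

/-- **Act** (250 lines, uses `S_Naive`, `S_Seg`). The active output blocks.

Proof. `a_i = s i / 2 ^ β`, `a_0 = 0`, `a_(i+1) ∈ {a_i, a_i + 1}`, so `a_i ≠ a_(i+1)` iff the digits `β` of `s i` and `s (i + 1)`
differ. `g_i` = OR of the `v_i'`, `i' ≤ i`, `a_i' = a_i` (`S_Seg`, cut before `i ≥ 1` if `a_(i-1) ≠ a_i`). `P_i` = (`a_i ≠ a_(i+1)` or
`i` is the last block). Then `rk P i = a_i` for all `i`, so `cmp P g a` is true iff some `i` has `v_i`, `a_i = a`
(`S_Naive` with `k = η`). Finally `u_a = u'_a ∨ u'_(a-1)`. -/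
def S_Act : Prop :=
  ∃ c : ℕ, ∀ β η : ℕ, ∃ F : ((Fin (2 ^ η + 1) × Fin (η + β + 1)) ⊕ Fin (2 ^ η) → Bool) →
    Fin (2 ^ η) → Bool, Cx F (c * ((η + 1) * 2 ^ η)) ∧
      ∀ (s : ℕ → ℕ) (x : (Fin (2 ^ η + 1) × Fin (η + β + 1)) ⊕ Fin (2 ^ η) → Bool), s 0 = 0 →
        (∀ i, s i ≤ s (i + 1)) → (∀ i, s (i + 1) ≤ s i + 2 ^ β) →
        (∀ i t, x (Sum.inl (i, t)) = (s i).testBit t) → ∀ a : Fin (2 ^ η),
        F x a = decide (∃ i : Fin (2 ^ η), x (Sum.inr i) = true ∧
          (s i / 2 ^ β = a ∨ s i / 2 ^ β + 1 = a))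

/-- The data of the block `i`: the digits of the rank of its beginning, its `P` and its `Q`. -/
def dat {β η : ℕ} (x : (Fin (2 ^ η) × Fin (2 ^ β)) ⊕ (Fin (2 ^ η) × Fin (2 ^ β)) → Bool)
    (i : Fin (2 ^ η)) : Fin (η + β + 1) ⊕ (Fin (2 ^ β) ⊕ Fin (2 ^ β)) → Bool :=
  Sum.elim (fun t => (rk (bpos (2 ^ β)) (fun p => x (Sum.inl p)) (i * 2 ^ β)).testBit t)
    (Sum.elim (fun ρ => x (Sum.inl (i, ρ))) (fun ρ => x (Sum.inr (i, ρ))))

/-- The active blocks. -/
def act {β η : ℕ} (x : (Fin (2 ^ η) × Fin (2 ^ β)) ⊕ (Fin (2 ^ η) × Fin (2 ^ β)) → Bool) :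
    Finset (Fin (2 ^ η)) :=
  univ.filter fun i => ∃ ρ, x (Sum.inl (i, ρ)) = true ∧ x (Sum.inr (i, ρ)) = true

/-- **FA** (200 lines, uses `S_Or`, `S_Pre`, `S_Mat`, `S_Gat`). The data of the active blocks in the bins.

Proof. `S_Pre`; `v_i` = block `i` is active (ANDs and `S_Or`); `S_Mat` for `v` (`d = 16`); `S_Gat` for the data
(`w = (η + β + 1) + 2 ^ β + 2 ^ β`). By the third property of `S_Mat` all the matched edges to one bin come from
one block. `β ≤ 2 ^ β` for the estimate of the size. -/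
def S_FA : Prop :=
  ∃ c : ℕ, ∀ (β η M K : ℕ) (h : Fin (2 ^ η) → Fin 16 → Fin M), M ≤ 2 ^ η → Good h K →
    ∃ F : ((Fin (2 ^ η) × Fin (2 ^ β)) ⊕ (Fin (2 ^ η) × Fin (2 ^ β)) → Bool) →
      Fin M × (Fin (η + β + 1) ⊕ (Fin (2 ^ β) ⊕ Fin (2 ^ β))) → Bool,
      Cx F (c * (2 ^ η * (2 ^ β + η + Nat.log 2 K + 1))) ∧ ∀ x, (act x).card ≤ K →
        (∀ q, (∀ e, F x (q, e) = false) ∨ ∃ i, ∀ e, F x (q, e) = dat x i e) ∧
        ∀ i ∈ act x, ∃ q, ∀ e, F x (q, e) = dat x i e

/-- The record `c` of a bin: the key is `s / 2 ^ β + c`, the string is the part `c` of the shifted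
string. -/
def rcd {β η : ℕ} (y : Fin (η + β + 1) ⊕ (Fin (2 ^ β) ⊕ Fin (2 ^ β)) → Bool) (c : Fin 2) :
    Fin (η + 1) ⊕ Fin (2 ^ β) → Bool :=
  Sum.elim (fun t => (num (fun t => y (Sum.inl t)) / 2 ^ β + c).testBit t)
    (fun e => decide (∃ ρ : Fin (2 ^ β), y (Sum.inr (Sum.inl ρ)) = true ∧
      y (Sum.inr (Sum.inr ρ)) = true ∧ num (fun t => y (Sum.inl t)) % 2 ^ β +
        rk Fin.val (fun ρ => y (Sum.inr (Sum.inl ρ))) ρ = c * 2 ^ β + e))

/-- **FB** (200 lines, uses `S_Add`, `S_Loc`). The records of one bin.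

Proof. `num y % 2 ^ β` is `num` of the first `β` digits, `num y / 2 ^ β` is `num` of the digits `β, …, η + β`. The key of
the record `1` by `S_Add` (`k = η + 1`, the second summand is the constant `1`). The strings by `S_Loc`
(`j = c * 2 ^ β + e`). -/
def S_FB : Prop :=
  ∃ c : ℕ, ∀ β η : ℕ, 0 < β → Cx (fun (y : Fin (η + β + 1) ⊕ (Fin (2 ^ β) ⊕ Fin (2 ^ β)) → Bool)
    (p : Fin 2 × (Fin (η + 1) ⊕ Fin (2 ^ β))) => rcd y p.1 p.2)
    (c * ((β + 1) * 2 ^ β + η))

/-- **Front** (200 lines, uses `S_FA`, `S_FB`).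

Proof. `S_FA` and `S_FB` for all bins (`Cx.blocks`). A bin with the data `0` has empty strings. If a bin contains
`dat x i` and its record `c` has the key `a` and `e` in its string: `s_i / b + c = a` (`s_i ≤ 2 ^ (η + β)`, all keys are
`< 2 ^ (η + 1)`: `s_i ≤ i * 2 ^ β`), `s_i % b + rk' ρ = c b + e`, so the rank of the cell `(i, ρ)`, which is `s_i + rk' ρ`, is
`a b + e`. Conversely, for a cell `(i, ρ)` with `P`, `Q` and rank `a b + e` the block `i` is active; `s_i % b + rk' ρ < 2 b`,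
`c` is its quotient by `b`. -/
def S_Front : Prop :=
  ∃ c : ℕ, ∀ (β η μ K : ℕ) (h : Fin (2 ^ η) → Fin 16 → Fin (2 ^ μ)), 0 < β → μ ≤ η →
    Good h K → ∃ F : ((Fin (2 ^ η) × Fin (2 ^ β)) ⊕ (Fin (2 ^ η) × Fin (2 ^ β)) → Bool) →
      (Fin 2 × Fin (2 ^ μ)) × (Fin (η + 1) ⊕ Fin (2 ^ β)) → Bool,
      Cx F (c * (2 ^ η * (2 ^ β + η + Nat.log 2 K + 1) + 2 ^ μ * (η + 2 ^ β + 1) ^ 3)) ∧
      ∀ x, (act x).card ≤ K → ∀ (a : Fin (2 ^ η)) (e : Fin (2 ^ β)),
        (∃ r, (∀ t : Fin (η + 1), F x (r, Sum.inl t) = (a : ℕ).testBit t) ∧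
          F x (r, Sum.inr e) = true) ↔
        cmp (bpos (2 ^ β)) (fun p => x (Sum.inl p)) (fun p => x (Sum.inr p))
          (a * 2 ^ β + e) = true

/-- **BA** (150 lines, uses `S_Mat`, `S_Gat`). The output blocks in `u` are matched with bins; a bin knows the
digits of its block.

Proof. `S_Mat`, and `S_Gat` with the constant data `(a, t) ↦ a.testBit t` (`w = η + 1`, `Cx.consts`). -/
def S_BA : Prop :=
  ∃ c : ℕ, ∀ (η M K : ℕ) (h : Fin (2 ^ η) → Fin 16 → Fin M), M ≤ 2 ^ η → Good h K →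
    ∃ F : (Fin (2 ^ η) → Bool) → (Fin (2 ^ η) × Fin 16) ⊕ (Fin M × Fin (η + 1)) → Bool,
      Cx F (c * (2 ^ η * (η + Nat.log 2 K + 1))) ∧ ∀ u, (univ.filter fun a => u a = true).card ≤ K →
        (∀ a t, F u (Sum.inl (a, t)) = true → u a = true ∧
          ∀ τ, F u (Sum.inr (h a t, τ)) = (a : ℕ).testBit τ) ∧
        ∀ a, u a = true → ∃ t, F u (Sum.inl (a, t)) = true

/-- **BB** (200 lines, uses `S_KeyOr`). The join.

Proof. `S_KeyOr` for `2 ^ (μ + 2)` records: the records `(c, q)` at the places `c * 2 ^ μ + q`, the bins (with the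
string `0`) at the places `2 * 2 ^ μ + q`, and `0` elsewhere. -/
def S_BB : Prop :=
  ∃ c : ℕ, ∀ β L μ : ℕ, Cx (fun (x : ((Fin 2 × Fin (2 ^ μ)) × (Fin L ⊕ Fin (2 ^ β))) ⊕
    (Fin (2 ^ μ) × Fin L) → Bool) (p : Fin (2 ^ μ) × Fin (2 ^ β)) =>
      decide (∃ r, (∀ t, x (Sum.inl (r, Sum.inl t)) = x (Sum.inr (p.1, t))) ∧
        x (Sum.inl (r, Sum.inr p.2)) = true))
    (c * ((μ + L + 1) * (μ + L + 2 ^ β) * (μ + 1) * 2 ^ μ))

/-- **Back** (200 lines, uses `S_BA`, `S_BB`, `S_Sca`).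

Proof. `S_BA` for `u`, `S_BB` with `L = η + 1` for the records and the digits of the bins, `S_Sca`. -/
def S_Back : Prop :=
  ∃ c : ℕ, ∀ (β η μ K : ℕ) (h : Fin (2 ^ η) → Fin 16 → Fin (2 ^ μ)), μ ≤ η → Good h K →
    ∃ F : (((Fin 2 × Fin (2 ^ μ)) × (Fin (η + 1) ⊕ Fin (2 ^ β))) ⊕ Fin (2 ^ η) → Bool) →
      Fin (2 ^ η) × Fin (2 ^ β) → Bool,
      Cx F (c * (2 ^ η * (2 ^ β + η + Nat.log 2 K + 1) + 2 ^ μ * (η + 2 ^ β + 1) ^ 3)) ∧
      ∀ x, (univ.filter fun a => x (Sum.inr a) = true).card ≤ K → ∀ a e,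
        F x (a, e) = decide (x (Sum.inr a) = true ∧
          ∃ r, (∀ t : Fin (η + 1), x (Sum.inl (r, Sum.inl t)) = (a : ℕ).testBit t) ∧
            x (Sum.inl (r, Sum.inr e)) = true)

/-- **Core** (250 lines, uses `S_Or`, `S_Pre`, `S_Act`, `S_Front`, `S_Back`).

Proof. `s i = rk P (i * 2 ^ β)`: `s 0 = 0`, `s i ≤ s (i + 1) ≤ s i + 2 ^ β` (for `i ≥ 2 ^ η` it is constant). `u` = the output of
`S_Act` for `s` (`S_Pre`) and `v` = active (`S_Or`): at most `2 * (act x).card ≤ K` elements (two values of `a` for each active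
`i`). `S_Front`, `S_Back` with this `u`. If `cmp … (a b + e)` is true, the cell `(i, ρ)` has the rank
`s_i + rk' ρ = a b + e`, `rk' ρ < b`, so `s_i / b ∈ {a, a - 1}` and `u_a` is true. -/
def S_Core : Prop :=
  ∃ c : ℕ, ∀ (β η μ K : ℕ) (h : Fin (2 ^ η) → Fin 16 → Fin (2 ^ μ)), 0 < β → μ ≤ η →
    Good h K → ∃ F : ((Fin (2 ^ η) × Fin (2 ^ β)) ⊕ (Fin (2 ^ η) × Fin (2 ^ β)) → Bool) →
      Fin (2 ^ η) × Fin (2 ^ β) → Bool,
      Cx F (c * (2 ^ η * (2 ^ β + η + Nat.log 2 K + 1) + 2 ^ μ * (η + 2 ^ β + 1) ^ 3)) ∧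
      ∀ x, 2 * (act x).card ≤ K → ∀ (a : Fin (2 ^ η)) (e : Fin (2 ^ β)),
        F x (a, e) = cmp (bpos (2 ^ β)) (fun p => x (Sum.inl p)) (fun p => x (Sum.inr p))
          (a * 2 ^ β + e)

/-- **Sparse** (350 lines, uses `S_Core`, `S_Exp`, `S_Naive`). Sparse marks, linear size.

Proof. `n = 0` trivial. `ν = Nat.log 2 n + 1` (`2 ^ (ν - 1) ≤ n < 2 ^ ν`), `β = Nat.log 2 ν` (`2 ^ β ≤ ν < 2 ^ (β + 1)`), `η = ν - β`,
`μ = ν - 3 β - 2`, `K = 2 ^ (ν - 4 β + 6)`. Pad the word by cells with `P = false` to `2 ^ ν = 2 ^ η * 2 ^ β` cells (the cell `j` is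
`(j / 2 ^ β, j % 2 ^ β)`; this does not change `cmp`).
CASE `β < 100`: `S_Naive` with `k = ν`: `8 (ν + 1) 2 ^ ν ≤ 16 * 2 ^ 101 * n` gates.
CASE `β ≥ 100`: `ν ≥ 2 ^ β` is much larger than `β`, so all the subtractions are exact. `S_Exp` with `N = 2 ^ η`, `M = 2 ^ μ`:
`6 * 2 ^ 32 * 2 ^ (ν - β) * 2 ^ (3 (ν - 4 β + 6)) ≤ 2 ^ (4 ν - 13 β + 53) ≤ 2 ^ (4 (ν - 3 β - 2))` as `β ≥ 61`. The number of marks `k`
satisfies `k (ν - 1) ^ 4 ≤ n + (ν - 1) ^ 4 ≤ 2 * 2 ^ ν` and `ν - 1 ≥ 2 ^ (β - 1)`, so `k ≤ 2 ^ (ν + 1 - 4 β + 4)` and `2 k ≤ K`; every active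
block contains a mark. Size: `2 ^ η * (2 ^ β + η + log K + 1) ≤ 2 ^ (ν - β) * 4 * 2 ^ (β + 1)`, `2 ^ μ * (η + 2 ^ β + 1) ^ 3 ≤
2 ^ (ν - 3 β - 2) * (2 ^ (β + 2)) ^ 3`: both are `≤ 16 * 2 ^ ν ≤ 32 n`. -/
def S_Sparse : Prop :=
  ∃ C : ℕ, ∀ n : ℕ, ∃ F : (Fin n ⊕ Fin n → Bool) → Fin n → Bool, Cx F (C * n) ∧
    ∀ x, (univ.filter fun i => x (Sum.inl i) = true ∧ x (Sum.inr i) = true).card *
        Nat.log 2 n ^ 4 ≤ n + Nat.log 2 n ^ 4 → ∀ j,
      F x j = cmp Fin.val (fun i => x (Sum.inl i)) (fun i => x (Sum.inr i)) j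

/-- **Cnt** (100 lines, uses `S_Pop`, `S_Thr`). The valid output cells.

Proof. Pad to `2 ^ ν ≤ 2 n` cells (`n ≥ 1`), `S_Pop` and `S_Thr` with `k = ν + 1`. -/
def S_Cnt : Prop :=
  ∃ C : ℕ, ∀ n : ℕ, Cx (fun (P : Fin n → Bool) (j : Fin n) =>
    decide ((j : ℕ) < (univ.filter fun i => P i = true).card)) (C * n)

/-- The marks of the changes: `x i` is not `2`, and it is different from the last letter `≠ 2` before
it (which is `0` if there is none). -/
def chg {n : ℕ} (x : Fin n → Fin 3) (i : Fin n) : Bool :=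
  decide (x i ≠ 2) && (decide (x i = 1) ^^
    decide (∃ i' : Fin n, i' < i ∧ x i' = 1 ∧ ∀ l : Fin n, i' < l → l < i → x l = 2))

/-- The number of alternations of the subsequence of the letters `≠ 2`. -/
def alt {n : ℕ} (x : Fin n → Fin 3) : ℕ :=
  (univ.filter fun p : Fin n × Fin n => p.1 < p.2 ∧ x p.1 ≠ 2 ∧ x p.2 ≠ 2 ∧ x p.1 ≠ x p.2 ∧
    ∀ l : Fin n, p.1 < l → l < p.2 → x l = 2).card

/-- **Lst** (150 lines). The target in terms of ranks.

Proof. Induction on `n` for lists: the element `j` of `filter (≠ 2)` is `x i` for the `i` with `x i ≠ 2` of rank `j`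
(one may prove it for `List.ofFn x`, or use `List.getElem?_filter`-like lemmas); for `j ≥` the number of letters
`≠ 2` the element is a `2`. -/
def S_Lst : Prop :=
  ∀ (n : ℕ) (x : Fin n → Fin 3) (j : Fin n),
    ((((List.ofFn x).filter (fun a => a != (2 : Fin 3))) ++
      ((List.ofFn x).filter (fun a => a == (2 : Fin 3)))).getD j.val 0 = 1 ↔
      ∃ i, x i = 1 ∧ rk Fin.val (fun i => decide (x i ≠ 2)) i = j) ∧
    ((((List.ofFn x).filter (fun a => a != (2 : Fin 3))) ++
      ((List.ofFn x).filter (fun a => a == (2 : Fin 3)))).getD j.val 0 = 2 ↔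
      (univ.filter fun i => x i ≠ 2).card ≤ j)

/-- **Chg** (200 lines). The changes determine the payload.

Proof. (1) Every `i` with `chg x i` except possibly the first `i` with `x i ≠ 2` gives a pair `(i', i)` of `alt x`,
`i'` the last index before `i` with `x i' ≠ 2`. (2) Let `i_0 < i_1 < …` be the indices with `x i ≠ 2`. `cmp … j'` is `chg x (i_j')`,
and the XOR of the `chg x (i_j')`, `j' ≤ j`, is `x i_j = 1`, by induction on `j`. -/
def S_Chg : Prop :=
  ∀ (n : ℕ) (x : Fin n → Fin 3),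
    (univ.filter fun i => x i ≠ 2 ∧ chg x i = true).card ≤ alt x + 1 ∧
    ∀ i : Fin n, x i ≠ 2 → (decide (x i = 1) = decide (((univ.filter fun j : Fin n =>
      (j : ℕ) ≤ rk Fin.val (fun i => decide (x i ≠ 2)) i ∧
        cmp Fin.val (fun i => decide (x i ≠ 2)) (chg x) j = true).card) % 2 = 1))

/-- **Top** (300 lines, uses `S_Sparse`, `S_Cnt`, `S_Lst`, `S_Chg`).

Proof. Input digits `[x i = 1]`, `[x i = 2]`. `P i = ¬ [x i = 2]`; `pv 0 = 0`, `pv (i + 1) = [x i = 1] ∨ ([x i = 2] ∧ pv i)` (`pv i` is the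
second `decide` in `chg`), `Q i = P i ∧ ([x i = 1] ⊕ pv i)` = `chg x i`: `4 n` gates. `S_Sparse` gives `e j = cmp P Q j`; `y j` = XOR of the
`e j'`, `j' ≤ j` (`n` gates); `T j` by `S_Cnt`; output `y j ∧ T j` and `¬ T j`. By `S_Chg` the condition of `S_Sparse`
holds: `(alt x + 1) * log ^ 4 ≤ n + log ^ 4`. For `j` smaller than the number of letters `≠ 2` there is an `i` with
`x i ≠ 2` of rank `j`, and `y j = [x i = 1]`. `n = 0` is trivial. -/
def S_Top : Prop :=
  ∃ C : ℕ, ∀ n : ℕ, ∃ F : (Fin n × Fin 2 → Bool) → Fin n × Fin 2 → Bool, Cx F (C * n) ∧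
    ∀ x : Fin n → Fin 3, alt x * Nat.log 2 n ^ 4 ≤ n → ∀ y : Fin n × Fin 2 → Bool,
      (∀ i, y (i, 0) = decide (x i = 1) ∧ y (i, 1) = decide (x i = 2)) → ∀ j : Fin n,
        F y (j, 0) = decide ((((List.ofFn x).filter (fun a => a != (2 : Fin 3))) ++
          ((List.ofFn x).filter (fun a => a == (2 : Fin 3)))).getD j.val 0 = 1) ∧
        F y (j, 1) = decide ((((List.ofFn x).filter (fun a => a != (2 : Fin 3))) ++
          ((List.ofFn x).filter (fun a => a == (2 : Fin 3)))).getD j.val 0 = 2)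

end Pool.Agent.Lin
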